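import Pool.Agent.N150.HS.Surf

/-! # The blow-up map -/

set_option autoImplicit false
set_option linter.unusedSectionVars false
set_option linter.deprecated false

open scoped Manifold ContDiff Topology ComplexConjugate
open Complex Set Filter
open Pool.Agent.H194R3.Cartan
open Pool.Agent.H194R3.Cartan.P1 (coe inf inversion chartZero chartInf)

namespace Pool.Agent.N150.HS

instance instManF0 : IsManifold 𝓘(ℂ, ℂ × ℂ) ω F0 := by
  rw [modelWithCornersSelf_prod]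
  exact IsManifold.prod P1 P1

/-- the point of `ℙ¹` with the homogeneous coordinates `x`, `y` -/
noncomputable def rat (x y : ℂ) : P1 := by
  classical exact if y = 0 then inf else coe (x / y)

lemma rat_of_ne {x y : ℂ} (hy : y ≠ 0) : rat x y = coe (x / y) := if_neg hy

lemma rat_of_ne' {x y : ℂ} (hx : x ≠ 0) : rat x y = inversion (coe (y / x)) := by
  by_cases hy : y = 0
  · subst hy
    rw [zero_div, P1.inversion_zero]
    exact if_pos rfl
  · rw [rat_of_ne hy, P1.inversion_of_ne (div_ne_zero hy hx), inv_div]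

lemma rat_mul {c x y : ℂ} (hc : c ≠ 0) : rat (c * x) (c * y) = rat x y := by
  by_cases hy : y = 0
  · subst hy
    rw [mul_zero]
    unfold rat
    rw [if_pos rfl, if_pos rfl]
  · rw [rat_of_ne hy, rat_of_ne (mul_ne_zero hc hy), mul_div_mul_left _ _ hc]

/-- the blow-up map in homogeneous coordinates -/
noncomputable def betaC (Z : C5) : F0 := (rat (Z 0) (Z 2 * Z 3), rat (Z 1) (Z 3 * Z 4))

lemma betaC_act {μ : Fin 3 → ℂ} (hμ : ∀ i, μ i ≠ 0) (Z : C5) : betaC (act μ Z) = betaC Z := by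
  unfold betaC
  rw [act_0, act_1, act_2, act_3, act_4]
  have e1 : μ 0 * Z 2 * (μ 2 * Z 3) = μ 0 * μ 2 * (Z 2 * Z 3) := by ring
  have e2 : μ 2 * Z 3 * (μ 1 * Z 4) = μ 1 * μ 2 * (Z 3 * Z 4) := by ring
  rw [e1, e2, rat_mul (mul_ne_zero (hμ 0) (hμ 2)), rat_mul (mul_ne_zero (hμ 1) (hμ 2))]

/-- the blow-up map -/
noncomputable def beta (x : Surf) : F0 :=
  Quotient.lift (fun Z : St => betaC Z.1) (by
    rintro Z Z' ⟨μ, hμ, h⟩
    show betaC Z.1 = betaC Z'.1
    rw [h, betaC_act hμ]) x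

lemma beta_proj (Z : St) : beta (proj Z) = betaC Z.1 := rfl

/-- the blow-up map in the charts -/
noncomputable def FF (j : Fin 5) (p : C2) : F0 :=
  match j with
  | 0 => (coe (p 0), coe (p 1))
  | 1 => (inversion (coe (p 1)), coe (p 0))
  | 2 => (inversion (coe (p 0 * p 1)), inversion (coe (p 1)))
  | 3 => (inversion (coe (p 0)), inversion (coe (p 0 * p 1)))
  | 4 => (coe (p 1), inversion (coe (p 0)))

lemma betaC_eq {j : Fin 5} {Z : C5} (h : dom j Z) : betaC Z = FF j (quo j Z) := by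
  unfold betaC
  fin_cases j
  · obtain ⟨h2, h3, h4⟩ := h
    show _ = (coe (Z 0 / (Z 2 * Z 3)), coe (Z 1 / (Z 3 * Z 4)))
    rw [rat_of_ne (mul_ne_zero h2 h3), rat_of_ne (mul_ne_zero h3 h4)]
  · obtain ⟨h3, h4, h0⟩ := h
    show _ = (inversion (coe (Z 2 * Z 3 / Z 0)), coe (Z 1 / (Z 3 * Z 4)))
    rw [rat_of_ne' h0, rat_of_ne (mul_ne_zero h3 h4)]
  · obtain ⟨h4, h0, h1⟩ := h
    show _ = (inversion (coe (Z 1 * Z 2 / (Z 0 * Z 4) * (Z 3 * Z 4 / Z 1))),
      inversion (coe (Z 3 * Z 4 / Z 1)))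
    have e : Z 1 * Z 2 / (Z 0 * Z 4) * (Z 3 * Z 4 / Z 1) = Z 2 * Z 3 / Z 0 := by
      field_simp
    rw [rat_of_ne' h0, rat_of_ne' h1, e]
  · obtain ⟨h0, h1, h2⟩ := h
    show _ = (inversion (coe (Z 2 * Z 3 / Z 0)),
      inversion (coe (Z 2 * Z 3 / Z 0 * (Z 0 * Z 4 / (Z 1 * Z 2)))))
    have e : Z 2 * Z 3 / Z 0 * (Z 0 * Z 4 / (Z 1 * Z 2)) = Z 3 * Z 4 / Z 1 := by
      field_simp
    rw [rat_of_ne' h0, rat_of_ne' h1, e]
  · obtain ⟨h1, h2, h3⟩ := h
    show _ = (coe (Z 0 / (Z 2 * Z 3)), inversion (coe (Z 3 * Z 4 / Z 1)))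
    rw [rat_of_ne (mul_ne_zero h2 h3), rat_of_ne' h1]

lemma beta_eq {j : Fin 5} {x : Surf} (h : domS j x) : beta x = FF j (quoS j x) := by
  obtain ⟨Z, rfl⟩ := proj_surj x
  exact betaC_eq h

lemma beta_sec (j : Fin 5) (p : C2) : beta (sec j p) = FF j p := by
  rw [beta_eq (domS_sec j p), quoS_sec]

/-! ### Smoothness -/

lemma chartZero_mem : chartZero ∈ IsManifold.maximalAtlas 𝓘(ℂ, ℂ) ω P1 :=
  IsManifold.subset_maximalAtlas (Or.inl rfl)

lemma chartInf_mem : chartInf ∈ IsManifold.maximalAtlas 𝓘(ℂ, ℂ) ω P1 :=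
  IsManifold.subset_maximalAtlas (Or.inr rfl)

lemma chartInf_target : chartInf.target = univ := by
  ext z
  simp [chartInf, P1.chartZero_target]

lemma coe_smooth : ContMDiff 𝓘(ℂ, ℂ) 𝓘(ℂ, ℂ) ω coe := by
  rw [← contMDiffOn_univ]
  have h := contMDiffOn_symm_of_mem_maximalAtlas chartZero_mem
  rw [P1.chartZero_target] at h
  exact h.congr fun z _ => (P1.chartZero_symm z).symm

lemma inv_smooth : ContMDiff 𝓘(ℂ, ℂ) 𝓘(ℂ, ℂ) ω (fun z => inversion (coe z)) := by
  rw [← contMDiffOn_univ]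
  have h := contMDiffOn_symm_of_mem_maximalAtlas chartInf_mem
  rw [chartInf_target] at h
  exact h.congr fun z _ => (P1.chartInf_symm z).symm

lemma prod_smooth {M : Type} [TopologicalSpace M] [ChartedSpace C2 M] {f g : M → P1} {s : Set M}
    (hf : ContMDiffOn 𝓘(ℂ, C2) 𝓘(ℂ, ℂ) ω f s) (hg : ContMDiffOn 𝓘(ℂ, C2) 𝓘(ℂ, ℂ) ω g s) :
    ContMDiffOn 𝓘(ℂ, C2) 𝓘(ℂ, ℂ × ℂ) ω (fun x => ((f x, g x) : F0)) s := by
  rw [modelWithCornersSelf_prod]
  exact hf.prodMk hg

lemma c0_smooth : ContMDiff 𝓘(ℂ, C2) 𝓘(ℂ, ℂ) ω (fun p : C2 => p 0) :=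
  (contDiff_apply ℂ ℂ 0).contMDiff

lemma c1_smooth : ContMDiff 𝓘(ℂ, C2) 𝓘(ℂ, ℂ) ω (fun p : C2 => p 1) :=
  (contDiff_apply ℂ ℂ 1).contMDiff

lemma c01_smooth : ContMDiff 𝓘(ℂ, C2) 𝓘(ℂ, ℂ) ω (fun p : C2 => p 0 * p 1) :=
  ((contDiff_apply ℂ ℂ 0).mul (contDiff_apply ℂ ℂ 1)).contMDiff

lemma FF_smooth (j : Fin 5) : ContMDiff 𝓘(ℂ, C2) 𝓘(ℂ, ℂ × ℂ) ω (FF j) := by
  rw [← contMDiffOn_univ]
  fin_cases j
  · exact prod_smooth (coe_smooth.comp c0_smooth).contMDiffOn
      (coe_smooth.comp c1_smooth).contMDiffOn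
  · exact prod_smooth (inv_smooth.comp c1_smooth).contMDiffOn
      (coe_smooth.comp c0_smooth).contMDiffOn
  · exact prod_smooth (inv_smooth.comp c01_smooth).contMDiffOn
      (inv_smooth.comp c1_smooth).contMDiffOn
  · exact prod_smooth (inv_smooth.comp c0_smooth).contMDiffOn
      (inv_smooth.comp c01_smooth).contMDiffOn
  · exact prod_smooth (coe_smooth.comp c1_smooth).contMDiffOn
      (inv_smooth.comp c0_smooth).contMDiffOn

lemma ch_mem (j : Fin 5) : ch j ∈ IsManifold.maximalAtlas 𝓘(ℂ, C2) ω Surf :=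
  IsManifold.subset_maximalAtlas (mem_range_self j)

lemma beta_smooth : ContMDiff 𝓘(ℂ, C2) 𝓘(ℂ, ℂ × ℂ) ω beta := by
  intro x
  obtain ⟨j, hj⟩ := exists_domS x
  have h1 : ContMDiffAt 𝓘(ℂ, C2) 𝓘(ℂ, C2) ω (ch j) x :=
    contMDiffAt_of_mem_maximalAtlas (ch_mem j) hj
  have h2 : ContMDiffAt 𝓘(ℂ, C2) 𝓘(ℂ, ℂ × ℂ) ω (FF j ∘ ch j) x :=
    ((FF_smooth j) _).comp x h1
  refine h2.congr_of_eventuallyEq ?_
  filter_upwards [(isOpen_domS j).mem_nhds hj] with y hy
  exact beta_eq hy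

/-! ### The inverse -/

/-- the domains of the local inverses -/
def UU (j : Fin 5) : Set F0 :=
  match j with
  | 0 => {P | P.1 ≠ inf ∧ P.2 ≠ inf}
  | 1 => {P | inversion P.1 ≠ inf ∧ P.2 ≠ inf}
  | 4 => {P | P.1 ≠ inf ∧ inversion P.2 ≠ inf}
  | 2 => ∅
  | 3 => ∅

/-- the local inverses -/
noncomputable def gg (j : Fin 5) (P : F0) : C2 :=
  match j with
  | 0 => ![chartZero P.1, chartZero P.2]
  | 1 => ![chartZero P.2, chartInf P.1]
  | 4 => ![chartInf P.2, chartZero P.1]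
  | 2 => 0
  | 3 => 0

lemma coe_chartZero {x : P1} (h : x ≠ inf) : coe (chartZero x) = x := by
  rcases P1.cases x with rfl | ⟨z, rfl⟩
  · exact absurd rfl h
  · rw [P1.chartZero_coe]

lemma inv_chartInf {x : P1} (h : inversion x ≠ inf) : inversion (coe (chartInf x)) = x := by
  rw [P1.chartInf_apply, coe_chartZero h, P1.inversion_inversion]

lemma chartInf_inv (z : ℂ) : chartInf (inversion (coe z)) = z := by
  rw [P1.chartInf_apply, P1.inversion_inversion, P1.chartZero_coe]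

lemma FF_gg {j : Fin 5} {P : F0} (h : P ∈ UU j) : FF j (gg j P) = P := by
  fin_cases j
  · show (coe (chartZero P.1), coe (chartZero P.2)) = P
    rw [coe_chartZero h.1, coe_chartZero h.2]
  · show (inversion (coe (chartInf P.1)), coe (chartZero P.2)) = P
    rw [inv_chartInf h.1, coe_chartZero h.2]
  · exact absurd h (notMem_empty _)
  · exact absurd h (notMem_empty _)
  · show (coe (chartZero P.1), inversion (coe (chartInf P.2))) = P
    rw [coe_chartZero h.1, inv_chartInf h.2]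

lemma gg_FF {j : Fin 5} (hj : j = 0 ∨ j = 1 ∨ j = 4) (p : C2) : gg j (FF j p) = p := by
  rcases hj with rfl | rfl | rfl
  · show ![chartZero (coe (p 0)), chartZero (coe (p 1))] = p
    rw [P1.chartZero_coe, P1.chartZero_coe]
    funext k
    fin_cases k <;> rfl
  · show ![chartZero (coe (p 0)), chartInf (inversion (coe (p 1)))] = p
    rw [P1.chartZero_coe, chartInf_inv]
    funext k
    fin_cases k <;> rfl
  · show ![chartInf (inversion (coe (p 0))), chartZero (coe (p 1))] = p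
    rw [P1.chartZero_coe, chartInf_inv]
    funext k
    fin_cases k <;> rfl

lemma rat_eq_inf {x y : ℂ} : rat x y = inf ↔ y = 0 := by
  constructor
  · intro h
    by_contra hy
    rw [rat_of_ne hy] at h
    exact P1.coe_ne_inf _ h
  · intro hy
    exact if_pos hy

lemma inv_rat_ne {x y : ℂ} (h : inversion (rat x y) ≠ inf) : x ≠ 0 ∨ y = 0 := by
  by_contra hcon
  push Not at hcon
  obtain ⟨h1, h2⟩ := hcon
  rw [rat_of_ne h2, h1, zero_div, P1.inversion_zero] at h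
  exact h rfl

lemma mem_UU_index {j : Fin 5} {P : F0} (h : P ∈ UU j) : j = 0 ∨ j = 1 ∨ j = 4 := by
  fin_cases j
  · exact Or.inl rfl
  · exact Or.inr (Or.inl rfl)
  · exact absurd h (notMem_empty _)
  · exact absurd h (notMem_empty _)
  · exact Or.inr (Or.inr rfl)

lemma domS_of_mem {j : Fin 5} {x : Surf} (h : beta x ∈ UU j) : domS j x := by
  obtain ⟨⟨Z, hZ⟩, rfl⟩ := proj_surj x
  rw [beta_proj] at h
  obtain ⟨s1, s2, s3, s4, s5⟩ := hZ
  have hj := mem_UU_index h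
  rcases hj with rfl | rfl | rfl
  · obtain ⟨h1, h2⟩ := h
    have a : Z 2 * Z 3 ≠ 0 := fun h => h1 (rat_eq_inf.2 h)
    have b : Z 3 * Z 4 ≠ 0 := fun h => h2 (rat_eq_inf.2 h)
    exact ⟨left_ne_zero_of_mul a, right_ne_zero_of_mul a, right_ne_zero_of_mul b⟩
  · obtain ⟨h1, h2⟩ := h
    have a : Z 0 ≠ 0 := by
      intro h0
      rcases inv_rat_ne h1 with h | h
      · exact h h0
      · rcases mul_eq_zero.1 h with h | h <;> tauto
    have b : Z 3 * Z 4 ≠ 0 := fun h => h2 (rat_eq_inf.2 h)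
    exact ⟨left_ne_zero_of_mul b, right_ne_zero_of_mul b, a⟩
  · obtain ⟨h1, h2⟩ := h
    have a : Z 2 * Z 3 ≠ 0 := fun h => h1 (rat_eq_inf.2 h)
    have b : Z 1 ≠ 0 := by
      intro h0
      rcases inv_rat_ne h2 with h | h
      · exact h h0
      · rcases mul_eq_zero.1 h with h | h <;> tauto
    exact ⟨b, left_ne_zero_of_mul a, right_ne_zero_of_mul a⟩

lemma exists_UU {P : F0} (h : P ≠ (inf, inf)) : ∃ j, P ∈ UU j := by
  obtain ⟨x, y⟩ := P
  by_cases hx : x = inf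
  · by_cases hy : y = inf
    · exact absurd (by rw [hx, hy]) h
    · refine ⟨1, ?_, hy⟩
      show inversion x ≠ inf
      rw [hx, P1.inversion_inf]
      exact P1.coe_ne_inf 0
  · by_cases hy : y = inf
    · refine ⟨4, hx, ?_⟩
      show inversion y ≠ inf
      rw [hy, P1.inversion_inf]
      exact P1.coe_ne_inf 0
    · exact ⟨0, hx, hy⟩

open Classical in
/-- the inverse of the blow-up map outside of the point -/
noncomputable def sgm (P : F0) : Surf :=
  if h : ∃ j, P ∈ UU j then sec h.choose (gg h.choose P) else sec 0 0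

lemma sgm_eq {j : Fin 5} {P : F0} (h : P ∈ UU j) : sgm P = sec j (gg j P) := by
  have hex : ∃ j, P ∈ UU j := ⟨j, h⟩
  unfold sgm
  rw [dif_pos hex]
  have hi := hex.choose_spec
  generalize hex.choose = i at hi ⊢
  have e1 : beta (sec i (gg i P)) = P := by rw [beta_sec, FF_gg hi]
  have e2 : domS j (sec i (gg i P)) := domS_of_mem (by rw [e1]; exact h)
  have e3 : gg j P = quoS j (sec i (gg i P)) := by
    conv_lhs => rw [← e1]
    rw [beta_eq e2, gg_FF (mem_UU_index h)]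
  rw [e3, sec_quoS e2]

lemma isOpen_UU (j : Fin 5) : IsOpen (UU j) := by
  have hi : IsOpen ({inf}ᶜ : Set P1) := isOpen_compl_singleton
  have c1 : Continuous (fun P : F0 => P.1) := continuous_fst
  have c2 : Continuous (fun P : F0 => P.2) := continuous_snd
  fin_cases j
  · exact (hi.preimage c1).inter (hi.preimage c2)
  · exact (hi.preimage (P1.continuous_inversion.comp c1)).inter (hi.preimage c2)
  · exact isOpen_empty
  · exact isOpen_empty
  · exact (hi.preimage c1).inter (hi.preimage (P1.continuous_inversion.comp c2))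

lemma fst_smooth : ContMDiff 𝓘(ℂ, ℂ × ℂ) 𝓘(ℂ, ℂ) ω (fun P : F0 => P.1) := by
  rw [modelWithCornersSelf_prod]
  exact contMDiff_fst

lemma snd_smooth : ContMDiff 𝓘(ℂ, ℂ × ℂ) 𝓘(ℂ, ℂ) ω (fun P : F0 => P.2) := by
  rw [modelWithCornersSelf_prod]
  exact contMDiff_snd

lemma mem_zero_source {x : P1} (h : x ≠ inf) : x ∈ chartZero.source := by
  rw [P1.chartZero_source]
  exact ⟨_, coe_chartZero h⟩

lemma mem_inf_source {x : P1} (h : inversion x ≠ inf) : x ∈ chartInf.source := by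
  rw [P1.mem_chartInf_source]
  exact ⟨_, coe_chartZero h⟩

lemma zero_smooth {f : F0 → P1} (hf : ContMDiff 𝓘(ℂ, ℂ × ℂ) 𝓘(ℂ, ℂ) ω f) {s : Set F0}
    (hs : ∀ P ∈ s, f P ≠ inf) :
    ContMDiffOn 𝓘(ℂ, ℂ × ℂ) 𝓘(ℂ, ℂ) ω (fun P => chartZero (f P)) s :=
  (contMDiffOn_of_mem_maximalAtlas chartZero_mem).comp hf.contMDiffOn
    fun P hP => mem_zero_source (hs P hP)

lemma inf_smooth {f : F0 → P1} (hf : ContMDiff 𝓘(ℂ, ℂ × ℂ) 𝓘(ℂ, ℂ) ω f) {s : Set F0}
    (hs : ∀ P ∈ s, inversion (f P) ≠ inf) :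
    ContMDiffOn 𝓘(ℂ, ℂ × ℂ) 𝓘(ℂ, ℂ) ω (fun P => chartInf (f P)) s :=
  (contMDiffOn_of_mem_maximalAtlas chartInf_mem).comp hf.contMDiffOn
    fun P hP => mem_inf_source (hs P hP)

lemma gg_smooth (j : Fin 5) : ContMDiffOn 𝓘(ℂ, ℂ × ℂ) 𝓘(ℂ, C2) ω (gg j) (UU j) := by
  rw [contMDiffOn_pi_space]
  intro k
  fin_cases j
  · fin_cases k
    · exact zero_smooth fst_smooth fun P hP => hP.1
    · exact zero_smooth snd_smooth fun P hP => hP.2
  · fin_cases k
    · exact zero_smooth snd_smooth fun P hP => hP.2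
    · exact inf_smooth fst_smooth fun P hP => hP.1
  · exact contMDiffOn_const
  · exact contMDiffOn_const
  · fin_cases k
    · exact inf_smooth snd_smooth fun P hP => hP.2
    · exact zero_smooth fst_smooth fun P hP => hP.1

lemma sgm_smooth : ContMDiffOn 𝓘(ℂ, ℂ × ℂ) 𝓘(ℂ, C2) ω sgm {((inf, inf) : F0)}ᶜ := by
  intro P hP
  obtain ⟨j, hj⟩ := exists_UU hP
  have h1 : ContMDiffAt 𝓘(ℂ, ℂ × ℂ) 𝓘(ℂ, C2) ω (gg j) P :=
    (gg_smooth j).contMDiffAt ((isOpen_UU j).mem_nhds hj)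
  have h2 : ContMDiff 𝓘(ℂ, C2) 𝓘(ℂ, C2) ω (sec j) := by
    rw [← contMDiffOn_univ]
    exact contMDiffOn_symm_of_mem_maximalAtlas (ch_mem j)
  have h3 : ContMDiffAt 𝓘(ℂ, ℂ × ℂ) 𝓘(ℂ, C2) ω (sec j ∘ gg j) P := (h2 _).comp P h1
  refine (h3.congr_of_eventuallyEq ?_).contMDiffWithinAt
  filter_upwards [(isOpen_UU j).mem_nhds hj] with Q hQ
  exact sgm_eq hQ

/-- the chart of `ℙ¹ × ℙ¹` at `(∞, ∞)` -/
noncomputable def cI : OpenPartialHomeomorph F0 (ℂ × ℂ) := chartInf.prod chartInf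

lemma cI_mem : cI ∈ IsManifold.maximalAtlas 𝓘(ℂ, ℂ × ℂ) ω F0 := by
  refine IsManifold.subset_maximalAtlas ?_
  exact mem_image2_of_mem (Or.inr rfl : chartInf ∈ atlas ℂ P1) (Or.inr rfl : chartInf ∈ atlas ℂ P1)

lemma cI_target : cI.target = univ := by
  unfold cI
  rw [OpenPartialHomeomorph.prod_target, chartInf_target, univ_prod_univ]

lemma cI_source (P : F0) : P ∈ cI.source ↔ inversion P.1 ≠ inf ∧ inversion P.2 ≠ inf := by
  have h : ∀ x : P1, x ∈ chartInf.source ↔ inversion x ≠ inf := by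
    intro x
    refine ⟨fun hx => ?_, mem_inf_source⟩
    rw [P1.mem_chartInf_source] at hx
    obtain ⟨z, hz⟩ := hx
    rw [← hz]
    exact P1.coe_ne_inf z
  unfold cI
  rw [OpenPartialHomeomorph.prod_source, mem_prod, h, h]

lemma cI_symm (z : ℂ × ℂ) : cI.symm z = (inversion (coe z.1), inversion (coe z.2)) := by
  have : cI.symm z = (chartInf.symm z.1, chartInf.symm z.2) := rfl
  rw [this, P1.chartInf_symm, P1.chartInf_symm]

lemma beta_mem_cI (x : Surf) : beta x ∈ cI.source ↔ domS 3 x ∨ domS 2 x := by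
  obtain ⟨⟨Z, hZ⟩, rfl⟩ := proj_surj x
  rw [beta_proj, cI_source]
  obtain ⟨s1, s2, s3, s4, s5⟩ := hZ
  constructor
  · rintro ⟨h1, h2⟩
    have a : Z 0 ≠ 0 := by
      intro h0
      rcases inv_rat_ne h1 with h | h
      · exact h h0
      · rcases mul_eq_zero.1 h with h | h <;> tauto
    have b : Z 1 ≠ 0 := by
      intro h0
      rcases inv_rat_ne h2 with h | h
      · exact h h0
      · rcases mul_eq_zero.1 h with h | h <;> tauto
    rcases s3 with h | h
    · exact Or.inl ⟨a, b, h⟩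
    · exact Or.inr ⟨h, a, b⟩
  · intro h
    have hn : ∀ z : ℂ, inversion (inversion (coe z)) ≠ inf := fun z => by
      rw [P1.inversion_inversion]
      exact P1.coe_ne_inf z
    rcases h with h | h
    · rw [betaC_eq (j := 3) h]
      exact ⟨hn _, hn _⟩
    · rw [betaC_eq (j := 2) h]
      exact ⟨hn _, hn _⟩

lemma glue (x y : C2) : sec 3 x = sec 2 y ↔ y 0 * x 1 = 1 ∧ y 1 = x 0 * x 1 := by
  have hd : domS 2 (sec 3 x) ↔ x 1 ≠ 0 := by
    show dom 2 (sig 3 x) ↔ _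
    simp [dom, sig]
  have hq : quoS 2 (sec 3 x) = ![1 / x 1, x 0 * x 1] := by
    show quo 2 (sig 3 x) = _
    funext k
    fin_cases k <;> simp [quo, sig]
  constructor
  · intro h
    have h1 : domS 2 (sec 3 x) := by rw [h]; exact domS_sec 2 y
    have h2 := hd.1 h1
    have h3 : quoS 2 (sec 3 x) = y := by rw [h, quoS_sec]
    rw [hq] at h3
    rw [← h3]
    refine ⟨?_, rfl⟩
    show 1 / x 1 * x 1 = 1
    exact one_div_mul_cancel h2
  · rintro ⟨h1, h2⟩
    have h3 : x 1 ≠ 0 := right_ne_zero_of_mul (by rw [h1]; exact one_ne_zero)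
    have h4 := sec_quoS (hd.2 h3)
    rw [← h4, hq]
    congr 1
    funext k
    fin_cases k
    · show 1 / x 1 = y 0
      rw [div_eq_iff h3, h1]
    · exact h2.symm

theorem isBlowUp_beta : IsBlowUp beta ((inf, inf) : F0) where
  holomorphic := beta_smooth
  biholomorphic := by
    refine ⟨sgm, sgm_smooth, fun P hP => ?_, fun x hx => ?_⟩
    · obtain ⟨j, hj⟩ := exists_UU hP
      rw [sgm_eq hj, beta_sec, FF_gg hj]
    · obtain ⟨j, hj⟩ := exists_UU hx
      have hd := domS_of_mem hj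
      rw [sgm_eq hj, beta_eq hd, gg_FF (mem_UU_index hj), sec_quoS hd]
  local_model := by
    refine ⟨cI, cI_mem, ch 3, ch_mem 3, ch 2, ch_mem 2, ?_, ?_, ?_, ?_, ?_, ?_, ?_, ?_⟩
    · rw [cI_source, P1.inversion_inf]
      exact ⟨P1.coe_ne_inf 0, P1.coe_ne_inf 0⟩
    · show (chartInf inf, chartInf inf) = ((0 : ℂ), (0 : ℂ))
      rw [P1.chartInf_apply, P1.inversion_inf, P1.chartZero_coe]
    · ext x
      exact beta_mem_cI x
    · rw [cI_target, ch_target]
      rfl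
    · rw [cI_target, ch_target]
      rfl
    · intro x _
      rw [ch_symm, beta_sec, cI_symm]
      rfl
    · intro x _
      rw [ch_symm, beta_sec, cI_symm]
      rfl
    · intro x _ y _
      rw [ch_symm, ch_symm]
      exact glue x y

end Pool.Agent.N150.HS
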