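import Pool.Agent.N150.HS.Toric

/-! # The metrics of the charts -/

set_option autoImplicit false
set_option linter.unusedSectionVars false
set_option linter.deprecated false

open scoped ContDiff Topology ComplexConjugate
open Complex Set Filter

namespace Pool.Agent.N150.HS

lemma line_holo (W X : C5) : ContDiff ℂ ω (line W X) := by
  refine contDiff_pi.2 fun k => ?_
  unfold line
  fun_prop

lemma phi_quo {j : Fin 5} {Z : C5} (h : dom j Z) :
    phi j (quo j Z) = (Psi Z : ℂ) + ((2 * Real.log (normSq (lam j Z 0)) +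
      2 * Real.log (normSq (lam j Z 1)) + 3 * Real.log (normSq (lam j Z 2)) : ℝ) : ℂ) := by
  unfold phi
  rw [← act_lam h, Psi_act (lam_ne h) (dom_stable h)]
  push_cast
  rfl

/-- composition of the potential with the quotient map, along a holomorphic disc in `ℂ⁵` -/
lemma LL_phi_quo (j : Fin 5) {U : Set ℂ} (hU : IsOpen U) {Γ : ℂ → C5}
    (hΓ : ContDiffOn ℂ ω Γ U) (hd : ∀ s ∈ U, dom j (Γ s)) :
    EqOn (LL (fun s => phi j (quo j (Γ s)))) (LL (fun s => (Psi (Γ s) : ℂ))) U := by
  refine LL_add_log (μ := fun s => lam j (Γ s)) hU (fun i => ?_) (fun s hs i => lam_ne (hd s hs) i)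
    ?_ fun s hs => phi_quo (hd s hs)
  · exact ((lam_smooth j i).comp hΓ hd).differentiableOn (by simp)
  · have h1 : ContDiffOn ℝ ω (fun s => Psi (Γ s)) U :=
      smooth_Psi.comp (hΓ.restrict_scalars ℝ) fun s hs => dom_stable (hd s hs)
    exact ofRealCLM.contDiff.comp_contDiffOn (h1.of_le (by simp))

lemma exists_disc (j : Fin 5) (p v : C2) (hv : v ≠ 0) :
    ∃ (U : Set ℂ) (γ : ℂ → C2), IsOpen U ∧ (0 : ℂ) ∈ U ∧
      (∀ i, DifferentiableOn ℂ (fun s => γ s i) U) ∧ γ 0 = p ∧
      v = (fun i => deriv (fun s => γ s i) 0) ∧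
      0 < (LL (fun s => phi j (γ s)) 0).re ∧ (LL (LL (fun s => phi j (γ s))) 0).re < 0 := by
  obtain ⟨W, hWd⟩ : ∃ W, W = sig j p := ⟨_, rfl⟩
  have hW : Stable W := by rw [hWd]; exact stable_sig j p
  obtain ⟨l0, l1, l2, hX⟩ := exists_hor hW (dsig j v) rfl rfl
  obtain ⟨X, hXd⟩ : ∃ X, X = vert (dsig j v) W l0 l1 l2 := ⟨_, rfl⟩
  obtain ⟨o1, o2, o3⟩ := hX X hXd
  have hder : ∀ k, HasDerivAt (fun s : ℂ => quo j (line W X s) k) (v k) 0 := by
    intro k
    rw [hXd, hWd]
    exact deriv_quo j p v l0 l1 l2 k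
  have hX0 : X ≠ 0 := by
    intro h
    apply hv
    funext k
    have h1 := hder k
    have h2 : (fun s : ℂ => quo j (line W X s) k) = fun _ => quo j W k := by
      funext s
      have : line W X s = W := by
        rw [h]; funext k; simp [line]
      rw [this]
    rw [h2] at h1
    exact h1.unique (hasDerivAt_const _ _)
  have hU : IsOpen {s | dom j (line W X s)} := (isOpen_dom j).preimage (line_cont W X)
  have h0 : (0 : ℂ) ∈ {s | dom j (line W X s)} := by
    show dom j (line W X 0)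
    rw [line_zero, hWd]
    exact dom_sig j p
  have hΓ : ContDiffOn ℂ ω (line W X) {s | dom j (line W X s)} := (line_holo W X).contDiffOn
  have hquo : ContDiffOn ℂ ω (fun s => quo j (line W X s)) {s | dom j (line W X s)} :=
    (quo_smooth j).comp hΓ fun s hs => hs
  have e1 : EqOn (LL (fun s => phi j (quo j (line W X s)))) (LL (psiL W X))
    {s | dom j (line W X s)} := LL_phi_quo j hU hΓ fun s hs => hs
  obtain ⟨m1, m2⟩ := line_main hW hX0 rfl rfl o1 o2 o3
  refine ⟨_, fun s => quo j (line W X s), hU, h0, fun i => ?_, ?_, ?_, ?_, ?_⟩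
  · exact (contDiffOn_pi.1 hquo i).differentiableOn (by simp)
  · show quo j (line W X 0) = p
    rw [line_zero, hWd, quo_sig]
  · funext k
    exact (hder k).deriv.symm
  · rw [e1 h0]
    exact m1
  · rw [LL_eqOn hU e1 h0]
    exact m2

theorem phi_pos (j : Fin 5) (p v : C2) (hv : v ≠ 0) : 0 < (herm (levi (phi j) p) v v).re := by
  obtain ⟨U, γ, hU, h0, hγ, h1, h2, h3, -⟩ := exists_disc j p v hv
  have h4 := del_delb_disc hU hγ h0 (phi_smooth j)
  rw [← h2, h1] at h4
  rw [← h4]
  exact h3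

theorem phi_curv (j : Fin 5) (p v : C2) (hv : v ≠ 0) :
    0 < (∑ i, ∑ k, ∑ l, ∑ m, curvature (levi (phi j)) p i k l m * v i * conj (v k) * v l *
      conj (v m)).re := by
  obtain ⟨U, γ, hU, h0, hγ, h1, h2, -, h3⟩ := exists_disc j p v hv
  have h4 := curv_ge (phi_smooth j) (phi_real j) hU hγ h0
    (fun v hv => by rw [h1]; exact phi_pos j p v hv) h2
  rw [h1] at h4
  linarith

theorem phi_hsc (j : Fin 5) (p v : C2) (hv : v ≠ 0) : 0 < hsc (levi (phi j)) p v := by
  unfold hsc
  exact div_pos (phi_curv j p v hv) (by have := phi_pos j p v hv; positivity)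

/-! ### The changes of charts are isometries -/

/-- the change of charts -/
noncomputable def trans (i j : Fin 5) (p : C2) : C2 := quo j (sig i p)

lemma herm_polar (M : Matrix (Fin 2) (Fin 2) ℂ) (v w : C2) :
    4 * herm M v w = herm M (v + w) (v + w) - herm M (v - w) (v - w) +
      I * herm M (v + I • w) (v + I • w) - I * herm M (v - I • w) (v - I • w) := by
  unfold herm
  simp only [Fin.sum_univ_two, Pi.add_apply, Pi.sub_apply, Pi.smul_apply, smul_eq_mul, map_add,
    map_sub, map_mul, conj_I]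
  have hI : I * I = -1 := I_mul_I
  ring_nf
  simp only [I_sq]
  ring

lemma iso_diag {i j : Fin 5} {p : C2} (hp : dom j (sig i p)) (v : C2) :
    herm (levi (phi i) p) v v = herm (levi (phi j) (trans i j p))
      (fderiv ℂ (trans i j) p v) (fderiv ℂ (trans i j) p v) := by
  obtain ⟨γ, hγ⟩ : ∃ γ : ℂ → C2, γ = fun s => p + s • v := ⟨_, rfl⟩
  have sγ : ContDiff ℂ ω γ := by rw [hγ]; fun_prop
  have γ0 : γ 0 = p := by rw [hγ]; simp
  have dγ : HasDerivAt γ v 0 := by
    rw [hγ]
    simpa using ((hasDerivAt_id (0 : ℂ)).smul_const v).const_add p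
  have sΓ : ContDiff ℂ ω (fun s => sig i (γ s)) := (sig_smooth i).comp sγ
  have hU : IsOpen {s | dom j (sig i (γ s))} := (isOpen_dom j).preimage sΓ.continuous
  have h0 : (0 : ℂ) ∈ {s | dom j (sig i (γ s))} := by
    show dom j (sig i (γ 0))
    rw [γ0]
    exact hp
  have hΓ : ContDiffOn ℂ ω (fun s => sig i (γ s)) {s | dom j (sig i (γ s))} := sΓ.contDiffOn
  have e1 := LL_phi_quo j hU hΓ fun s hs => hs
  have e2 : (fun s => (Psi (sig i (γ s)) : ℂ)) = fun s => phi i (γ s) := rfl
  rw [e2] at e1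
  have s1 : ∀ k, DifferentiableOn ℂ (fun s => γ s k) {s | dom j (sig i (γ s))} := fun k =>
    (contDiff_pi.1 sγ k).contDiffOn.differentiableOn (by simp)
  have s2 : ContDiffOn ℂ ω (fun s => quo j (sig i (γ s))) {s | dom j (sig i (γ s))} :=
    (quo_smooth j).comp hΓ fun s hs => hs
  have s3 : ∀ k, DifferentiableOn ℂ (fun s => quo j (sig i (γ s)) k)
      {s | dom j (sig i (γ s))} := fun k => (contDiffOn_pi.1 s2 k).differentiableOn (by simp)
  have d1 := del_delb_disc hU s1 h0 (phi_smooth i)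
  have d2 := del_delb_disc (γ := fun s => quo j (sig i (γ s))) hU s3 h0 (phi_smooth j)
  have ht : DifferentiableAt ℂ (trans i j) p := by
    have : ContDiffOn ℂ ω (trans i j) {p | dom j (sig i p)} :=
      (quo_smooth j).comp (sig_smooth i).contDiffOn fun p hp => hp
    exact (this.contDiffAt (((isOpen_dom j).preimage
      (sig_smooth i).continuous).mem_nhds hp)).differentiableAt (by simp)
  have dt : HasDerivAt (fun s => trans i j (γ s)) (fderiv ℂ (trans i j) p v) 0 := by
    have h5 : HasFDerivAt (trans i j) (fderiv ℂ (trans i j) p) (γ 0) := by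
      rw [γ0]; exact ht.hasFDerivAt
    exact h5.comp_hasDerivAt 0 dγ
  have v1 : (fun k => deriv (fun s => γ s k) 0) = v := by
    funext k
    exact ((hasDerivAt_pi.1 dγ) k).deriv
  have v2 : (fun k => deriv (fun s => quo j (sig i (γ s)) k) 0) = fderiv ℂ (trans i j) p v := by
    funext k
    exact ((hasDerivAt_pi.1 dt) k).deriv
  rw [v1, γ0] at d1
  rw [v2, γ0] at d2
  rw [← d1]
  refine Eq.trans ?_ d2
  exact (e1 h0).symm

lemma iso_all {i j : Fin 5} {p : C2} (hp : dom j (sig i p)) (v w : C2) :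
    herm (levi (phi i) p) v w = herm (levi (phi j) (trans i j p))
      (fderiv ℂ (trans i j) p v) (fderiv ℂ (trans i j) p w) := by
  have h4 : (4 : ℂ) ≠ 0 := by norm_num
  apply mul_left_cancel₀ h4
  rw [herm_polar, herm_polar, iso_diag hp (v + w), iso_diag hp (v - w), iso_diag hp (v + I • w),
    iso_diag hp (v - I • w)]
  simp only [map_add, map_sub, map_smul]

end Pool.Agent.N150.HS
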