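import Pool.Agent.N150.HS.Wirt

/-! # The derivatives along a horizontal line -/

set_option autoImplicit false
set_option linter.unusedSectionVars false
set_option linter.deprecated false

open scoped ContDiff Topology ComplexConjugate
open Complex Set Filter

namespace Pool.Agent.N150.HS

/-- smooth functions on `U` -/
abbrev Sm (U : Set ℂ) (f : ℂ → ℂ) : Prop := ContDiffOn ℝ ∞ f U

variable {U : Set ℂ} {f g : ℂ → ℂ} {s : ℂ}

lemma Sm.d (hU : IsOpen U) (hf : Sm U f) : Sm U (del 1 f) := smooth_del hU hf 1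
lemma Sm.b (hU : IsOpen U) (hf : Sm U f) : Sm U (delb 1 f) := smooth_delb hU hf 1
lemma Sm.m (hf : Sm U f) (hg : Sm U g) : Sm U (fun s => f s * g s) := hf.mul hg
lemma Sm.a (hf : Sm U f) (hg : Sm U g) : Sm U (fun s => f s + g s) := hf.add hg
lemma Sm.at (hU : IsOpen U) (hf : Sm U f) (hs : s ∈ U) : DifferentiableAt ℝ f s :=
  smooth_diff hU hf hs

/-- the operator `∂ ∂̄` -/
noncomputable abbrev LL (f : ℂ → ℂ) : ℂ → ℂ := del (1 : ℂ) (delb (1 : ℂ) f)

lemma LL_eqOn (hU : IsOpen U) (h : EqOn f g U) : EqOn (LL f) (LL g) U :=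
  del_eqOn hU 1 (delb_eqOn hU 1 h)

lemma Sm.l (hU : IsOpen U) (hf : Sm U f) : Sm U (LL f) := (hf.b hU).d hU

lemma d_mul_on (hU : IsOpen U) (hf : Sm U f) (hg : Sm U g) :
    EqOn (del 1 (fun s => f s * g s)) (fun s => f s * del 1 g s + g s * del 1 f s) U :=
  fun _ hs => del_mul 1 (hf.at hU hs) (hg.at hU hs)

lemma b_mul_on (hU : IsOpen U) (hf : Sm U f) (hg : Sm U g) :
    EqOn (delb 1 (fun s => f s * g s)) (fun s => f s * delb 1 g s + g s * delb 1 f s) U :=
  fun _ hs => delb_mul 1 (hf.at hU hs) (hg.at hU hs)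

lemma LL_mul (hU : IsOpen U) (hf : Sm U f) (hg : Sm U g) (hs : s ∈ U) :
    LL (fun s => f s * g s) s = f s * LL g s + g s * LL f s + del 1 f s * delb 1 g s +
      delb 1 f s * del 1 g s := by
  change del 1 (delb 1 (fun s => f s * g s)) s = _
  rw [del_eqOn hU 1 (b_mul_on hU hf hg) hs,
    del_add 1 ((hf.m (hg.b hU)).at hU hs) ((hg.m (hf.b hU)).at hU hs),
    del_mul 1 (hf.at hU hs) ((hg.b hU).at hU hs), del_mul 1 (hg.at hU hs) ((hf.b hU).at hU hs)]
  ring

lemma LL_add (hU : IsOpen U) (hf : Sm U f) (hg : Sm U g) (hs : s ∈ U) :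
    LL (fun s => f s + g s) s = LL f s + LL g s := by
  have e : EqOn (delb 1 (fun s => f s + g s)) (fun s => delb 1 f s + delb 1 g s) U :=
    fun _ hs => delb_add 1 (hf.at hU hs) (hg.at hU hs)
  change del 1 (delb 1 (fun s => f s + g s)) s = _
  rw [del_eqOn hU 1 e hs, del_add 1 ((hf.b hU).at hU hs) ((hg.b hU).at hU hs)]

lemma LL_const (c : ℂ) (s : ℂ) : LL (fun _ => c) s = 0 := by
  have : delb (1 : ℂ) (fun _ => c) = fun _ => 0 := by
    funext x; exact delb_const _ _ _
  change del 1 (delb 1 (fun _ => c)) s = 0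
  rw [this, del_const]

/-! ### Affine functions -/

lemma aff_diff (w x s : ℂ) : DifferentiableAt ℂ (fun s : ℂ => w + s * x) s := by fun_prop

lemma aff_fderiv (w x s : ℂ) : fderiv ℂ (fun s : ℂ => w + s * x) s 1 = x := by
  have h : HasDerivAt (fun s : ℂ => w + s * x) x s := by
    simpa using ((hasDerivAt_id s).mul_const x).const_add w
  rw [fderiv_apply_one_eq_deriv, h.deriv]

lemma aff_sm (w x : ℂ) : Sm U (fun s : ℂ => w + s * x) := by
  have : ContDiff ℂ ω (fun s : ℂ => w + s * x) := by fun_prop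
  exact ((this.restrict_scalars ℝ).of_le (by simp)).contDiffOn

lemma affc_sm (w x : ℂ) : Sm U (fun s : ℂ => conj (w + s * x)) :=
  (conjCLE : ℂ →L[ℝ] ℂ).contDiff.comp_contDiffOn (aff_sm w x)

lemma d_aff (w x s : ℂ) : del (1 : ℂ) (fun s : ℂ => w + s * x) s = x := by
  rw [del_of_holo 1 (aff_diff w x s), aff_fderiv]

lemma b_aff (w x s : ℂ) : delb (1 : ℂ) (fun s : ℂ => w + s * x) s = 0 :=
  delb_of_holo 1 (aff_diff w x s)

lemma d_affc (w x s : ℂ) : del (1 : ℂ) (fun s : ℂ => conj (w + s * x)) s = 0 :=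
  del_conj_of_holo 1 (aff_diff w x s)

lemma b_affc (w x s : ℂ) : delb (1 : ℂ) (fun s : ℂ => conj (w + s * x)) s = conj x := by
  rw [delb_conj_of_holo 1 (aff_diff w x s), aff_fderiv]

lemma LL_aff (w x s : ℂ) : LL (fun s : ℂ => w + s * x) s = 0 := by
  have : delb (1 : ℂ) (fun s : ℂ => w + s * x) = fun _ => 0 := by
    funext y; exact b_aff _ _ _
  change del 1 (delb 1 (fun s : ℂ => w + s * x)) s = 0
  rw [this, del_const]

lemma LL_affc (w x s : ℂ) : LL (fun s : ℂ => conj (w + s * x)) s = 0 := by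
  have : delb (1 : ℂ) (fun s : ℂ => conj (w + s * x)) = fun _ => conj x := by
    funext y; exact b_affc _ _ _
  change del 1 (delb 1 (fun s : ℂ => conj (w + s * x))) s = 0
  rw [this, del_const]

/-- the square of the absolute value of an affine function -/
noncomputable def Hf (w x : ℂ) (s : ℂ) : ℂ := (w + s * x) * conj (w + s * x)

lemma Hf_sm (w x : ℂ) : Sm U (Hf w x) := (aff_sm w x).m (affc_sm w x)

lemma d_Hf (w x s : ℂ) : del (1 : ℂ) (Hf w x) s = x * conj (w + s * x) := by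
  have := del_mul (1 : ℂ) ((aff_sm (U := univ) w x).at isOpen_univ (mem_univ s))
    ((affc_sm (U := univ) w x).at isOpen_univ (mem_univ s))
  change del (1 : ℂ) (fun s => (w + s * x) * conj (w + s * x)) s = _
  rw [this, d_aff, d_affc]
  ring

lemma b_Hf (w x s : ℂ) : delb (1 : ℂ) (Hf w x) s = (w + s * x) * conj x := by
  have := delb_mul (1 : ℂ) ((aff_sm (U := univ) w x).at isOpen_univ (mem_univ s))
    ((affc_sm (U := univ) w x).at isOpen_univ (mem_univ s))
  change delb (1 : ℂ) (fun s => (w + s * x) * conj (w + s * x)) s = _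
  rw [this, b_aff, b_affc]
  ring

lemma LL_Hf (w x s : ℂ) : LL (Hf w x) s = x * conj x := by
  have := LL_mul isOpen_univ (aff_sm (U := univ) w x) (affc_sm (U := univ) w x) (mem_univ s)
  change LL (fun s => (w + s * x) * conj (w + s * x)) s = _
  rw [this, d_aff, d_affc, b_aff, b_affc, LL_aff, LL_affc]
  ring

/-- `∂ ∂̄ ∂ (f h)` for an affine function `h` -/
lemma third_mul_aff (hU : IsOpen U) (hf : Sm U f) (c w x : ℂ) (hs : s ∈ U) :
    LL (del 1 (fun s => f s * (c * (w + s * x)))) s =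
      LL (del 1 f) s * (c * (w + s * x)) + 2 * LL f s * (c * x) := by
  have ha : Sm U (fun s : ℂ => c * (w + s * x)) := contDiffOn_const.mul (aff_sm w x)
  have e0 : ∀ s, del (1 : ℂ) (fun s : ℂ => c * (w + s * x)) s = c * x := fun s => by
    rw [del_const_mul 1 c ((aff_sm (U := univ) w x).at isOpen_univ (mem_univ s)), d_aff]
  have e0' : ∀ s, delb (1 : ℂ) (fun s : ℂ => c * (w + s * x)) s = 0 := fun s => by
    rw [delb_const_mul 1 c ((aff_sm (U := univ) w x).at isOpen_univ (mem_univ s)), b_aff, mul_zero]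
  have e0'' : LL (fun s : ℂ => c * (w + s * x)) s = 0 := by
    have : delb (1 : ℂ) (fun s : ℂ => c * (w + s * x)) = fun _ => 0 := funext e0'
    change del 1 (delb 1 (fun s : ℂ => c * (w + s * x))) s = 0
    rw [this, del_const]
  have e1 : EqOn (del 1 (fun s => f s * (c * (w + s * x))))
      (fun s => f s * (c * x) + (c * (w + s * x)) * del 1 f s) U := by
    intro y hy
    change del 1 (fun s => f s * (c * (w + s * x))) y = f y * (c * x) + (c * (w + y * x)) * del 1 f y
    rw [del_mul 1 (hf.at hU hy) (ha.at hU hy), e0]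
  rw [LL_eqOn hU e1 hs]
  have hc : Sm U (fun _ : ℂ => c * x) := contDiffOn_const
  rw [LL_add hU (hf.m hc) (ha.m (hf.d hU)) hs, LL_mul hU hf hc hs, LL_mul hU ha (hf.d hU) hs,
    LL_const, del_const, delb_const, e0, e0', e0'']
  have e2 : delb 1 (del 1 f) s = LL f s := (del_delb hU hf hs 1 1).symm
  rw [e2]
  ring

/-- `∂ ∂̄ ∂ (f g)` at a critical point of `f` and `g` -/
lemma third_mul (hU : IsOpen U) (hf : Sm U f) (hg : Sm U g) (hs : s ∈ U)
    (f1 : del 1 f s = 0) (f2 : delb 1 f s = 0) (g1 : del 1 g s = 0) (g2 : delb 1 g s = 0) :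
    LL (del 1 (fun s => f s * g s)) s = f s * LL (del 1 g) s + g s * LL (del 1 f) s := by
  rw [LL_eqOn hU (d_mul_on hU hf hg) hs, LL_add hU (hf.m (hg.d hU)) (hg.m (hf.d hU)) hs,
    LL_mul hU hf (hg.d hU) hs, LL_mul hU hg (hf.d hU) hs, f1, f2, g1, g2]
  ring

end Pool.Agent.N150.HS
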