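import Mathlib
import Pool.Agent.H194R3.Cartan.P1

/-!
# Blow-ups of complex surfaces, Kähler metrics, holomorphic sectional curvature: definitions

The complex surfaces are complex manifolds in the sense of Mathlib, with charts into `ℂ²` and complex
analytic changes of charts.
-/

set_option autoImplicit false

open scoped Manifold ContDiff Topology ComplexConjugate
open Complex Set

namespace Pool.Agent.N150.HS

/-- The space `ℂ²` of the coordinates. -/
abbrev C2 : Type := Fin 2 → ℂ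

/-- The complex surface `ℙ¹ × ℙ¹`, where `ℙ¹ = ℂ ∪ {∞}`. This is the Hirzebruch surface
`F₀ = ℙ(O ⊕ O)`. -/
abbrev F0 : Type := Pool.Agent.H194R3.Cartan.P1 × Pool.Agent.H194R3.Cartan.P1

/-- The charts of `ℙ¹ × ℙ¹` are the products of the charts of `ℙ¹`. -/
noncomputable instance : ChartedSpace (ℂ × ℂ) F0 :=
  prodChartedSpace ℂ Pool.Agent.H194R3.Cartan.P1 ℂ Pool.Agent.H194R3.Cartan.P1

/-! ### Blow-ups -/

/-- The map `β : X → Y` of complex surfaces is the blow-up of `Y` at the point `p`: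
* `β` is holomorphic, and it is biholomorphic over `Y \ {p}` (with inverse `σ`);
* there are a holomorphic chart `c` of `Y` centred at `p` and two holomorphic charts `c₁`, `c₂` of `X`,
  which cover the inverse image of the domain of `c`, in which `β` is `(s, t) ↦ (s, s t)` and
  `(s, t) ↦ (s t, t)`, respectively, and the charts `c₁` and `c₂` are glued in the usual way. -/
structure IsBlowUp {X Y : Type} [TopologicalSpace X] [ChartedSpace C2 X] [TopologicalSpace Y]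
    [ChartedSpace (ℂ × ℂ) Y] (β : X → Y) (p : Y) : Prop where
  holomorphic : ContMDiff 𝓘(ℂ, C2) 𝓘(ℂ, ℂ × ℂ) ω β
  biholomorphic : ∃ σ : Y → X, ContMDiffOn 𝓘(ℂ, ℂ × ℂ) 𝓘(ℂ, C2) ω σ {p}ᶜ ∧
    (∀ y, y ≠ p → β (σ y) = y) ∧ ∀ x, β x ≠ p → σ (β x) = x
  local_model : ∃ c ∈ IsManifold.maximalAtlas 𝓘(ℂ, ℂ × ℂ) ω Y,
    ∃ c₁ ∈ IsManifold.maximalAtlas 𝓘(ℂ, C2) ω X, ∃ c₂ ∈ IsManifold.maximalAtlas 𝓘(ℂ, C2) ω X,
      p ∈ c.source ∧ c p = (0, 0) ∧ β ⁻¹' c.source = c₁.source ∪ c₂.source ∧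
      c₁.target = {x | (x 0, x 0 * x 1) ∈ c.target} ∧
      c₂.target = {x | (x 0 * x 1, x 1) ∈ c.target} ∧
      (∀ x ∈ c₁.target, β (c₁.symm x) = c.symm (x 0, x 0 * x 1)) ∧
      (∀ x ∈ c₂.target, β (c₂.symm x) = c.symm (x 0 * x 1, x 1)) ∧
      ∀ x ∈ c₁.target, ∀ y ∈ c₂.target, c₁.symm x = c₂.symm y ↔ y 0 * x 1 = 1 ∧ y 1 = x 0 * x 1

/-! ### Kähler metrics and their curvature -/

/-- The derivative `∂f/∂z_k`. -/
noncomputable def dz (k : Fin 2) (f : C2 → ℂ) (z : C2) : ℂ :=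
  (fderiv ℝ f z (Pi.single k 1) - I * fderiv ℝ f z (Pi.single k I)) / 2

/-- The derivative `∂f/∂z̄_k`. -/
noncomputable def dzbar (k : Fin 2) (f : C2 → ℂ) (z : C2) : ℂ :=
  (fderiv ℝ f z (Pi.single k 1) + I * fderiv ℝ f z (Pi.single k I)) / 2

/-- The Hermitian form `∑ g_{i j̄} v_i w̄_j`. -/
noncomputable def herm (g : Matrix (Fin 2) (Fin 2) ℂ) (v w : C2) : ℂ :=
  ∑ i, ∑ j, g i j * v i * conj (w j)

/-- A Kähler metric on the complex surface `X`, given by its components `g e z i j = g_{i j̄}(z)` in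
the charts `e` of `X`: the components are smooth, form positive definite Hermitian matrices, satisfy
the Kähler condition `∂g_{i j̄}/∂z_k = ∂g_{k j̄}/∂z_i`, and a change of charts is an isometry. -/
structure KahlerMetric (X : Type) [TopologicalSpace X] [ChartedSpace C2 X] where
  /-- the components -/
  g : OpenPartialHomeomorph X C2 → C2 → Matrix (Fin 2) (Fin 2) ℂ
  smooth : ∀ e ∈ atlas C2 X, ∀ i j, ContDiffOn ℝ ∞ (fun z => g e z i j) e.target
  hermitian : ∀ e ∈ atlas C2 X, ∀ z ∈ e.target, ∀ i j, g e z j i = conj (g e z i j)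
  positive : ∀ e ∈ atlas C2 X, ∀ z ∈ e.target, ∀ v, v ≠ 0 → 0 < (herm (g e z) v v).re
  kahler : ∀ e ∈ atlas C2 X, ∀ z ∈ e.target, ∀ i j k,
    dz k (fun w => g e w i j) z = dz i (fun w => g e w k j) z
  isometry : ∀ e ∈ atlas C2 X, ∀ e' ∈ atlas C2 X, ∀ z ∈ e.target, e.symm z ∈ e'.source →
    ∀ v w, herm (g e z) v w = herm (g e' (e' (e.symm z)))
      (fderiv ℂ (fun x => e' (e.symm x)) z v) (fderiv ℂ (fun x => e' (e.symm x)) z w)

/-- The curvature tensor
`R_{i j̄ k l̄} = -∂²g_{i j̄}/∂z_k∂z̄_l + ∑ g^{q̄ p} (∂g_{i q̄}/∂z_k) (∂g_{p j̄}/∂z̄_l)` at the point `z`. -/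
noncomputable def curvature (g : C2 → Matrix (Fin 2) (Fin 2) ℂ) (z : C2) (i j k l : Fin 2) : ℂ :=
  -dz k (fun w => dzbar l (fun u => g u i j) w) z +
    ∑ p, ∑ q, (g z)⁻¹ q p * dz k (fun w => g w i q) z * dzbar l (fun w => g w p j) z

/-- The holomorphic sectional curvature `R(v, v̄, v, v̄) / g(v, v̄)²` at the point `z`. -/
noncomputable def hsc (g : C2 → Matrix (Fin 2) (Fin 2) ℂ) (z v : C2) : ℝ :=
  (∑ i, ∑ j, ∑ k, ∑ l, curvature g z i j k l * v i * conj (v j) * v k * conj (v l)).re /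
    (herm (g z) v v).re ^ 2

/-- The Kähler metric has positive holomorphic sectional curvature. -/
def KahlerMetric.PositiveHSC {X : Type} [TopologicalSpace X] [ChartedSpace C2 X]
    (g : KahlerMetric X) : Prop :=
  ∀ e ∈ atlas C2 X, ∀ z ∈ e.target, ∀ v : C2, v ≠ 0 → 0 < hsc (g.g e) z v

end Pool.Agent.N150.HS
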