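import Mathlib

/-! # Wirtinger derivatives -/

set_option autoImplicit false
set_option linter.unusedSectionVars false
set_option linter.deprecated false

open scoped ContDiff Topology ComplexConjugate
open Complex Set Filter

namespace Pool.Agent.N150.HS

section general

variable {E : Type*} [NormedAddCommGroup E] [NormedSpace ℝ E] [NormedSpace ℂ E]
  [IsScalarTower ℝ ℂ E]
variable {F : Type*} [NormedAddCommGroup F] [NormedSpace ℝ F] [NormedSpace ℂ F]
  [IsScalarTower ℝ ℂ F]

/-- the derivative of type (1,0) in the direction `v` -/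
noncomputable def del (v : E) (f : E → ℂ) (z : E) : ℂ :=
  (fderiv ℝ f z v - I * fderiv ℝ f z (I • v)) / 2

/-- the derivative of type (0,1) in the direction `v` -/
noncomputable def delb (v : E) (f : E → ℂ) (z : E) : ℂ :=
  (fderiv ℝ f z v + I * fderiv ℝ f z (I • v)) / 2

lemma del_congr {f g : E → ℂ} {z : E} (v : E) (h : f =ᶠ[𝓝 z] g) : del v f z = del v g z := by
  unfold del; rw [h.fderiv_eq]

lemma delb_congr {f g : E → ℂ} {z : E} (v : E) (h : f =ᶠ[𝓝 z] g) : delb v f z = delb v g z := by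
  unfold delb; rw [h.fderiv_eq]

lemma del_eqOn {f g : E → ℂ} {U : Set E} (hU : IsOpen U) (v : E) (h : EqOn f g U) :
    EqOn (del v f) (del v g) U := fun _ hz =>
  del_congr v (h.eventuallyEq_of_mem (hU.mem_nhds hz))

lemma delb_eqOn {f g : E → ℂ} {U : Set E} (hU : IsOpen U) (v : E) (h : EqOn f g U) :
    EqOn (delb v f) (delb v g) U := fun _ hz =>
  delb_congr v (h.eventuallyEq_of_mem (hU.mem_nhds hz))

lemma del_const (v : E) (c : ℂ) (z : E) : del v (fun _ => c) z = 0 := by
  simp [del]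

lemma delb_const (v : E) (c : ℂ) (z : E) : delb v (fun _ => c) z = 0 := by
  simp [delb]

lemma del_add {f g : E → ℂ} {z : E} (v : E) (hf : DifferentiableAt ℝ f z)
    (hg : DifferentiableAt ℝ g z) : del v (fun x => f x + g x) z = del v f z + del v g z := by
  unfold del
  rw [fderiv_fun_add hf hg]
  simp only [ContinuousLinearMap.add_apply]
  ring

lemma delb_add {f g : E → ℂ} {z : E} (v : E) (hf : DifferentiableAt ℝ f z)
    (hg : DifferentiableAt ℝ g z) : delb v (fun x => f x + g x) z = delb v f z + delb v g z := by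
  unfold delb
  rw [fderiv_fun_add hf hg]
  simp only [ContinuousLinearMap.add_apply]
  ring

lemma del_sub {f g : E → ℂ} {z : E} (v : E) (hf : DifferentiableAt ℝ f z)
    (hg : DifferentiableAt ℝ g z) : del v (fun x => f x - g x) z = del v f z - del v g z := by
  unfold del
  rw [fderiv_fun_sub hf hg]
  simp only [ContinuousLinearMap.sub_apply]
  ring

lemma delb_sub {f g : E → ℂ} {z : E} (v : E) (hf : DifferentiableAt ℝ f z)
    (hg : DifferentiableAt ℝ g z) : delb v (fun x => f x - g x) z = delb v f z - delb v g z := by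
  unfold delb
  rw [fderiv_fun_sub hf hg]
  simp only [ContinuousLinearMap.sub_apply]
  ring

lemma del_mul {f g : E → ℂ} {z : E} (v : E) (hf : DifferentiableAt ℝ f z)
    (hg : DifferentiableAt ℝ g z) :
    del v (fun x => f x * g x) z = f z * del v g z + g z * del v f z := by
  unfold del
  rw [fderiv_fun_mul hf hg]
  simp only [ContinuousLinearMap.add_apply, ContinuousLinearMap.smul_apply, smul_eq_mul]
  ring

lemma delb_mul {f g : E → ℂ} {z : E} (v : E) (hf : DifferentiableAt ℝ f z)
    (hg : DifferentiableAt ℝ g z) :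
    delb v (fun x => f x * g x) z = f z * delb v g z + g z * delb v f z := by
  unfold delb
  rw [fderiv_fun_mul hf hg]
  simp only [ContinuousLinearMap.add_apply, ContinuousLinearMap.smul_apply, smul_eq_mul]
  ring

lemma del_const_mul {f : E → ℂ} {z : E} (v : E) (c : ℂ) (hf : DifferentiableAt ℝ f z) :
    del v (fun x => c * f x) z = c * del v f z := by
  rw [del_mul v (differentiableAt_const c) hf, del_const]; ring

lemma delb_const_mul {f : E → ℂ} {z : E} (v : E) (c : ℂ) (hf : DifferentiableAt ℝ f z) :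
    delb v (fun x => c * f x) z = c * delb v f z := by
  rw [delb_mul v (differentiableAt_const c) hf, delb_const]; ring

lemma del_sum {ι : Type*} (s : Finset ι) {f : ι → E → ℂ} {z : E} (v : E)
    (hf : ∀ i ∈ s, DifferentiableAt ℝ (f i) z) :
    del v (fun x => ∑ i ∈ s, f i x) z = ∑ i ∈ s, del v (f i) z := by
  unfold del
  rw [fderiv_fun_sum hf]
  simp only [ContinuousLinearMap.sum_apply, Finset.mul_sum, ← Finset.sum_sub_distrib,
    Finset.sum_div]

lemma delb_sum {ι : Type*} (s : Finset ι) {f : ι → E → ℂ} {z : E} (v : E)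
    (hf : ∀ i ∈ s, DifferentiableAt ℝ (f i) z) :
    delb v (fun x => ∑ i ∈ s, f i x) z = ∑ i ∈ s, delb v (f i) z := by
  unfold delb
  rw [fderiv_fun_sum hf]
  simp only [ContinuousLinearMap.sum_apply, Finset.mul_sum, ← Finset.sum_add_distrib,
    Finset.sum_div]

lemma fderiv_conj {f : E → ℂ} {z : E} (hf : DifferentiableAt ℝ f z) (v : E) :
    fderiv ℝ (fun x => conj (f x)) z v = conj (fderiv ℝ f z v) := by
  have h1 : HasFDerivAt (fun x => conj (f x))
      ((conjCLE : ℂ →L[ℝ] ℂ).comp (fderiv ℝ f z)) z :=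
    (conjCLE : ℂ →L[ℝ] ℂ).hasFDerivAt.comp z hf.hasFDerivAt
  rw [h1.fderiv]
  simp

lemma del_conj {f : E → ℂ} {z : E} (v : E) (hf : DifferentiableAt ℝ f z) :
    del v (fun x => conj (f x)) z = conj (delb v f z) := by
  unfold del delb
  rw [fderiv_conj hf, fderiv_conj hf]
  simp only [map_div₀, map_add, map_mul, conj_I, map_ofNat]
  ring

lemma delb_conj {f : E → ℂ} {z : E} (v : E) (hf : DifferentiableAt ℝ f z) :
    delb v (fun x => conj (f x)) z = conj (del v f z) := by
  unfold del delb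
  rw [fderiv_conj hf, fderiv_conj hf]
  simp only [map_div₀, map_sub, map_mul, conj_I, map_ofNat]
  ring

lemma del_of_holo {f : E → ℂ} {z : E} (v : E) (hf : DifferentiableAt ℂ f z) :
    del v f z = fderiv ℂ f z v := by
  unfold del
  rw [(hf.hasFDerivAt.restrictScalars ℝ).fderiv]
  simp only [ContinuousLinearMap.coe_restrictScalars', map_smul, smul_eq_mul]
  linear_combination (-(fderiv ℂ f z) v / 2) * I_mul_I

lemma delb_of_holo {f : E → ℂ} {z : E} (v : E) (hf : DifferentiableAt ℂ f z) :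
    delb v f z = 0 := by
  unfold delb
  rw [(hf.hasFDerivAt.restrictScalars ℝ).fderiv]
  simp only [ContinuousLinearMap.coe_restrictScalars', map_smul, smul_eq_mul]
  linear_combination ((fderiv ℂ f z) v / 2) * I_mul_I

lemma del_conj_of_holo {f : E → ℂ} {z : E} (v : E) (hf : DifferentiableAt ℂ f z) :
    del v (fun x => conj (f x)) z = 0 := by
  rw [del_conj v (hf.restrictScalars ℝ), delb_of_holo v hf, map_zero]

lemma delb_conj_of_holo {f : E → ℂ} {z : E} (v : E) (hf : DifferentiableAt ℂ f z) :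
    delb v (fun x => conj (f x)) z = conj (fderiv ℂ f z v) := by
  rw [delb_conj v (hf.restrictScalars ℝ), del_of_holo v hf]

lemma del_smul (c : ℂ) (v : E) (f : E → ℂ) (z : E) : del (c • v) f z = c * del v f z := by
  unfold del
  have h1 : c • v = c.re • v + c.im • (I • v) := by
    have hre : ∀ (r : ℝ) (x : E), (r : ℂ) • x = r • x := fun r x => algebraMap_smul ℂ r x
    conv_lhs => rw [← re_add_im c]
    rw [add_smul, mul_smul, hre, hre]
  have h2 : I • c • v = c.re • (I • v) - c.im • v := by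
    rw [h1, smul_add, smul_comm I c.re, smul_comm I c.im, smul_smul I I, I_mul_I, neg_one_smul,
      smul_neg, sub_eq_add_neg]
  rw [h2, h1]
  simp only [map_add, map_sub, map_smul, real_smul]
  conv_rhs => rw [← re_add_im c]
  linear_combination ((c.im : ℂ) * fderiv ℝ f z (I • v) / 2) * I_mul_I

lemma delb_smul (c : ℂ) (v : E) (f : E → ℂ) (z : E) :
    delb (c • v) f z = conj c * delb v f z := by
  unfold delb
  have h1 : c • v = c.re • v + c.im • (I • v) := by
    have hre : ∀ (r : ℝ) (x : E), (r : ℂ) • x = r • x := fun r x => algebraMap_smul ℂ r x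
    conv_lhs => rw [← re_add_im c]
    rw [add_smul, mul_smul, hre, hre]
  have h2 : I • c • v = c.re • (I • v) - c.im • v := by
    rw [h1, smul_add, smul_comm I c.re, smul_comm I c.im, smul_smul I I, I_mul_I, neg_one_smul,
      smul_neg, sub_eq_add_neg]
  rw [h2, h1]
  simp only [map_add, map_sub, map_smul, real_smul]
  have h3 : conj c = (c.re : ℂ) - c.im * I := by
    apply Complex.ext <;> simp
  rw [h3]
  linear_combination ((c.im : ℂ) * fderiv ℝ f z (I • v) / 2) * I_mul_I

lemma del_vadd (v w : E) (f : E → ℂ) (z : E) : del (v + w) f z = del v f z + del w f z := by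
  unfold del
  rw [smul_add]
  simp only [map_add]
  ring

lemma delb_vadd (v w : E) (f : E → ℂ) (z : E) : delb (v + w) f z = delb v f z + delb w f z := by
  unfold delb
  rw [smul_add]
  simp only [map_add]
  ring

lemma del_comp {f : F → ℂ} {γ : E → F} {z : E} (v : E) (hf : DifferentiableAt ℝ f (γ z))
    (hγ : DifferentiableAt ℂ γ z) :
    del v (fun x => f (γ x)) z = del (fderiv ℂ γ z v) f (γ z) := by
  have h1 : HasFDerivAt (fun x => f (γ x))
      ((fderiv ℝ f (γ z)).comp ((fderiv ℂ γ z).restrictScalars ℝ)) z :=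
    hf.hasFDerivAt.comp z (hγ.hasFDerivAt.restrictScalars ℝ)
  unfold del
  rw [h1.fderiv]
  simp

lemma delb_comp {f : F → ℂ} {γ : E → F} {z : E} (v : E) (hf : DifferentiableAt ℝ f (γ z))
    (hγ : DifferentiableAt ℂ γ z) :
    delb v (fun x => f (γ x)) z = delb (fderiv ℂ γ z v) f (γ z) := by
  have h1 : HasFDerivAt (fun x => f (γ x))
      ((fderiv ℝ f (γ z)).comp ((fderiv ℂ γ z).restrictScalars ℝ)) z :=
    hf.hasFDerivAt.comp z (hγ.hasFDerivAt.restrictScalars ℝ)
  unfold delb
  rw [h1.fderiv]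
  simp

lemma smooth_fderiv {f : E → ℂ} {U : Set E} (hU : IsOpen U) (hf : ContDiffOn ℝ ∞ f U) (v : E) :
    ContDiffOn ℝ ∞ (fun z => fderiv ℝ f z v) U :=
  (hf.fderiv_of_isOpen hU (by norm_cast)).clm_apply contDiffOn_const

lemma smooth_del {f : E → ℂ} {U : Set E} (hU : IsOpen U) (hf : ContDiffOn ℝ ∞ f U) (v : E) :
    ContDiffOn ℝ ∞ (del v f) U :=
  ((smooth_fderiv hU hf v).sub (contDiffOn_const.mul (smooth_fderiv hU hf (I • v)))).div_const 2

lemma smooth_delb {f : E → ℂ} {U : Set E} (hU : IsOpen U) (hf : ContDiffOn ℝ ∞ f U) (v : E) :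
    ContDiffOn ℝ ∞ (delb v f) U :=
  ((smooth_fderiv hU hf v).add (contDiffOn_const.mul (smooth_fderiv hU hf (I • v)))).div_const 2

lemma smooth_diff {f : E → ℂ} {U : Set E} (hU : IsOpen U) (hf : ContDiffOn ℝ ∞ f U) {z : E}
    (hz : z ∈ U) : DifferentiableAt ℝ f z :=
  (hf.contDiffAt (hU.mem_nhds hz)).differentiableAt (by simp)

lemma fderiv_fderiv {f : E → ℂ} {U : Set E} (hU : IsOpen U) (hf : ContDiffOn ℝ ∞ f U) {z : E}
    (hz : z ∈ U) (v w : E) :
    fderiv ℝ (fun x => fderiv ℝ f x v) z w = fderiv ℝ (fderiv ℝ f) z w v := by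
  have h1 : DifferentiableAt ℝ (fderiv ℝ f) z :=
    ((hf.fderiv_of_isOpen (m := ∞) hU (by norm_cast)).contDiffAt (hU.mem_nhds hz)).differentiableAt
      (by simp)
  rw [fderiv_clm_apply h1 (differentiableAt_const v)]
  simp

lemma fderiv_symm {f : E → ℂ} {U : Set E} (hU : IsOpen U) (hf : ContDiffOn ℝ ∞ f U) {z : E}
    (hz : z ∈ U) (v w : E) :
    fderiv ℝ (fun x => fderiv ℝ f x v) z w = fderiv ℝ (fun x => fderiv ℝ f x w) z v := by
  rw [fderiv_fderiv hU hf hz, fderiv_fderiv hU hf hz]
  exact ((hf.contDiffAt (hU.mem_nhds hz)).isSymmSndFDerivAt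
    (by
      rw [minSmoothness_of_isRCLikeNormedField]
      exact WithTop.coe_le_coe.2 (le_top : (2 : ℕ∞) ≤ ⊤))) w v

lemma fderiv_del {f : E → ℂ} {U : Set E} (hU : IsOpen U) (hf : ContDiffOn ℝ ∞ f U) {z : E}
    (hz : z ∈ U) (v w : E) :
    fderiv ℝ (del v f) z w = del v (fun x => fderiv ℝ f x w) z := by
  have h1 := smooth_diff hU (smooth_fderiv hU hf v) hz
  have h2 := smooth_diff hU (smooth_fderiv hU hf (I • v)) hz
  have h3 : HasFDerivAt (del v f) ((1 / 2 : ℂ) • (fderiv ℝ (fun x => fderiv ℝ f x v) z -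
      I • fderiv ℝ (fun x => fderiv ℝ f x (I • v)) z)) z := by
    have h4 : HasFDerivAt (fun x => (1 / 2 : ℂ) * (fderiv ℝ f x v - I * fderiv ℝ f x (I • v)))
        ((1 / 2 : ℂ) • (fderiv ℝ (fun x => fderiv ℝ f x v) z -
          I • fderiv ℝ (fun x => fderiv ℝ f x (I • v)) z)) z :=
      (h1.hasFDerivAt.sub (h2.hasFDerivAt.const_mul I)).const_mul _
    refine h4.congr_of_eventuallyEq (Eventually.of_forall fun x => ?_)
    unfold del
    ring
  rw [h3.fderiv]
  unfold del
  simp only [ContinuousLinearMap.smul_apply, ContinuousLinearMap.sub_apply, smul_eq_mul]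
  rw [fderiv_symm hU hf hz v w, fderiv_symm hU hf hz (I • v) w]
  ring

lemma fderiv_delb {f : E → ℂ} {U : Set E} (hU : IsOpen U) (hf : ContDiffOn ℝ ∞ f U) {z : E}
    (hz : z ∈ U) (v w : E) :
    fderiv ℝ (delb v f) z w = delb v (fun x => fderiv ℝ f x w) z := by
  have h1 := smooth_diff hU (smooth_fderiv hU hf v) hz
  have h2 := smooth_diff hU (smooth_fderiv hU hf (I • v)) hz
  have h3 : HasFDerivAt (delb v f) ((1 / 2 : ℂ) • (fderiv ℝ (fun x => fderiv ℝ f x v) z +
      I • fderiv ℝ (fun x => fderiv ℝ f x (I • v)) z)) z := by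
    have h4 : HasFDerivAt (fun x => (1 / 2 : ℂ) * (fderiv ℝ f x v + I * fderiv ℝ f x (I • v)))
        ((1 / 2 : ℂ) • (fderiv ℝ (fun x => fderiv ℝ f x v) z +
          I • fderiv ℝ (fun x => fderiv ℝ f x (I • v)) z)) z :=
      (h1.hasFDerivAt.add (h2.hasFDerivAt.const_mul I)).const_mul _
    refine h4.congr_of_eventuallyEq (Eventually.of_forall fun x => ?_)
    unfold delb
    ring
  rw [h3.fderiv]
  unfold delb
  simp only [ContinuousLinearMap.smul_apply, ContinuousLinearMap.add_apply, smul_eq_mul]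
  rw [fderiv_symm hU hf hz v w, fderiv_symm hU hf hz (I • v) w]
  ring

lemma del_del {f : E → ℂ} {U : Set E} (hU : IsOpen U) (hf : ContDiffOn ℝ ∞ f U) {z : E}
    (hz : z ∈ U) (v w : E) : del v (del w f) z = del w (del v f) z := by
  have h1 := smooth_diff hU (smooth_fderiv hU hf v) hz
  have h2 := smooth_diff hU (smooth_fderiv hU hf (I • v)) hz
  have h3 : del w (del v f) z = (del w (fun x => fderiv ℝ f x v) z -
      I * del w (fun x => fderiv ℝ f x (I • v)) z) / 2 := by
    have h4 : del v f = fun x => (1 / 2 : ℂ) * (fderiv ℝ f x v - I * fderiv ℝ f x (I • v)) := by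
      funext x
      unfold del
      ring
    rw [h4, del_const_mul w _ (h1.fun_sub (h2.const_mul I)), del_sub w h1 (h2.const_mul I),
      del_const_mul w _ h2]
    ring
  rw [h3]
  change (fderiv ℝ (del w f) z v - I * fderiv ℝ (del w f) z (I • v)) / 2 = _
  rw [fderiv_del hU hf hz, fderiv_del hU hf hz]

lemma del_delb {f : E → ℂ} {U : Set E} (hU : IsOpen U) (hf : ContDiffOn ℝ ∞ f U) {z : E}
    (hz : z ∈ U) (v w : E) : del v (delb w f) z = delb w (del v f) z := by
  have h1 := smooth_diff hU (smooth_fderiv hU hf v) hz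
  have h2 := smooth_diff hU (smooth_fderiv hU hf (I • v)) hz
  have h3 : delb w (del v f) z = (delb w (fun x => fderiv ℝ f x v) z -
      I * delb w (fun x => fderiv ℝ f x (I • v)) z) / 2 := by
    have h4 : del v f = fun x => (1 / 2 : ℂ) * (fderiv ℝ f x v - I * fderiv ℝ f x (I • v)) := by
      funext x
      unfold del
      ring
    rw [h4, delb_const_mul w _ (h1.fun_sub (h2.const_mul I)), delb_sub w h1 (h2.const_mul I),
      delb_const_mul w _ h2]
    ring
  rw [h3]
  change (fderiv ℝ (delb w f) z v - I * fderiv ℝ (delb w f) z (I • v)) / 2 = _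
  rw [fderiv_delb hU hf hz, fderiv_delb hU hf hz]

/-- the derivatives of the logarithm of a positive function -/
lemma fderiv_log {h : E → ℝ} {z : E} (hh : DifferentiableAt ℝ h z) (hz : h z ≠ 0) (v : E) :
    fderiv ℝ (fun x => ((Real.log (h x) : ℝ) : ℂ)) z v =
      fderiv ℝ (fun x => (h x : ℂ)) z v / h z := by
  have h1 : HasFDerivAt (fun x => ((Real.log (h x) : ℝ) : ℂ))
      (ofRealCLM.comp ((h z)⁻¹ • fderiv ℝ h z)) z :=
    ofRealCLM.hasFDerivAt.comp z (hh.hasFDerivAt.log hz)
  have h2 : HasFDerivAt (fun x => (h x : ℂ)) (ofRealCLM.comp (fderiv ℝ h z)) z :=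
    ofRealCLM.hasFDerivAt.comp z hh.hasFDerivAt
  rw [h1.fderiv, h2.fderiv]
  simp only [ContinuousLinearMap.comp_apply, ContinuousLinearMap.smul_apply, ofRealCLM_apply,
    smul_eq_mul, ofReal_mul, ofReal_inv]
  rw [div_eq_inv_mul]

lemma del_log {h : E → ℝ} {z : E} (hh : DifferentiableAt ℝ h z) (hz : h z ≠ 0) (v : E) :
    del v (fun x => ((Real.log (h x) : ℝ) : ℂ)) z = del v (fun x => (h x : ℂ)) z / h z := by
  unfold del
  rw [fderiv_log hh hz, fderiv_log hh hz]
  ring

lemma delb_log {h : E → ℝ} {z : E} (hh : DifferentiableAt ℝ h z) (hz : h z ≠ 0) (v : E) :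
    delb v (fun x => ((Real.log (h x) : ℝ) : ℂ)) z = delb v (fun x => (h x : ℂ)) z / h z := by
  unfold delb
  rw [fderiv_log hh hz, fderiv_log hh hz]
  ring

end general

end Pool.Agent.N150.HS
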