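import Pool.Agent.N150.HS.Defs
import Pool.Agent.N150.HS.Wirt

/-! # Kähler potentials: restriction to holomorphic discs -/

set_option autoImplicit false
set_option linter.unusedSectionVars false
set_option linter.deprecated false

open scoped ContDiff Topology ComplexConjugate
open Complex Set Filter

namespace Pool.Agent.N150.HS

lemma I_smul_single (k : Fin 2) : (I • (Pi.single k 1 : C2)) = Pi.single k I := by
  ext j
  by_cases h : j = k
  · subst h; simp
  · simp [h]

lemma dz_eq (k : Fin 2) (f : C2 → ℂ) : dz k f = del (Pi.single k 1 : C2) f := by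
  funext z
  unfold dz del
  rw [I_smul_single]

lemma dzbar_eq (k : Fin 2) (f : C2 → ℂ) : dzbar k f = delb (Pi.single k 1 : C2) f := by
  funext z
  unfold dzbar delb
  rw [I_smul_single]

lemma vec_eq (c : C2) : c = c 0 • (Pi.single 0 1 : C2) + c 1 • (Pi.single 1 1 : C2) := by
  ext j
  fin_cases j <;> simp

lemma del_vec (c : C2) (f : C2 → ℂ) (z : C2) : del c f z = ∑ i, c i * dz i f z := by
  conv_lhs => rw [vec_eq c]
  rw [del_vadd, del_smul, del_smul, Fin.sum_univ_two, dz_eq, dz_eq]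

lemma delb_vec (c : C2) (f : C2 → ℂ) (z : C2) : delb c f z = ∑ i, conj (c i) * dzbar i f z := by
  conv_lhs => rw [vec_eq c]
  rw [delb_vadd, delb_smul, delb_smul, Fin.sum_univ_two, dzbar_eq, dzbar_eq]

lemma smooth_dz {f : C2 → ℂ} (hf : ContDiff ℝ ∞ f) (k : Fin 2) : ContDiff ℝ ∞ (dz k f) := by
  rw [dz_eq]
  exact contDiffOn_univ.1 (smooth_del isOpen_univ (contDiffOn_univ.2 hf) _)

lemma smooth_dzbar {f : C2 → ℂ} (hf : ContDiff ℝ ∞ f) (k : Fin 2) :
    ContDiff ℝ ∞ (dzbar k f) := by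
  rw [dzbar_eq]
  exact contDiffOn_univ.1 (smooth_delb isOpen_univ (contDiffOn_univ.2 hf) _)

/-- the metric with the potential `φ` -/
noncomputable def levi (φ : C2 → ℂ) (z : C2) : Matrix (Fin 2) (Fin 2) ℂ :=
  Matrix.of fun i j => dz i (dzbar j φ) z

lemma levi_apply (φ : C2 → ℂ) (z : C2) (i j : Fin 2) : levi φ z i j = dz i (dzbar j φ) z := rfl

lemma smooth_levi {φ : C2 → ℂ} (hφ : ContDiff ℝ ∞ φ) (i j : Fin 2) :
    ContDiff ℝ ∞ (fun z => levi φ z i j) := smooth_dz (smooth_dzbar hφ j) i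

lemma levi_kahler {φ : C2 → ℂ} (hφ : ContDiff ℝ ∞ φ) (z : C2) (i j k : Fin 2) :
    dz k (fun w => levi φ w i j) z = dz i (fun w => levi φ w k j) z := by
  change dz k (dz i (dzbar j φ)) z = dz i (dz k (dzbar j φ)) z
  simp only [dz_eq]
  exact del_del isOpen_univ (contDiffOn_univ.2 (smooth_dzbar hφ j)) (mem_univ z) _ _

lemma conj_dz {f : C2 → ℂ} (hf : ContDiff ℝ ∞ f) (k : Fin 2) (z : C2) :
    conj (dz k f z) = dzbar k (fun w => conj (f w)) z := by
  rw [dz_eq, dzbar_eq, delb_conj _ (hf.differentiable (by simp) z)]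

lemma conj_dzbar {f : C2 → ℂ} (hf : ContDiff ℝ ∞ f) (k : Fin 2) (z : C2) :
    conj (dzbar k f z) = dz k (fun w => conj (f w)) z := by
  rw [dz_eq, dzbar_eq, del_conj _ (hf.differentiable (by simp) z)]

lemma levi_hermitian {φ : C2 → ℂ} (hφ : ContDiff ℝ ∞ φ) (hr : ∀ z, conj (φ z) = φ z) (z : C2)
    (i j : Fin 2) : levi φ z j i = conj (levi φ z i j) := by
  rw [levi_apply, levi_apply, conj_dz (smooth_dzbar hφ j)]
  have h1 : (fun w => conj (dzbar j φ w)) = dz j φ := by
    funext w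
    rw [conj_dzbar hφ]
    simp only [hr]
  rw [h1]
  simp only [dz_eq, dzbar_eq]
  exact del_delb isOpen_univ (contDiffOn_univ.2 hφ) (mem_univ z) _ _

section disc

variable {U : Set ℂ} {γ : ℂ → C2}

lemma hasFDerivAt_pi2 (hU : IsOpen U) (hγ : ∀ i, DifferentiableOn ℂ (fun s => γ s i) U) {s : ℂ}
    (hs : s ∈ U) : DifferentiableAt ℂ γ s :=
  differentiableAt_pi.2 fun i => (hγ i).differentiableAt (hU.mem_nhds hs)

lemma fderiv_one (hU : IsOpen U) (hγ : ∀ i, DifferentiableOn ℂ (fun s => γ s i) U) {s : ℂ}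
    (hs : s ∈ U) : fderiv ℂ γ s 1 = fun i => deriv (fun s => γ s i) s := by
  funext i
  have h2 : HasFDerivAt (fun s => γ s i) ((ContinuousLinearMap.proj i).comp (fderiv ℂ γ s)) s :=
    (ContinuousLinearMap.proj i : C2 →L[ℂ] ℂ).hasFDerivAt.comp s
      (hasFDerivAt_pi2 hU hγ hs).hasFDerivAt
  rw [← fderiv_apply_one_eq_deriv, h2.fderiv]
  rfl

lemma del_disc (hU : IsOpen U) (hγ : ∀ i, DifferentiableOn ℂ (fun s => γ s i) U) {s : ℂ}
    (hs : s ∈ U) {f : C2 → ℂ} (hf : ContDiff ℝ ∞ f) :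
    del (1 : ℂ) (fun s => f (γ s)) s = ∑ i, deriv (fun s => γ s i) s * dz i f (γ s) := by
  rw [del_comp (1 : ℂ) (hf.differentiable (by simp) _) (hasFDerivAt_pi2 hU hγ hs),
    fderiv_one hU hγ hs, del_vec]

lemma delb_disc (hU : IsOpen U) (hγ : ∀ i, DifferentiableOn ℂ (fun s => γ s i) U) {s : ℂ}
    (hs : s ∈ U) {f : C2 → ℂ} (hf : ContDiff ℝ ∞ f) :
    delb (1 : ℂ) (fun s => f (γ s)) s =
      ∑ i, conj (deriv (fun s => γ s i) s) * dzbar i f (γ s) := by
  rw [delb_comp (1 : ℂ) (hf.differentiable (by simp) _) (hasFDerivAt_pi2 hU hγ hs),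
    fderiv_one hU hγ hs, delb_vec]

lemma smooth_holo {f : ℂ → ℂ} (hU : IsOpen U) (hf : DifferentiableOn ℂ f U) :
    ContDiffOn ℝ ∞ f U := by
  have h1 : ContDiffOn ℂ ω f U := hf.contDiffOn hU
  exact (h1.restrict_scalars ℝ).of_le (by simp)

lemma smooth_conj {f : ℂ → ℂ} (hf : ContDiffOn ℝ ∞ f U) :
    ContDiffOn ℝ ∞ (fun s => conj (f s)) U :=
  (conjCLE : ℂ →L[ℝ] ℂ).contDiff.comp_contDiffOn hf

lemma smooth_disc (hU : IsOpen U) (hγ : ∀ i, DifferentiableOn ℂ (fun s => γ s i) U)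
    {f : C2 → ℂ} (hf : ContDiff ℝ ∞ f) : ContDiffOn ℝ ∞ (fun s => f (γ s)) U := by
  have h1 : ContDiffOn ℝ ∞ γ U := contDiffOn_pi.2 fun i => smooth_holo hU (hγ i)
  exact hf.comp_contDiffOn h1

/-- `∂ ∂̄ (B C A)` for `B` holomorphic, `C` antiholomorphic -/
lemma del_delb_mul3 (hU : IsOpen U) {B C A : ℂ → ℂ} (hB : DifferentiableOn ℂ B U)
    (hC : DifferentiableOn ℂ C U) (hA : ContDiffOn ℝ ∞ A U) {s : ℂ} (hs : s ∈ U) :
    del (1 : ℂ) (delb 1 (fun s => B s * conj (C s) * A s)) s =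
      deriv B s * (conj (deriv C s) * A s + conj (C s) * delb 1 A s) +
        B s * (conj (deriv C s) * del 1 A s + conj (C s) * del 1 (delb 1 A) s) := by
  have hBs := smooth_holo hU hB
  have hCs := smooth_conj (smooth_holo hU hC)
  have hC' : DifferentiableOn ℂ (deriv C) U := hC.deriv hU
  have hCs' := smooth_conj (smooth_holo hU hC')
  have e1 : EqOn (delb 1 (fun s => B s * conj (C s) * A s))
      (fun s => B s * (conj (deriv C s) * A s + conj (C s) * delb 1 A s)) U := by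
    intro x hx
    have d1 := smooth_diff hU hBs hx
    have d2 := smooth_diff hU hCs hx
    have d3 := smooth_diff hU hA hx
    have d4 := hB.differentiableAt (hU.mem_nhds hx)
    have d5 := hC.differentiableAt (hU.mem_nhds hx)
    change delb 1 (fun s => B s * conj (C s) * A s) x =
      B x * (conj (deriv C x) * A x + conj (C x) * delb 1 A x)
    rw [delb_mul 1 (d1.fun_mul d2) d3, delb_mul 1 d1 d2, delb_of_holo 1 d4,
      delb_conj_of_holo 1 d5, fderiv_apply_one_eq_deriv]
    ring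
  rw [del_eqOn hU 1 e1 hs]
  have d1 := smooth_diff hU hBs hs
  have d2 := smooth_diff hU hCs hs
  have d3 := smooth_diff hU hA hs
  have d4 := hB.differentiableAt (hU.mem_nhds hs)
  have d5 := hC.differentiableAt (hU.mem_nhds hs)
  have d6 := hC'.differentiableAt (hU.mem_nhds hs)
  have d7 := smooth_diff hU hCs' hs
  have d8 := smooth_diff hU (smooth_delb hU hA 1) hs
  rw [del_mul 1 d1 ((d7.fun_mul d3).fun_add (d2.fun_mul d8)),
    del_add 1 (d7.fun_mul d3) (d2.fun_mul d8), del_mul 1 d7 d3, del_mul 1 d2 d8,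
    del_conj_of_holo 1 d6, del_conj_of_holo 1 d5, del_of_holo 1 d4, fderiv_apply_one_eq_deriv]
  ring

lemma del_delb_disc_on (hU : IsOpen U) (hγ : ∀ i, DifferentiableOn ℂ (fun s => γ s i) U)
    {f : C2 → ℂ} (hf : ContDiff ℝ ∞ f) :
    EqOn (del (1 : ℂ) (delb 1 (fun s => f (γ s))))
      (fun s => ∑ i, ∑ j, deriv (fun s => γ s i) s * conj (deriv (fun s => γ s j) s) *
        levi f (γ s) i j) U := by
  intro s hs
  have e1 : EqOn (delb (1 : ℂ) (fun s => f (γ s)))
      (fun s => ∑ j, conj (deriv (fun s => γ s j) s) * dzbar j f (γ s)) U :=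
    fun x hx => delb_disc hU hγ hx hf
  change del (1 : ℂ) (delb 1 (fun s => f (γ s))) s = ∑ i, ∑ j, deriv (fun s => γ s i) s *
    conj (deriv (fun s => γ s j) s) * levi f (γ s) i j
  rw [del_eqOn hU 1 e1 hs]
  have h1 : ∀ j, DifferentiableOn ℂ (deriv (fun s => γ s j)) U := fun j => (hγ j).deriv hU
  have h2 : ∀ j, DifferentiableAt ℝ (fun s => conj (deriv (fun s => γ s j) s)) s := fun j =>
    smooth_diff hU (smooth_conj (smooth_holo hU (h1 j))) hs
  have h3 : ∀ j, DifferentiableAt ℝ (fun s => dzbar j f (γ s)) s := fun j =>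
    smooth_diff hU (smooth_disc hU hγ (smooth_dzbar hf j)) hs
  rw [del_sum _ _ fun j _ => (h2 j).fun_mul (h3 j), Finset.sum_comm]
  refine Finset.sum_congr rfl fun j _ => ?_
  rw [del_mul 1 (h2 j) (h3 j), del_conj_of_holo 1 ((h1 j).differentiableAt (hU.mem_nhds hs)),
    del_disc hU hγ hs (smooth_dzbar hf j), mul_zero, add_zero, Finset.mul_sum]
  refine Finset.sum_congr rfl fun i _ => ?_
  rw [levi_apply]
  ring

lemma del_delb_disc (hU : IsOpen U) (hγ : ∀ i, DifferentiableOn ℂ (fun s => γ s i) U) {s : ℂ}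
    (hs : s ∈ U) {f : C2 → ℂ} (hf : ContDiff ℝ ∞ f) :
    del (1 : ℂ) (delb 1 (fun s => f (γ s))) s =
      herm (levi f (γ s)) (fun i => deriv (fun s => γ s i) s)
        (fun i => deriv (fun s => γ s i) s) := by
  rw [del_delb_disc_on hU hγ hf hs]
  unfold herm
  refine Finset.sum_congr rfl fun i _ => Finset.sum_congr rfl fun j _ => ?_
  ring

/-- the fourth derivative `(∂ ∂̄)² (f ∘ γ)` -/
lemma fourth_disc (hU : IsOpen U) (hγ : ∀ i, DifferentiableOn ℂ (fun s => γ s i) U) {s : ℂ}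
    (hs : s ∈ U) {f : C2 → ℂ} (hf : ContDiff ℝ ∞ f) {v u : C2}
    (hv : v = fun i => deriv (fun s => γ s i) s)
    (hu : u = fun i => deriv (deriv (fun s => γ s i)) s) :
    del (1 : ℂ) (delb 1 (del 1 (delb 1 (fun s => f (γ s))))) s =
      ∑ i, ∑ j, (u i * (conj (u j) * levi f (γ s) i j +
          conj (v j) * ∑ l, conj (v l) * dzbar l (fun w => levi f w i j) (γ s)) +
        v i * (conj (u j) * ∑ k, v k * dz k (fun w => levi f w i j) (γ s) +
          conj (v j) * ∑ k, ∑ l, v k * conj (v l) *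
            dz k (fun w => dzbar l (fun u => levi f u i j) w) (γ s))) := by
  have e1 := del_delb_disc_on hU hγ hf
  have e2 := delb_eqOn hU (1 : ℂ) e1
  rw [del_eqOn hU (1 : ℂ) e2 hs]
  have hB : ∀ i, DifferentiableOn ℂ (deriv (fun s => γ s i)) U := fun i => (hγ i).deriv hU
  have hA : ∀ i j, ContDiffOn ℝ ∞ (fun s => levi f (γ s) i j) U := fun i j =>
    smooth_disc hU hγ (smooth_levi hf i j)
  have hT : ∀ i j, ContDiffOn ℝ ∞ (fun s => deriv (fun s => γ s i) s *
      conj (deriv (fun s => γ s j) s) * levi f (γ s) i j) U := fun i j =>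
    ((smooth_holo hU (hB i)).mul (smooth_conj (smooth_holo hU (hB j)))).mul (hA i j)
  have hTs : ∀ i, ContDiffOn ℝ ∞ (fun s => ∑ j, deriv (fun s => γ s i) s *
      conj (deriv (fun s => γ s j) s) * levi f (γ s) i j) U := fun i =>
    ContDiffOn.sum fun j _ => hT i j
  have e3 : EqOn (delb (1 : ℂ) (fun s => ∑ i, ∑ j, deriv (fun s => γ s i) s *
      conj (deriv (fun s => γ s j) s) * levi f (γ s) i j))
      (fun s => ∑ i, ∑ j, delb 1 (fun s => deriv (fun s => γ s i) s *
      conj (deriv (fun s => γ s j) s) * levi f (γ s) i j) s) U := by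
    intro x hx
    rw [delb_sum _ _ fun i _ => smooth_diff hU (hTs i) hx]
    refine Finset.sum_congr rfl fun i _ => ?_
    rw [delb_sum _ _ fun j _ => smooth_diff hU (hT i j) hx]
  rw [del_eqOn hU (1 : ℂ) e3 hs]
  have hT2 : ∀ i j, ContDiffOn ℝ ∞ (delb 1 (fun s => deriv (fun s => γ s i) s *
      conj (deriv (fun s => γ s j) s) * levi f (γ s) i j)) U := fun i j =>
    smooth_delb hU (hT i j) 1
  have hTs2 : ∀ i, ContDiffOn ℝ ∞ (fun s => ∑ j, delb 1 (fun s => deriv (fun s => γ s i) s *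
      conj (deriv (fun s => γ s j) s) * levi f (γ s) i j) s) U := fun i =>
    ContDiffOn.sum fun j _ => hT2 i j
  rw [del_sum _ _ fun i _ => smooth_diff hU (hTs2 i) hs]
  refine Finset.sum_congr rfl fun i _ => ?_
  rw [del_sum _ _ fun j _ => smooth_diff hU (hT2 i j) hs]
  refine Finset.sum_congr rfl fun j _ => ?_
  rw [del_delb_mul3 hU (hB i) (hB j) (hA i j) hs, delb_disc hU hγ hs (smooth_levi hf i j),
    del_disc hU hγ hs (smooth_levi hf i j)]
  have e4 := del_delb_disc_on hU hγ (smooth_levi hf i j) hs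
  rw [e4]
  subst hv hu
  simp only [levi_apply]

end disc

/-! ### The curvature is at least the one of the disc -/

lemma inv_props {M : Matrix (Fin 2) (Fin 2) ℂ} (hM : ∀ i j, M j i = conj (M i j))
    (hpos : ∀ v, v ≠ 0 → 0 < (herm M v v).re) :
    M * M⁻¹ = 1 ∧ M⁻¹ * M = 1 ∧ ∀ i j, M⁻¹ j i = conj (M⁻¹ i j) := by
  have hdet : IsUnit M.det := by
    rw [isUnit_iff_ne_zero]
    intro h
    obtain ⟨v, hv, hv2⟩ := Matrix.exists_mulVec_eq_zero_iff.2 h
    have h1 := hpos (fun i => conj (v i)) (by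
      intro h2
      apply hv
      funext i
      have := congrFun h2 i
      simpa using this)
    have h3 : herm M (fun i => conj (v i)) (fun i => conj (v i)) = 0 := by
      unfold herm
      apply Finset.sum_eq_zero
      intro i _
      have h4 := congrFun hv2 i
      simp only [Matrix.mulVec, dotProduct, Pi.zero_apply] at h4
      calc _ = conj (v i) * ∑ j, M i j * v j := by
            rw [Finset.mul_sum]
            refine Finset.sum_congr rfl fun j _ => ?_
            simp only [conj_conj]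
            ring
        _ = 0 := by rw [h4, mul_zero]
    rw [h3] at h1
    simp at h1
  refine ⟨Matrix.mul_nonsing_inv M hdet, Matrix.nonsing_inv_mul M hdet, ?_⟩
  have h5 : M.IsHermitian := by
    ext i j
    rw [Matrix.conjTranspose_apply]
    exact (hM j i).symm
  have h6 := h5.inv
  intro i j
  have h7 := congrFun (congrFun h6 j) i
  rw [Matrix.conjTranspose_apply] at h7
  exact h7.symm

/-- **The curvature in the direction of a disc.** If `φ` is the potential of a metric, then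
`R(v, v̄, v, v̄)` is at least `-(∂ ∂̄)² (φ ∘ γ)` for all holomorphic discs `γ` tangent to `v`. -/
theorem curv_ge {φ : C2 → ℂ} (hφ : ContDiff ℝ ∞ φ) (hr : ∀ z, conj (φ z) = φ z) {U : Set ℂ}
    {γ : ℂ → C2} (hU : IsOpen U) (hγ : ∀ i, DifferentiableOn ℂ (fun s => γ s i) U) {s : ℂ}
    (hs : s ∈ U) (hpos : ∀ v, v ≠ 0 → 0 < (herm (levi φ (γ s)) v v).re) {v : C2}
    (hv : v = fun i => deriv (fun s => γ s i) s) :
    -(del (1 : ℂ) (delb 1 (del 1 (delb 1 (fun s => φ (γ s))))) s).re ≤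
      (∑ i, ∑ j, ∑ k, ∑ l, curvature (levi φ) (γ s) i j k l * v i * conj (v j) * v k *
        conj (v l)).re := by
  obtain ⟨u, hu⟩ : ∃ u : C2, u = fun i => deriv (deriv (fun s => γ s i)) s := ⟨_, rfl⟩
  obtain ⟨h1, h2, h3⟩ := inv_props (levi_hermitian hφ hr (γ s)) hpos
  rw [fourth_disc hU hγ hs hφ hv hu]
  generalize hz : γ s = z at *
  -- the vector `b`
  obtain ⟨b, hb⟩ : ∃ b : C2, b = fun q => ∑ i, ∑ k, v i * v k * dz k (fun w => levi φ w i q) z :=
    ⟨_, rfl⟩
  have hbc : ∀ p, conj (b p) = ∑ j, ∑ l, conj (v j) * conj (v l) *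
      dzbar l (fun w => levi φ w p j) z := by
    intro p
    rw [hb]
    simp only [map_sum, map_mul]
    refine Finset.sum_congr rfl fun j _ => Finset.sum_congr rfl fun l _ => ?_
    rw [conj_dz (smooth_levi hφ j p)]
    have h4 : (fun w => conj (levi φ w j p)) = fun w => levi φ w p j := by
      funext w
      rw [levi_hermitian hφ hr w j p]
    rw [h4]
  obtain ⟨x, hx⟩ : ∃ x : C2, x = fun i => u i + ∑ q, b q * (levi φ z)⁻¹ q i := ⟨_, rfl⟩
  have hx0 : 0 ≤ (herm (levi φ z) x x).re := by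
    by_cases h : x = 0
    · rw [h]; simp [herm]
    · exact (hpos x h).le
  have key : herm (levi φ z) x x = (∑ i, ∑ j, ∑ k, ∑ l, curvature (levi φ) z i j k l * v i *
      conj (v j) * v k * conj (v l)) + ∑ i, ∑ j, (u i * (conj (u j) * levi φ z i j +
          conj (v j) * ∑ l, conj (v l) * dzbar l (fun w => levi φ w i j) z) +
        v i * (conj (u j) * ∑ k, v k * dz k (fun w => levi φ w i j) z +
          conj (v j) * ∑ k, ∑ l, v k * conj (v l) *
            dz k (fun w => dzbar l (fun u => levi φ u i j) w) z)) := by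
    have g1 : ∀ i j, ∑ k, levi φ z i k * (levi φ z)⁻¹ k j = if i = j then 1 else 0 := by
      intro i j
      have := congrFun (congrFun h1 i) j
      rwa [Matrix.mul_apply, Matrix.one_apply] at this
    have g2 : ∀ i j, ∑ k, (levi φ z)⁻¹ i k * levi φ z k j = if i = j then 1 else 0 := by
      intro i j
      have := congrFun (congrFun h2 i) j
      rwa [Matrix.mul_apply, Matrix.one_apply] at this
    have c0 := hbc 0
    have c1 := hbc 1
    simp only [Fin.sum_univ_two] at c0 c1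
    have b0 := congrFun hb 0
    have b1 := congrFun hb 1
    simp only [Fin.sum_univ_two] at b0 b1
    have x0 := congrFun hx 0
    have x1 := congrFun hx 1
    simp only [Fin.sum_univ_two] at x0 x1
    simp only [Fin.sum_univ_two] at g1 g2
    have g00 := g1 0 0
    have g01 := g1 0 1
    have g10 := g1 1 0
    have g11 := g1 1 1
    have k00 := g2 0 0
    have k01 := g2 0 1
    have k10 := g2 1 0
    have k11 := g2 1 1
    simp only [if_true, Fin.isValue, zero_ne_one, one_ne_zero, if_false] at g00 g01 g10 g11 k00 k01 k10 k11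
    have n00 := h3 0 0
    have n01 := h3 0 1
    have n10 := h3 1 0
    have n11 := h3 1 1
    have y0 : levi φ z 0 0 * x 0 + levi φ z 1 0 * x 1 =
        levi φ z 0 0 * u 0 + levi φ z 1 0 * u 1 + b 0 := by
      rw [x0, x1]
      linear_combination b 0 * k00 + b 1 * k10
    have y1 : levi φ z 0 1 * x 0 + levi φ z 1 1 * x 1 =
        levi φ z 0 1 * u 0 + levi φ z 1 1 * u 1 + b 1 := by
      rw [x0, x1]
      linear_combination b 0 * k01 + b 1 * k11
    have xc0 : conj (x 0) = conj (u 0) + (conj (b 0) * (levi φ z)⁻¹ 0 0 +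
        conj (b 1) * (levi φ z)⁻¹ 0 1) := by
      rw [x0]
      simp only [map_add, map_mul]
      rw [← n00, ← n10]
    have xc1 : conj (x 1) = conj (u 1) + (conj (b 0) * (levi φ z)⁻¹ 1 0 +
        conj (b 1) * (levi φ z)⁻¹ 1 1) := by
      rw [x1]
      simp only [map_add, map_mul]
      rw [← n01, ← n11]
    have e1 : herm (levi φ z) x x = (levi φ z 0 0 * x 0 + levi φ z 1 0 * x 1) * conj (x 0) +
        (levi φ z 0 1 * x 0 + levi φ z 1 1 * x 1) * conj (x 1) := by
      unfold herm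
      simp only [Fin.sum_univ_two]
      ring
    have e2 : herm (levi φ z) x x = (u 0 * conj (u 0) * levi φ z 0 0 +
        u 0 * conj (u 1) * levi φ z 0 1 + u 1 * conj (u 0) * levi φ z 1 0 +
        u 1 * conj (u 1) * levi φ z 1 1) + (b 0 * conj (u 0) + b 1 * conj (u 1)) +
        (u 0 * conj (b 0) + u 1 * conj (b 1)) +
        (b 0 * (levi φ z)⁻¹ 0 0 * conj (b 0) + b 0 * (levi φ z)⁻¹ 0 1 * conj (b 1) +
        b 1 * (levi φ z)⁻¹ 1 0 * conj (b 0) + b 1 * (levi φ z)⁻¹ 1 1 * conj (b 1)) := by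
      rw [e1, y0, y1, xc0, xc1]
      linear_combination u 0 * conj (b 0) * g00 + u 0 * conj (b 1) * g01 +
        u 1 * conj (b 0) * g10 + u 1 * conj (b 1) * g11
    rw [e2]
    simp only [curvature, Fin.sum_univ_two]
    rw [c0, c1, b0, b1]
    ring
  have key2 := congrArg Complex.re key
  rw [Complex.add_re] at key2
  linarith

end Pool.Agent.N150.HS
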