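import Mathlib

/-! # The moment map equation -/

set_option autoImplicit false
set_option linter.unusedSectionVars false
set_option linter.deprecated false

open scoped ContDiff Topology ComplexConjugate
open Complex Set Filter

namespace Pool.Agent.N150.HS

/-- the numbers `h k ≥ 0` are stable: no two of them which are not adjacent vanish -/
structure StableR (h : Fin 5 → ℝ) : Prop where
  nonneg : ∀ k, 0 ≤ h k
  h02 : 0 < h 0 + h 2
  h13 : 0 < h 1 + h 3
  h24 : 0 < h 2 + h 4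
  h30 : 0 < h 3 + h 0
  h41 : 0 < h 4 + h 1

/-- the numerator of the moment map equation -/
noncomputable def G (h : Fin 5 → ℝ) (t : ℝ) : ℝ :=
  (t * h 3 - 3) * (h 2 + t * h 0) * (h 4 + t * h 1) + 2 * t * h 0 * (h 4 + t * h 1) +
    2 * t * h 1 * (h 2 + t * h 0)

/-- its derivative in `t` -/
noncomputable def G' (h : Fin 5 → ℝ) (t : ℝ) : ℝ :=
  h 3 * (h 2 + t * h 0) * (h 4 + t * h 1) + (t * h 3 - 3) * h 0 * (h 4 + t * h 1) +
    (t * h 3 - 3) * (h 2 + t * h 0) * h 1 + 2 * h 0 * (h 4 + t * h 1) + 2 * t * h 0 * h 1 +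
    2 * h 1 * (h 2 + t * h 0) + 2 * t * h 1 * h 0

lemma hasDerivAt_G (h : Fin 5 → ℝ) (t : ℝ) : HasDerivAt (G h) (G' h t) t := by
  have h1 : HasDerivAt (fun t : ℝ => t * h 3 - 3) (h 3) t := by
    simpa using ((hasDerivAt_id t).mul_const (h 3)).sub_const 3
  have h2 : HasDerivAt (fun t : ℝ => h 2 + t * h 0) (h 0) t := by
    simpa using ((hasDerivAt_id t).mul_const (h 0)).const_add (h 2)
  have h3 : HasDerivAt (fun t : ℝ => h 4 + t * h 1) (h 1) t := by
    simpa using ((hasDerivAt_id t).mul_const (h 1)).const_add (h 4)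
  have h4 : HasDerivAt (fun t : ℝ => 2 * t * h 0) (2 * h 0) t := by
    simpa using ((hasDerivAt_id t).const_mul 2).mul_const (h 0)
  have h5 : HasDerivAt (fun t : ℝ => 2 * t * h 1) (2 * h 1) t := by
    simpa using ((hasDerivAt_id t).const_mul 2).mul_const (h 1)
  have h6 := (((h1.mul h2).mul h3).add (h4.mul h3)).add (h5.mul h2)
  refine (h6.congr_deriv ?_)
  simp only [Pi.mul_apply]
  unfold G'
  ring

lemma pos_left {a b t : ℝ} (ha : 0 ≤ a) (hb : 0 ≤ b) (hab : 0 < b + a) (ht : 0 < t) :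
    0 < a + t * b := by
  rcases ha.eq_or_lt with h | h
  · rw [← h] at hab ⊢
    have : 0 < b := by linarith
    positivity
  · positivity

variable {h : Fin 5 → ℝ}

lemma A_pos (hh : StableR h) {t : ℝ} (ht : 0 < t) : 0 < h 2 + t * h 0 :=
  pos_left (hh.nonneg 2) (hh.nonneg 0) hh.h02 ht

lemma B_pos (hh : StableR h) {t : ℝ} (ht : 0 < t) : 0 < h 4 + t * h 1 :=
  pos_left (hh.nonneg 4) (hh.nonneg 1) (by linarith [hh.h41]) ht

lemma D_pos (hh : StableR h) {a b c : ℝ} (ha : 0 < a) (hb : 0 < b) (hc : 0 < c) :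
    0 < h 0 * h 2 * a + h 1 * h 4 * b + h 3 * c := by
  have n0 := hh.nonneg 0
  have n1 := hh.nonneg 1
  have n2 := hh.nonneg 2
  have n3 := hh.nonneg 3
  have n4 := hh.nonneg 4
  have e1 : 0 ≤ h 0 * h 2 * a := by positivity
  have e2 : 0 ≤ h 1 * h 4 * b := by positivity
  have e3 : 0 ≤ h 3 * c := by positivity
  rcases n3.eq_or_lt with h3 | h3
  · have p0 : 0 < h 0 := by linarith [hh.h30]
    have p1 : 0 < h 1 := by linarith [hh.h13]
    rcases n2.eq_or_lt with h2 | h2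
    · have p4 : 0 < h 4 := by linarith [hh.h24]
      have : 0 < h 1 * h 4 * b := by positivity
      linarith
    · have : 0 < h 0 * h 2 * a := by positivity
      linarith
  · have : 0 < h 3 * c := by positivity
    linarith

lemma G'_pos (hh : StableR h) {t : ℝ} (ht : 0 < t) (hG : G h t = 0) : 0 < G' h t := by
  have hA := A_pos hh ht
  have hB := B_pos hh ht
  have hD : 0 < h 0 * h 2 * (2 * (h 4 + t * h 1) ^ 2) + h 1 * h 4 * (2 * (h 2 + t * h 0) ^ 2) +
      h 3 * ((h 2 + t * h 0) ^ 2 * (h 4 + t * h 1) ^ 2) :=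
    D_pos hh (by positivity) (by positivity) (by positivity)
  have key : (h 2 + t * h 0) * (h 4 + t * h 1) * G' h t =
      (h 0 * h 2 * (2 * (h 4 + t * h 1) ^ 2) + h 1 * h 4 * (2 * (h 2 + t * h 0) ^ 2) +
      h 3 * ((h 2 + t * h 0) ^ 2 * (h 4 + t * h 1) ^ 2)) +
      (h 0 * (h 4 + t * h 1) + h 1 * (h 2 + t * h 0)) * G h t := by
    unfold G G'
    ring
  rw [hG, mul_zero, add_zero] at key
  rw [← key] at hD
  exact (pos_iff_pos_of_mul_pos hD).1 (by positivity)

lemma G_unique (hh : StableR h) {t t' : ℝ} (ht : 0 < t) (ht' : 0 < t') (hG : G h t = 0)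
    (hG' : G h t' = 0) : t = t' := by
  have hA := A_pos hh ht
  have hB := B_pos hh ht
  have hA' := A_pos hh ht'
  have hB' := B_pos hh ht'
  have hD : 0 < h 0 * h 2 * (2 * ((h 4 + t * h 1) * (h 4 + t' * h 1))) +
      h 1 * h 4 * (2 * ((h 2 + t * h 0) * (h 2 + t' * h 0))) +
      h 3 * ((h 2 + t * h 0) * (h 2 + t' * h 0) * ((h 4 + t * h 1) * (h 4 + t' * h 1))) :=
    D_pos hh (by positivity) (by positivity) (by positivity)
  have key : (t - t') * (h 0 * h 2 * (2 * ((h 4 + t * h 1) * (h 4 + t' * h 1))) +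
      h 1 * h 4 * (2 * ((h 2 + t * h 0) * (h 2 + t' * h 0))) +
      h 3 * ((h 2 + t * h 0) * (h 2 + t' * h 0) * ((h 4 + t * h 1) * (h 4 + t' * h 1)))) =
      G h t * ((h 2 + t' * h 0) * (h 4 + t' * h 1)) -
        G h t' * ((h 2 + t * h 0) * (h 4 + t * h 1)) := by
    unfold G
    ring
  rw [hG, hG', zero_mul, zero_mul, sub_zero] at key
  rcases mul_eq_zero.1 key with h1 | h1
  · linarith
  · exact absurd h1 hD.ne'

lemma continuous_G (h : Fin 5 → ℝ) : Continuous (G h) := by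
  unfold G
  fun_prop

lemma exists_neg (hh : StableR h) : ∃ t, 0 < t ∧ G h t < 0 := by
  have n0 := hh.nonneg 0
  have n1 := hh.nonneg 1
  have n2 := hh.nonneg 2
  have n3 := hh.nonneg 3
  have n4 := hh.nonneg 4
  have small : ∀ f : ℝ → ℝ, Continuous f → f 0 < 0 → ∃ t, 0 < t ∧ f t < 0 := by
    intro f hf h0
    have h1 : ∀ᶠ t in 𝓝 (0 : ℝ), f t < 0 := hf.continuousAt.eventually_lt_const h0
    obtain ⟨ε, hε, h2⟩ := Metric.eventually_nhds_iff.1 h1
    refine ⟨ε / 2, by positivity, h2 ?_⟩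
    rw [Real.dist_eq, sub_zero, abs_of_pos (by positivity)]
    linarith
  rcases n2.eq_or_lt with h2 | h2
  · have p0 : 0 < h 0 := by linarith [hh.h02]
    have p4 : 0 < h 4 := by linarith [hh.h24]
    obtain ⟨t, ht, h3⟩ := small (fun t => (t * h 3 - 3) * (h 4 + t * h 1) +
      2 * (h 4 + t * h 1) + 2 * t * h 1) (by fun_prop) (by
        simp only [zero_mul, zero_sub, add_zero, mul_zero, add_zero]
        linarith)
    refine ⟨t, ht, ?_⟩
    have h4 : G h t = t * h 0 * ((t * h 3 - 3) * (h 4 + t * h 1) +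
      2 * (h 4 + t * h 1) + 2 * t * h 1) := by
      unfold G
      rw [← h2]
      ring
    rw [h4]
    exact mul_neg_of_pos_of_neg (by positivity) h3
  · rcases n4.eq_or_lt with h4 | h4
    · have p1 : 0 < h 1 := by linarith [hh.h41]
      obtain ⟨t, ht, h3⟩ := small (fun t => (t * h 3 - 3) * (h 2 + t * h 0) +
        2 * (h 2 + t * h 0) + 2 * t * h 0) (by fun_prop) (by
          simp only [zero_mul, zero_sub, add_zero, mul_zero, add_zero]
          linarith)
      refine ⟨t, ht, ?_⟩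
      have h5 : G h t = t * h 1 * ((t * h 3 - 3) * (h 2 + t * h 0) +
        2 * (h 2 + t * h 0) + 2 * t * h 0) := by
        unfold G
        rw [← h4]
        ring
      rw [h5]
      exact mul_neg_of_pos_of_neg (by positivity) h3
    · exact small (G h) (continuous_G h) (by
        unfold G
        simp only [zero_mul, zero_sub, add_zero, mul_zero]
        have : 0 < h 2 * h 4 := by positivity
        linarith)

lemma frac_le {a b t c : ℝ} (ha : 0 ≤ a) (hb : 0 < b) (hc : 0 ≤ c) (ht : t = 1 + 4 * a / b + c) :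
    5 * a ≤ a + t * b := by
  rw [ht]
  have h1 : (1 + 4 * a / b + c) * b = b + 4 * a + c * b := by
    field_simp
  rw [h1]
  have : 0 ≤ c * b := by positivity
  linarith

lemma exists_pos (hh : StableR h) : ∃ t, 0 < t ∧ 0 < G h t := by
  have n0 := hh.nonneg 0
  have n1 := hh.nonneg 1
  have n2 := hh.nonneg 2
  have n3 := hh.nonneg 3
  have n4 := hh.nonneg 4
  rcases n3.eq_or_lt with h3 | h3
  · have p0 : 0 < h 0 := by linarith [hh.h30]
    have p1 : 0 < h 1 := by linarith [hh.h13]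
    obtain ⟨t, ht⟩ : ∃ t, t = 1 + 4 * h 2 / h 0 + 4 * h 4 / h 1 := ⟨_, rfl⟩
    have e1 : 0 ≤ 4 * h 2 / h 0 := by positivity
    have e2 : 0 ≤ 4 * h 4 / h 1 := by positivity
    have ht0 : 0 < t := by rw [ht]; linarith
    refine ⟨t, ht0, ?_⟩
    have f1 := frac_le n2 p0 e2 ht
    have f2 : 5 * h 4 ≤ h 4 + t * h 1 := frac_le n4 p1 e1 (by rw [ht]; ring)
    have hA := A_pos hh ht0
    have hB := B_pos hh ht0
    have h5 : G h t = (h 2 + t * h 0) * (h 4 + t * h 1) - 2 * h 2 * (h 4 + t * h 1) -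
        2 * h 4 * (h 2 + t * h 0) := by
      unfold G
      rw [← h3]
      ring
    rw [h5]
    nlinarith [mul_le_mul_of_nonneg_right f1 hB.le, mul_le_mul_of_nonneg_left f2 hA.le,
      mul_pos hA hB]
  · refine ⟨4 / h 3, by positivity, ?_⟩
    have hA := A_pos hh (t := 4 / h 3) (by positivity)
    have hB := B_pos hh (t := 4 / h 3) (by positivity)
    unfold G
    have h6 : 4 / h 3 * h 3 - 3 = 1 := by
      field_simp
      norm_num
    rw [h6]
    have : 0 < 4 / h 3 := by positivity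
    positivity

lemma exists_root (hh : StableR h) : ∃ t, 0 < t ∧ G h t = 0 := by
  obtain ⟨t₁, h1, h2⟩ := exists_neg hh
  obtain ⟨t₂, h3, h4⟩ := exists_pos hh
  have h5 : (0 : ℝ) ∈ uIcc (G h t₁) (G h t₂) := by
    rw [mem_uIcc]
    left
    exact ⟨h2.le, h4.le⟩
  obtain ⟨t, ht, h6⟩ := intermediate_value_uIcc (continuous_G h).continuousOn h5
  refine ⟨t, ?_, h6⟩
  rw [mem_uIcc] at ht
  rcases ht with ht | ht <;> linarith [ht.1]

/-! ### The function `T` -/

/-- homogeneous coordinates -/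
abbrev C5 : Type := Fin 5 → ℂ

/-- the squares of the absolute values of the coordinates -/
noncomputable def hh (Z : C5) (k : Fin 5) : ℝ := normSq (Z k)

/-- the stable points -/
def Stable (Z : C5) : Prop :=
  (Z 0 ≠ 0 ∨ Z 2 ≠ 0) ∧ (Z 1 ≠ 0 ∨ Z 3 ≠ 0) ∧ (Z 2 ≠ 0 ∨ Z 4 ≠ 0) ∧ (Z 3 ≠ 0 ∨ Z 0 ≠ 0) ∧
    (Z 4 ≠ 0 ∨ Z 1 ≠ 0)

lemma add_normSq_pos {a b : ℂ} (h : a ≠ 0 ∨ b ≠ 0) : 0 < normSq a + normSq b := by
  rcases h with h | h
  · exact add_pos_of_pos_of_nonneg (normSq_pos.2 h) (normSq_nonneg b)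
  · exact add_pos_of_nonneg_of_pos (normSq_nonneg a) (normSq_pos.2 h)

lemma Stable.real {Z : C5} (hZ : Stable Z) : StableR (hh Z) where
  nonneg k := normSq_nonneg _
  h02 := add_normSq_pos hZ.1
  h13 := add_normSq_pos hZ.2.1
  h24 := add_normSq_pos hZ.2.2.1
  h30 := add_normSq_pos hZ.2.2.2.1
  h41 := add_normSq_pos hZ.2.2.2.2

lemma isOpen_stable : IsOpen {Z : C5 | Stable Z} := by
  have h1 : ∀ k : Fin 5, IsOpen {Z : C5 | Z k ≠ 0} := fun _ =>
    isOpen_ne_fun (continuous_apply _) continuous_const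
  have h2 : ∀ k l : Fin 5, IsOpen {Z : C5 | Z k ≠ 0 ∨ Z l ≠ 0} := fun k l => (h1 k).union (h1 l)
  exact (h2 0 2).inter ((h2 1 3).inter ((h2 2 4).inter ((h2 3 0).inter (h2 4 1))))

open Classical in
/-- the solution of the moment map equation -/
noncomputable def T (Z : C5) : ℝ :=
  if hZ : ∃ t, 0 < t ∧ G (hh Z) t = 0 then hZ.choose else 1

lemma T_pos (Z : C5) : 0 < T Z := by
  unfold T
  split_ifs with h
  · exact h.choose_spec.1
  · exact one_pos

lemma T_root {Z : C5} (hZ : Stable Z) : G (hh Z) (T Z) = 0 := by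
  have h := exists_root hZ.real
  unfold T
  rw [dif_pos h]
  exact h.choose_spec.2

lemma T_unique {Z : C5} (hZ : Stable Z) {t : ℝ} (ht : 0 < t) (h : G (hh Z) t = 0) : T Z = t :=
  G_unique hZ.real (T_pos Z) ht (T_root hZ) h

lemma contDiff_hh (k : Fin 5) : ContDiff ℝ ω (fun Z : C5 => hh Z k) := by
  unfold hh
  have h1 : (fun Z : C5 => normSq (Z k)) = fun Z : C5 => (Z k).re * (Z k).re +
      (Z k).im * (Z k).im := by
    funext Z
    rw [normSq_apply]
  rw [h1]
  have h2 : ContDiff ℝ ω (fun Z : C5 => (Z k).re) :=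
    reCLM.contDiff.comp (contDiff_apply ℝ ℂ k)
  have h3 : ContDiff ℝ ω (fun Z : C5 => (Z k).im) :=
    imCLM.contDiff.comp (contDiff_apply ℝ ℂ k)
  exact (h2.mul h2).add (h3.mul h3)

lemma contDiff_GG : ContDiff ℝ ω (fun u : C5 × ℝ => G (hh u.1) u.2) := by
  unfold G
  have h1 : ∀ k, ContDiff ℝ ω (fun u : C5 × ℝ => hh u.1 k) := fun k =>
    (contDiff_hh k).comp contDiff_fst
  have h2 : ContDiff ℝ ω (fun u : C5 × ℝ => u.2) := contDiff_snd
  have a := h1 0
  have b := h1 1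
  have c := h1 2
  have d := h1 3
  have e := h1 4
  fun_prop

lemma isInvertible_of_ne {L : ℝ →L[ℝ] ℝ} (h : L 1 ≠ 0) : L.IsInvertible := by
  refine ⟨ContinuousLinearEquiv.unitsEquivAut ℝ (Units.mk0 _ h), ?_⟩
  ext
  simp

lemma smooth_T : ContDiffOn ℝ ω T {Z : C5 | Stable Z} := by
  intro Z hZ
  refine ContDiffAt.contDiffWithinAt ?_
  obtain ⟨f, hf⟩ : ∃ f : C5 × ℝ → ℝ, f = fun u => G (hh u.1) u.2 := ⟨_, rfl⟩
  have hf' : ∀ u, f u = G (hh u.1) u.2 := fun u => by rw [hf]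
  have cdf : ContDiffAt ℝ ω f (Z, T Z) := by
    rw [hf]
    exact contDiff_GG.contDiffAt
  have hinv : (fderiv ℝ f (Z, T Z) ∘L .inr ℝ C5 ℝ).IsInvertible := by
    apply isInvertible_of_ne
    have h1 : HasDerivAt (fun t => f (Z, t)) (fderiv ℝ f (Z, T Z) (0, 1)) (T Z) := by
      have h2 : HasFDerivAt f (fderiv ℝ f (Z, T Z)) (Z, T Z) :=
        (cdf.differentiableAt (by simp)).hasFDerivAt
      have h3 : HasDerivAt (fun t : ℝ => (Z, t)) ((0 : C5), (1 : ℝ)) (T Z) :=
        (hasDerivAt_const _ _).prodMk (hasDerivAt_id _)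
      exact h2.comp_hasDerivAt _ h3
    have h4 : HasDerivAt (fun t => f (Z, t)) (G' (hh Z) (T Z)) (T Z) := by
      have h5 : (fun t => f (Z, t)) = G (hh Z) := funext fun t => hf' _
      rw [h5]
      exact hasDerivAt_G _ _
    have h5 := h1.unique h4
    simp only [ContinuousLinearMap.comp_apply, ContinuousLinearMap.inr_apply]
    rw [h5]
    exact (G'_pos hZ.real (T_pos Z) (T_root hZ)).ne'
  have h6 := cdf.contDiffAt_implicitFunction (by simp) hinv
  refine h6.congr_of_eventuallyEq ?_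
  have h7 := cdf.eventually_apply_implicitFunction (by simp) hinv
  have h8 : ∀ᶠ x in 𝓝 Z, Stable x := isOpen_stable.mem_nhds hZ
  have h9 : ∀ᶠ x in 𝓝 Z, 0 < cdf.implicitFunction (by simp) hinv x := by
    have h10 := h6.continuousAt
    have h11 := cdf.implicitFunction_apply_self (by simp) hinv
    refine h10.eventually_const_lt ?_
    change 0 < cdf.implicitFunction (by simp) hinv (Z, T Z).1
    rw [h11]
    exact T_pos Z
  filter_upwards [h7, h8, h9] with x e1 e2 e3
  apply T_unique e2 e3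
  have e4 : f (Z, T Z) = 0 := (hf' _).trans (T_root hZ)
  rw [e4] at e1
  exact (hf' _).symm.trans e1

end Pool.Agent.N150.HS
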