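import Pool.Agent.N150.HS.Core
import Pool.Agent.N150.HS.Mom

/-! # The derivatives along a horizontal line -/

set_option autoImplicit false
set_option linter.unusedSectionVars false
set_option linter.deprecated false

open scoped ContDiff Topology ComplexConjugate
open Complex Set Filter

namespace Pool.Agent.N150.HS

/-- solutions of the moment map equations along a line -/
structure Moment (U : Set ℂ) (W X : C5) (P Q τ : ℂ → ℂ) : Prop where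
  hU : IsOpen U
  h0 : (0 : ℂ) ∈ U
  sP : Sm U P
  sQ : Sm U Q
  sτ : Sm U τ
  e1 : ∀ s ∈ U, P s * (Hf (W 2) (X 2) s + τ s * Hf (W 0) (X 0) s) = 2
  e2 : ∀ s ∈ U, Q s * (Hf (W 4) (X 4) s + τ s * Hf (W 1) (X 1) s) = 2
  e3 : ∀ s ∈ U, τ s * (P s * Hf (W 0) (X 0) s + Q s * Hf (W 1) (X 1) s + Hf (W 3) (X 3) s) = 3

/-- the line is horizontal -/
structure Hor (W X : C5) (p q t : ℝ) : Prop where
  hp : 0 < p
  hq : 0 < q
  ht : 0 < t
  o1 : X 2 * conj (W 2) + t * (X 0 * conj (W 0)) = 0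
  o2 : X 4 * conj (W 4) + t * (X 1 * conj (W 1)) = 0
  o3 : p * (X 0 * conj (W 0)) + q * (X 1 * conj (W 1)) + X 3 * conj (W 3) = 0

section

variable {U : Set ℂ} {W X : C5} {P Q τ : ℂ → ℂ} {p q t : ℝ}

lemma Hf_zero (w x : ℂ) : Hf w x 0 = (normSq w : ℂ) := by
  unfold Hf
  rw [zero_mul, add_zero, mul_conj]

lemma normSq_cast (x : ℂ) : x * conj x = (normSq x : ℂ) := mul_conj x

/-- linear algebra: the homogeneous equations -/
lemma lin_zero {α β κ p q t h0 h1 h2 h3 h4 : ℂ}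
    (e1 : p * (h2 + t * h0) = 2) (e2 : q * (h4 + t * h1) = 2)
    (hδ : (p ^ 2 * h0 * h2 + q ^ 2 * h1 * h4) / 2 + h3 ≠ 0)
    (a1 : p * (h0 * κ) + (h2 + t * h0) * α = 0) (a2 : q * (h1 * κ) + (h4 + t * h1) * β = 0)
    (a3 : t * (h0 * α + h1 * β) + (p * h0 + q * h1 + h3) * κ = 0) :
    α = 0 ∧ β = 0 ∧ κ = 0 := by
  have f1 : α = -(p ^ 2 * h0 / 2) * κ := by
    linear_combination (-α / 2) * e1 + (p / 2) * a1
  have f2 : β = -(q ^ 2 * h1 / 2) * κ := by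
    linear_combination (-β / 2) * e2 + (q / 2) * a2
  have f3 : ((p ^ 2 * h0 * h2 + q ^ 2 * h1 * h4) / 2 + h3) * κ = 0 := by
    rw [f1, f2] at a3
    linear_combination a3 + (p * h0 * κ / 2) * e1 + (q * h1 * κ / 2) * e2
  have f4 : κ = 0 := (mul_eq_zero.1 f3).resolve_left hδ
  rw [f4] at f1 f2
  exact ⟨by rw [f1, mul_zero], by rw [f2, mul_zero], f4⟩

lemma delta_pos (hW : Stable W) {p q : ℝ} (hp : 0 < p) (hq : 0 < q) :
    0 < (p ^ 2 * normSq (W 0) * normSq (W 2) + q ^ 2 * normSq (W 1) * normSq (W 4)) / 2 +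
      normSq (W 3) := by
  have h := D_pos hW.real (a := p ^ 2 / 2) (b := q ^ 2 / 2) (c := 1) (by positivity)
    (by positivity) one_pos
  have e : hh W 0 * hh W 2 * (p ^ 2 / 2) + hh W 1 * hh W 4 * (q ^ 2 / 2) + hh W 3 * 1 =
    (p ^ 2 * normSq (W 0) * normSq (W 2) + q ^ 2 * normSq (W 1) * normSq (W 4)) / 2 +
      normSq (W 3) := by
    unfold hh
    ring
  rwa [e] at h

lemma base_eqs (hM : Moment U W X P Q τ) (hP : P 0 = p) (hQ : Q 0 = q) (hτ : τ 0 = t) :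
    (p : ℂ) * ((normSq (W 2) : ℂ) + t * (normSq (W 0) : ℂ)) = 2 ∧
    (q : ℂ) * ((normSq (W 4) : ℂ) + t * (normSq (W 1) : ℂ)) = 2 ∧
    (t : ℂ) * (p * (normSq (W 0) : ℂ) + q * (normSq (W 1) : ℂ) + (normSq (W 3) : ℂ)) = 3 := by
  have h1 := hM.e1 0 hM.h0
  have h2 := hM.e2 0 hM.h0
  have h3 := hM.e3 0 hM.h0
  simp only [Hf_zero, hP, hQ, hτ] at h1 h2 h3
  exact ⟨h1, h2, h3⟩

lemma first_zero (hW : Stable W) (hM : Moment U W X P Q τ) (hH : Hor W X p q t)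
    (hP : P 0 = p) (hQ : Q 0 = q) (hτ : τ 0 = t) :
    (del 1 P 0 = 0 ∧ del 1 Q 0 = 0 ∧ del 1 τ 0 = 0) ∧
    (delb 1 P 0 = 0 ∧ delb 1 Q 0 = 0 ∧ delb 1 τ 0 = 0) := by
  obtain ⟨b1, b2, -⟩ := base_eqs hM hP hQ hτ
  have hδ : ((p : ℂ) ^ 2 * (normSq (W 0) : ℂ) * (normSq (W 2) : ℂ) +
      (q : ℂ) ^ 2 * (normSq (W 1) : ℂ) * (normSq (W 4) : ℂ)) / 2 + (normSq (W 3) : ℂ) ≠ 0 := by
    have := (delta_pos hW hH.hp hH.hq).ne'
    exact_mod_cast this
  have hU := hM.hU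
  have h0 := hM.h0
  have sP := hM.sP
  have sQ := hM.sQ
  have sτ := hM.sτ
  have sH : ∀ k, Sm U (Hf (W k) (X k)) := fun k => Hf_sm _ _
  have c1 : EqOn (fun s => P s * (Hf (W 2) (X 2) s + τ s * Hf (W 0) (X 0) s)) (fun _ => 2) U :=
    hM.e1
  have c2 : EqOn (fun s => Q s * (Hf (W 4) (X 4) s + τ s * Hf (W 1) (X 1) s)) (fun _ => 2) U :=
    hM.e2
  have c3 : EqOn (fun s => τ s * (P s * Hf (W 0) (X 0) s + Q s * Hf (W 1) (X 1) s +
    Hf (W 3) (X 3) s)) (fun _ => 3) U := hM.e3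
  have o1 := hH.o1
  have o2 := hH.o2
  have o3 := hH.o3
  have dP := sP.at hU h0
  have dQ := sQ.at hU h0
  have dτ := sτ.at hU h0
  have dH : ∀ k, DifferentiableAt ℝ (Hf (W k) (X k)) 0 := fun k => (sH k).at hU h0
  constructor
  · have a1 := del_eqOn hU (1 : ℂ) c1 h0
    have a2 := del_eqOn hU (1 : ℂ) c2 h0
    have a3 := del_eqOn hU (1 : ℂ) c3 h0
    rw [del_const, del_mul 1 dP ((dH 2).fun_add (dτ.fun_mul (dH 0))),
      del_add 1 (dH 2) (dτ.fun_mul (dH 0)), del_mul 1 dτ (dH 0), d_Hf, d_Hf, Hf_zero, Hf_zero,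
      hP, hτ] at a1
    rw [del_const, del_mul 1 dQ ((dH 4).fun_add (dτ.fun_mul (dH 1))),
      del_add 1 (dH 4) (dτ.fun_mul (dH 1)), del_mul 1 dτ (dH 1), d_Hf, d_Hf, Hf_zero, Hf_zero,
      hQ, hτ] at a2
    rw [del_const, del_mul 1 dτ (((dP.fun_mul (dH 0)).fun_add (dQ.fun_mul (dH 1))).fun_add (dH 3)),
      del_add 1 ((dP.fun_mul (dH 0)).fun_add (dQ.fun_mul (dH 1))) (dH 3),
      del_add 1 (dP.fun_mul (dH 0)) (dQ.fun_mul (dH 1)), del_mul 1 dP (dH 0),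
      del_mul 1 dQ (dH 1), d_Hf, d_Hf, d_Hf, Hf_zero, Hf_zero, Hf_zero, hP, hQ, hτ] at a3
    simp only [zero_mul, add_zero] at a1 a2 a3
    apply lin_zero b1 b2 hδ
    · linear_combination a1 - p * o1
    · linear_combination a2 - q * o2
    · linear_combination a3 - t * o3
  · have o1' := congrArg conj o1
    have o2' := congrArg conj o2
    have o3' := congrArg conj o3
    simp only [map_add, map_mul, conj_conj, conj_ofReal, map_zero] at o1' o2' o3'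
    have a1 := delb_eqOn hU (1 : ℂ) c1 h0
    have a2 := delb_eqOn hU (1 : ℂ) c2 h0
    have a3 := delb_eqOn hU (1 : ℂ) c3 h0
    rw [delb_const, delb_mul 1 dP ((dH 2).fun_add (dτ.fun_mul (dH 0))),
      delb_add 1 (dH 2) (dτ.fun_mul (dH 0)), delb_mul 1 dτ (dH 0), b_Hf, b_Hf, Hf_zero, Hf_zero,
      hP, hτ] at a1
    rw [delb_const, delb_mul 1 dQ ((dH 4).fun_add (dτ.fun_mul (dH 1))),
      delb_add 1 (dH 4) (dτ.fun_mul (dH 1)), delb_mul 1 dτ (dH 1), b_Hf, b_Hf, Hf_zero, Hf_zero,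
      hQ, hτ] at a2
    rw [delb_const, delb_mul 1 dτ
      (((dP.fun_mul (dH 0)).fun_add (dQ.fun_mul (dH 1))).fun_add (dH 3)),
      delb_add 1 ((dP.fun_mul (dH 0)).fun_add (dQ.fun_mul (dH 1))) (dH 3),
      delb_add 1 (dP.fun_mul (dH 0)) (dQ.fun_mul (dH 1)), delb_mul 1 dP (dH 0),
      delb_mul 1 dQ (dH 1), b_Hf, b_Hf, b_Hf, Hf_zero, Hf_zero, Hf_zero, hP, hQ, hτ] at a3
    simp only [zero_mul, add_zero] at a1 a2 a3
    apply lin_zero b1 b2 hδ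
    · linear_combination a1 - p * o1'
    · linear_combination a2 - q * o2'
    · linear_combination a3 - t * o3'

/-- the equations for `∂ ∂̄ P`, `∂ ∂̄ Q`, `∂ ∂̄ τ` -/
lemma second_eqs (hW : Stable W) (hM : Moment U W X P Q τ) (hH : Hor W X p q t)
    (hP : P 0 = p) (hQ : Q 0 = q) (hτ : τ 0 = t) :
    (p : ℂ) * ((normSq (X 2) : ℂ) + t * (normSq (X 0) : ℂ) + (normSq (W 0) : ℂ) * LL τ 0) +
      ((normSq (W 2) : ℂ) + t * (normSq (W 0) : ℂ)) * LL P 0 = 0 ∧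
    (q : ℂ) * ((normSq (X 4) : ℂ) + t * (normSq (X 1) : ℂ) + (normSq (W 1) : ℂ) * LL τ 0) +
      ((normSq (W 4) : ℂ) + t * (normSq (W 1) : ℂ)) * LL Q 0 = 0 ∧
    (t : ℂ) * ((p * (normSq (X 0) : ℂ) + (normSq (W 0) : ℂ) * LL P 0) +
      (q * (normSq (X 1) : ℂ) + (normSq (W 1) : ℂ) * LL Q 0) + (normSq (X 3) : ℂ)) +
      (p * (normSq (W 0) : ℂ) + q * (normSq (W 1) : ℂ) + (normSq (W 3) : ℂ)) * LL τ 0 = 0 := by
  obtain ⟨⟨f1, f2, f3⟩, g1, g2, g3⟩ := first_zero hW hM hH hP hQ hτ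
  have hU := hM.hU
  have h0 := hM.h0
  have sP := hM.sP
  have sQ := hM.sQ
  have sτ := hM.sτ
  have sH : ∀ k, Sm U (Hf (W k) (X k)) := fun k => Hf_sm _ _
  have c1 : EqOn (fun s => P s * (Hf (W 2) (X 2) s + τ s * Hf (W 0) (X 0) s)) (fun _ => 2) U :=
    hM.e1
  have c2 : EqOn (fun s => Q s * (Hf (W 4) (X 4) s + τ s * Hf (W 1) (X 1) s)) (fun _ => 2) U :=
    hM.e2
  have c3 : EqOn (fun s => τ s * (P s * Hf (W 0) (X 0) s + Q s * Hf (W 1) (X 1) s +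
    Hf (W 3) (X 3) s)) (fun _ => 3) U := hM.e3
  refine ⟨?_, ?_, ?_⟩
  · have a := LL_eqOn hU c1 h0
    rw [LL_const, LL_mul hU sP ((sH 2).a (sτ.m (sH 0))) h0, LL_add hU (sH 2) (sτ.m (sH 0)) h0,
      LL_mul hU sτ (sH 0) h0, f1, g1, f3, g3, LL_Hf, LL_Hf, Hf_zero, Hf_zero, hP, hτ,
      normSq_cast, normSq_cast] at a
    linear_combination a
  · have a := LL_eqOn hU c2 h0
    rw [LL_const, LL_mul hU sQ ((sH 4).a (sτ.m (sH 1))) h0, LL_add hU (sH 4) (sτ.m (sH 1)) h0,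
      LL_mul hU sτ (sH 1) h0, f2, g2, f3, g3, LL_Hf, LL_Hf, Hf_zero, Hf_zero, hQ, hτ,
      normSq_cast, normSq_cast] at a
    linear_combination a
  · have a := LL_eqOn hU c3 h0
    rw [LL_const, LL_mul hU sτ (((sP.m (sH 0)).a (sQ.m (sH 1))).a (sH 3)) h0,
      LL_add hU ((sP.m (sH 0)).a (sQ.m (sH 1))) (sH 3) h0,
      LL_add hU (sP.m (sH 0)) (sQ.m (sH 1)) h0,
      LL_mul hU sP (sH 0) h0, LL_mul hU sQ (sH 1) h0, f1, g1, f2, g2, f3, g3, LL_Hf, LL_Hf,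
      LL_Hf, Hf_zero, Hf_zero, Hf_zero, hP, hQ, hτ, normSq_cast, normSq_cast, normSq_cast] at a
    linear_combination a

/-- linear algebra: the inhomogeneous equations -/
lemma lin_neg {p q t h0 h1 h2 h3 h4 x0 x1 x2 x3 x4 : ℝ} {p2 q2 t2 : ℂ} (hp : 0 < p) (hq : 0 < q)
    (ht : 0 < t) (n0 : 0 ≤ x0) (n1 : 0 ≤ x1) (n2 : 0 ≤ x2) (n4 : 0 ≤ x4)
    (hx : 0 < x0 + x1 + x2 + x3 + x4)
    (e1 : (p : ℂ) * (h2 + t * h0) = 2) (e2 : (q : ℂ) * (h4 + t * h1) = 2)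
    (hδ : 0 < (p ^ 2 * h0 * h2 + q ^ 2 * h1 * h4) / 2 + h3)
    (a1 : (p : ℂ) * (x2 + t * x0 + h0 * t2) + (h2 + t * h0) * p2 = 0)
    (a2 : (q : ℂ) * (x4 + t * x1 + h1 * t2) + (h4 + t * h1) * q2 = 0)
    (a3 : (t : ℂ) * ((p * x0 + h0 * p2) + (q * x1 + h1 * q2) + x3) +
      (p * h0 + q * h1 + h3) * t2 = 0) :
    (p2 * (x2 + t * x0) + q2 * (x4 + t * x1) + t2 * (p * x0 + q * x1 + x3)).re < 0 := by
  have f1 : p2 = -(p ^ 2 / 2) * (x2 + t * x0 + h0 * t2) := by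
    linear_combination (-p2 / 2) * e1 + (p / 2 : ℂ) * a1
  have f2 : q2 = -(q ^ 2 / 2) * (x4 + t * x1 + h1 * t2) := by
    linear_combination (-q2 / 2) * e2 + (q / 2 : ℂ) * a2
  obtain ⟨δ, hδd⟩ : ∃ δ : ℝ, δ = (p ^ 2 * h0 * h2 + q ^ 2 * h1 * h4) / 2 + h3 := ⟨_, rfl⟩
  obtain ⟨r, hr⟩ : ∃ r : ℝ, r = (p ^ 2 / 2) * h0 * (x2 + t * x0) +
      (q ^ 2 / 2) * h1 * (x4 + t * x1) - (p * x0 + q * x1 + x3) := ⟨_, rfl⟩
  rw [← hδd] at hδ
  have f3 : (δ : ℂ) * t2 = t * r := by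
    rw [f1, f2] at a3
    rw [hδd, hr]
    push_cast
    linear_combination a3 + (p * h0 * t2 / 2 : ℂ) * e1 + (q * h1 * t2 / 2 : ℂ) * e2
  obtain ⟨y, hy⟩ : ∃ y : ℝ, y = t * r / δ := ⟨_, rfl⟩
  have f4 : t2 = (y : ℂ) := by
    have hδ' : (δ : ℂ) ≠ 0 := by exact_mod_cast hδ.ne'
    rw [hy]
    push_cast
    rw [eq_div_iff hδ']
    linear_combination f3
  have f5 : p2 * (x2 + t * x0) + q2 * (x4 + t * x1) + t2 * (p * x0 + q * x1 + x3) =
      ((-(p ^ 2 / 2) * (x2 + t * x0) ^ 2 - (q ^ 2 / 2) * (x4 + t * x1) ^ 2 - δ * y ^ 2 / t : ℝ) :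
        ℂ) := by
    have ht' : (t : ℂ) ≠ 0 := by exact_mod_cast ht.ne'
    have f6 : (δ * y ^ 2 / t : ℝ) = y * r := by
      rw [hy]
      field_simp
    rw [f6, f1, f2, f4, hr]
    push_cast
    ring
  rw [f5, ofReal_re]
  have hy2 : 0 ≤ δ * y ^ 2 / t := by positivity
  have g1 : 0 ≤ (p ^ 2 / 2) * (x2 + t * x0) ^ 2 := by positivity
  have g2 : 0 ≤ (q ^ 2 / 2) * (x4 + t * x1) ^ 2 := by positivity
  by_contra hcon
  push Not at hcon
  have k1 : (p ^ 2 / 2) * (x2 + t * x0) ^ 2 = 0 := by nlinarith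
  have k2 : (q ^ 2 / 2) * (x4 + t * x1) ^ 2 = 0 := by nlinarith
  have k3 : δ * y ^ 2 / t = 0 := by nlinarith
  have l1 : x2 + t * x0 = 0 := by
    have : (x2 + t * x0) ^ 2 = 0 := (mul_eq_zero.1 k1).resolve_left (by positivity)
    exact pow_eq_zero_iff (two_ne_zero) |>.1 this
  have l2 : x4 + t * x1 = 0 := by
    have : (x4 + t * x1) ^ 2 = 0 := (mul_eq_zero.1 k2).resolve_left (by positivity)
    exact pow_eq_zero_iff (two_ne_zero) |>.1 this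
  have l3 : y = 0 := by
    have h1 : δ * y ^ 2 = 0 := (div_eq_zero_iff.1 k3).resolve_right ht.ne'
    have h2 : y ^ 2 = 0 := (mul_eq_zero.1 h1).resolve_left hδ.ne'
    exact pow_eq_zero_iff (two_ne_zero) |>.1 h2
  have m0 : 0 ≤ t * x0 := by positivity
  have m1 : 0 ≤ t * x1 := by positivity
  have z2 : x2 = 0 := by linarith
  have z4 : x4 = 0 := by linarith
  have z0 : x0 = 0 := by
    have : t * x0 = 0 := by linarith
    exact (mul_eq_zero.1 this).resolve_left ht.ne'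
  have z1 : x1 = 0 := by
    have : t * x1 = 0 := by linarith
    exact (mul_eq_zero.1 this).resolve_left ht.ne'
  have z3 : x3 = 0 := by
    have h1 : t * r = 0 := by
      rw [hy, div_eq_zero_iff] at l3
      exact l3.resolve_right hδ.ne'
    have h2 : r = 0 := (mul_eq_zero.1 h1).resolve_left ht.ne'
    rw [hr, l1, l2, z0, z1] at h2
    linarith
  rw [z0, z1, z2, z3, z4] at hx
  norm_num at hx

/-- the derivative `∂̄` of the potential along the line -/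
noncomputable def AA (W X : C5) (P Q τ : ℂ → ℂ) (s : ℂ) : ℂ :=
  P s * (conj (X 2) * (W 2 + s * X 2)) + P s * τ s * (conj (X 0) * (W 0 + s * X 0)) +
    (Q s * (conj (X 4) * (W 4 + s * X 4)) + Q s * τ s * (conj (X 1) * (W 1 + s * X 1))) +
    τ s * (conj (X 3) * (W 3 + s * X 3))

lemma del_mul_aff (hU : IsOpen U) {f : ℂ → ℂ} (hf : Sm U f) (c w x : ℂ) {s : ℂ} (hs : s ∈ U) :
    del 1 (fun s => f s * (c * (w + s * x))) s = f s * (c * x) + (c * (w + s * x)) * del 1 f s := by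
  have ha : Sm U (fun s : ℂ => c * (w + s * x)) := contDiffOn_const.mul (aff_sm w x)
  rw [del_mul 1 (hf.at hU hs) (ha.at hU hs),
    del_const_mul 1 c ((aff_sm (U := univ) w x).at isOpen_univ (mem_univ s)), d_aff]

lemma AA_one (hW : Stable W) (hM : Moment U W X P Q τ) (hH : Hor W X p q t)
    (hP : P 0 = p) (hQ : Q 0 = q) (hτ : τ 0 = t) :
    del 1 (AA W X P Q τ) 0 = ((p * (normSq (X 2) + t * normSq (X 0)) +
      q * (normSq (X 4) + t * normSq (X 1)) + t * normSq (X 3) : ℝ) : ℂ) := by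
  obtain ⟨⟨f1, f2, f3⟩, -⟩ := first_zero hW hM hH hP hQ hτ
  have hU := hM.hU
  have h0 := hM.h0
  have sP := hM.sP
  have sQ := hM.sQ
  have sτ := hM.sτ
  have sa : ∀ c w x : ℂ, Sm U (fun s : ℂ => c * (w + s * x)) := fun c w x =>
    contDiffOn_const.mul (aff_sm w x)
  have s1 := sP.m (sa (conj (X 2)) (W 2) (X 2))
  have s2 := (sP.m sτ).m (sa (conj (X 0)) (W 0) (X 0))
  have s3 := sQ.m (sa (conj (X 4)) (W 4) (X 4))
  have s4 := (sQ.m sτ).m (sa (conj (X 1)) (W 1) (X 1))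
  have s5 := sτ.m (sa (conj (X 3)) (W 3) (X 3))
  have e : AA W X P Q τ = fun s => P s * (conj (X 2) * (W 2 + s * X 2)) +
      P s * τ s * (conj (X 0) * (W 0 + s * X 0)) +
    (Q s * (conj (X 4) * (W 4 + s * X 4)) + Q s * τ s * (conj (X 1) * (W 1 + s * X 1))) +
    τ s * (conj (X 3) * (W 3 + s * X 3)) := rfl
  rw [e, del_add 1 (((s1.a s2).a (s3.a s4)).at hU h0) (s5.at hU h0),
    del_add 1 ((s1.a s2).at hU h0) ((s3.a s4).at hU h0), del_add 1 (s1.at hU h0) (s2.at hU h0),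
    del_add 1 (s3.at hU h0) (s4.at hU h0), del_mul_aff hU sP _ _ _ h0,
    del_mul_aff hU (sP.m sτ) _ _ _ h0, del_mul_aff hU sQ _ _ _ h0,
    del_mul_aff hU (sQ.m sτ) _ _ _ h0, del_mul_aff hU sτ _ _ _ h0,
    del_mul 1 (sP.at hU h0) (sτ.at hU h0), del_mul 1 (sQ.at hU h0) (sτ.at hU h0), f1, f2, f3,
    hP, hQ, hτ]
  push_cast
  rw [← normSq_cast, ← normSq_cast, ← normSq_cast, ← normSq_cast, ← normSq_cast]
  ring

lemma AA_three (hW : Stable W) (hM : Moment U W X P Q τ) (hH : Hor W X p q t)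
    (hP : P 0 = p) (hQ : Q 0 = q) (hτ : τ 0 = t) (hX : X ≠ 0) :
    (LL (del 1 (AA W X P Q τ)) 0).re < 0 := by
  obtain ⟨⟨f1, f2, f3⟩, g1, g2, g3⟩ := first_zero hW hM hH hP hQ hτ
  obtain ⟨b1, b2, b3⟩ := base_eqs hM hP hQ hτ
  obtain ⟨a1, a2, a3⟩ := second_eqs hW hM hH hP hQ hτ
  have hU := hM.hU
  have h0 := hM.h0
  have sP := hM.sP
  have sQ := hM.sQ
  have sτ := hM.sτ
  have sa : ∀ c w x : ℂ, Sm U (fun s : ℂ => c * (w + s * x)) := fun c w x =>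
    contDiffOn_const.mul (aff_sm w x)
  have s1 := sP.m (sa (conj (X 2)) (W 2) (X 2))
  have s2 := (sP.m sτ).m (sa (conj (X 0)) (W 0) (X 0))
  have s3 := sQ.m (sa (conj (X 4)) (W 4) (X 4))
  have s4 := (sQ.m sτ).m (sa (conj (X 1)) (W 1) (X 1))
  have s5 := sτ.m (sa (conj (X 3)) (W 3) (X 3))
  have e : EqOn (del 1 (AA W X P Q τ)) (fun s =>
      del 1 (fun s => P s * (conj (X 2) * (W 2 + s * X 2))) s +
      del 1 (fun s => P s * τ s * (conj (X 0) * (W 0 + s * X 0))) s +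
      (del 1 (fun s => Q s * (conj (X 4) * (W 4 + s * X 4))) s +
        del 1 (fun s => Q s * τ s * (conj (X 1) * (W 1 + s * X 1))) s) +
      del 1 (fun s => τ s * (conj (X 3) * (W 3 + s * X 3))) s) U := by
    intro x hx
    have e : AA W X P Q τ = fun s => P s * (conj (X 2) * (W 2 + s * X 2)) +
        P s * τ s * (conj (X 0) * (W 0 + s * X 0)) +
      (Q s * (conj (X 4) * (W 4 + s * X 4)) + Q s * τ s * (conj (X 1) * (W 1 + s * X 1))) +
      τ s * (conj (X 3) * (W 3 + s * X 3)) := rfl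
    rw [e, del_add 1 (((s1.a s2).a (s3.a s4)).at hU hx) (s5.at hU hx),
      del_add 1 ((s1.a s2).at hU hx) ((s3.a s4).at hU hx), del_add 1 (s1.at hU hx) (s2.at hU hx),
      del_add 1 (s3.at hU hx) (s4.at hU hx)]
  rw [LL_eqOn hU e h0, LL_add hU (((s1.d hU).a (s2.d hU)).a ((s3.d hU).a (s4.d hU))) (s5.d hU) h0,
    LL_add hU ((s1.d hU).a (s2.d hU)) ((s3.d hU).a (s4.d hU)) h0,
    LL_add hU (s1.d hU) (s2.d hU) h0, LL_add hU (s3.d hU) (s4.d hU) h0,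
    third_mul_aff hU sP _ _ _ h0, third_mul_aff hU (sP.m sτ) _ _ _ h0,
    third_mul_aff hU sQ _ _ _ h0, third_mul_aff hU (sQ.m sτ) _ _ _ h0,
    third_mul_aff hU sτ _ _ _ h0, third_mul hU sP sτ h0 f1 g1 f3 g3,
    third_mul hU sQ sτ h0 f2 g2 f3 g3, LL_mul hU sP sτ h0, LL_mul hU sQ sτ h0, f1, g1, f2, g2,
    f3, g3, hP, hQ, hτ]
  have o1 := congrArg conj hH.o1
  have o2 := congrArg conj hH.o2
  have o3 := congrArg conj hH.o3
  simp only [map_add, map_mul, conj_conj, conj_ofReal, map_zero] at o1 o2 o3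
  have hδ := delta_pos hW hH.hp hH.hq
  have key := lin_neg (p2 := LL P 0) (q2 := LL Q 0) (t2 := LL τ 0) hH.hp hH.hq hH.ht
    (normSq_nonneg (X 0)) (normSq_nonneg (X 1)) (normSq_nonneg (X 2)) (normSq_nonneg (X 4))
    (by
      have hn : ∀ k, 0 ≤ normSq (X k) := fun k => normSq_nonneg _
      by_contra hcon
      push Not at hcon
      apply hX
      funext k
      have h0 := hn 0
      have h1 := hn 1
      have h2 := hn 2
      have h3 := hn 3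
      have h4 := hn 4
      have : normSq (X k) = 0 := by
        fin_cases k
        · show normSq (X 0) = 0
          linarith
        · show normSq (X 1) = 0
          linarith
        · show normSq (X 2) = 0
          linarith
        · show normSq (X 3) = 0
          linarith
        · show normSq (X 4) = 0
          linarith
      exact normSq_eq_zero.1 this) b1 b2 hδ a1 a2 a3
  have key2 : (2 * (LL P 0 * ((normSq (X 2) : ℂ) + t * (normSq (X 0) : ℂ)) +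
      LL Q 0 * ((normSq (X 4) : ℂ) + t * (normSq (X 1) : ℂ)) +
      LL τ 0 * (p * (normSq (X 0) : ℂ) + q * (normSq (X 1) : ℂ) + (normSq (X 3) : ℂ)))).re < 0 := by
    rw [← ofReal_ofNat, re_ofReal_mul]
    linarith
  convert key2 using 2
  rw [← normSq_cast, ← normSq_cast, ← normSq_cast, ← normSq_cast, ← normSq_cast]
  linear_combination LL (del 1 P) 0 * o1 + LL (del 1 Q) 0 * o2 + LL (del 1 τ) 0 * o3

end

end Pool.Agent.N150.HS
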