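import Pool.Agent.N150.HS.Blow

/-! # The metric -/

set_option autoImplicit false
set_option linter.unusedSectionVars false
set_option linter.deprecated false

open scoped Manifold ContDiff Topology ComplexConjugate
open Complex Set Filter

namespace Pool.Agent.N150.HS

open Classical in
/-- the components of the metric -/
noncomputable def comp (e : OpenPartialHomeomorph Surf C2) (z : C2) : Matrix (Fin 2) (Fin 2) ℂ :=
  if h : ∃ j, ch j = e then levi (phi h.choose) z else 0

lemma comp_eq {e : OpenPartialHomeomorph Surf C2} (he : e ∈ atlas C2 Surf) :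
    ∃ j, ch j = e ∧ comp e = levi (phi j) := by
  have h : ∃ j, ch j = e := he
  refine ⟨h.choose, h.choose_spec, ?_⟩
  funext z
  exact dif_pos h

/-- the metric -/
noncomputable def metric : KahlerMetric Surf where
  g := comp
  smooth e he i j := by
    obtain ⟨k, -, h⟩ := comp_eq he
    rw [h]
    exact (smooth_levi (phi_smooth k) i j).contDiffOn
  hermitian e he z _ i j := by
    obtain ⟨k, -, h⟩ := comp_eq he
    rw [h]
    exact levi_hermitian (phi_smooth k) (phi_real k) z i j
  positive e he z _ v hv := by
    obtain ⟨k, -, h⟩ := comp_eq he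
    rw [h]
    exact phi_pos k z v hv
  kahler e he z _ i j k := by
    obtain ⟨l, -, h⟩ := comp_eq he
    rw [h]
    exact levi_kahler (phi_smooth l) z i j k
  isometry e he e' he' z _ hz v w := by
    obtain ⟨i, hi, h⟩ := comp_eq he
    obtain ⟨j, hj, h'⟩ := comp_eq he'
    rw [h, h']
    subst hi hj
    exact iso_all (i := i) (j := j) (p := z) hz v w

theorem metric_pos : metric.PositiveHSC := by
  intro e he z _ v hv
  obtain ⟨k, -, h⟩ := comp_eq he
  show 0 < hsc (comp e) z v
  rw [h]
  exact phi_hsc k z v hv

/-- **A blow-up of a Hirzebruch surface with a Kähler metric of positive holomorphic sectional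
curvature.** -/
theorem main : ∃ (X : Type) (_ : TopologicalSpace X) (_ : ChartedSpace C2 X),
    IsManifold 𝓘(ℂ, C2) ω X ∧ CompactSpace X ∧ T2Space X ∧ ConnectedSpace X ∧
      (∃ (β : X → F0) (p : F0), IsBlowUp β p) ∧ ∃ g : KahlerMetric X, g.PositiveHSC :=
  ⟨Surf, inferInstance, inferInstance, inferInstance, inferInstance, inferInstance, inferInstance,
    ⟨beta, _, isBlowUp_beta⟩, metric, metric_pos⟩

end Pool.Agent.N150.HS
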