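import Pool.Agent.N150.HS.Line
import Pool.Agent.N150.HS.Disc

/-! # The potential -/

set_option autoImplicit false
set_option linter.unusedSectionVars false
set_option linter.deprecated false

open scoped ContDiff Topology ComplexConjugate
open Complex Set Filter

namespace Pool.Agent.N150.HS

/-- the potential in homogeneous coordinates -/
noncomputable def Psi (Z : C5) : ℝ :=
  2 * Real.log (hh Z 2 + T Z * hh Z 0) + 2 * Real.log (hh Z 4 + T Z * hh Z 1) + T Z * hh Z 3 -
    3 * Real.log (T Z)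

/-- the action of the torus -/
def act (μ : Fin 3 → ℂ) (Z : C5) : C5 :=
  ![μ 0 * μ 2 * Z 0, μ 1 * μ 2 * Z 1, μ 0 * Z 2, μ 2 * Z 3, μ 1 * Z 4]

lemma act_0 (μ : Fin 3 → ℂ) (Z : C5) : act μ Z 0 = μ 0 * μ 2 * Z 0 := rfl
lemma act_1 (μ : Fin 3 → ℂ) (Z : C5) : act μ Z 1 = μ 1 * μ 2 * Z 1 := rfl
lemma act_2 (μ : Fin 3 → ℂ) (Z : C5) : act μ Z 2 = μ 0 * Z 2 := rfl
lemma act_3 (μ : Fin 3 → ℂ) (Z : C5) : act μ Z 3 = μ 2 * Z 3 := rfl
lemma act_4 (μ : Fin 3 → ℂ) (Z : C5) : act μ Z 4 = μ 1 * Z 4 := rfl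

lemma act_ne {μ : Fin 3 → ℂ} (hμ : ∀ i, μ i ≠ 0) (Z : C5) (k : Fin 5) :
    act μ Z k ≠ 0 ↔ Z k ≠ 0 := by
  have h0 := hμ 0
  have h1 := hμ 1
  have h2 := hμ 2
  fin_cases k
  · show act μ Z 0 ≠ 0 ↔ Z 0 ≠ 0
    rw [act_0]; simp [h0, h2]
  · show act μ Z 1 ≠ 0 ↔ Z 1 ≠ 0
    rw [act_1]; simp [h1, h2]
  · show act μ Z 2 ≠ 0 ↔ Z 2 ≠ 0
    rw [act_2]; simp [h0]
  · show act μ Z 3 ≠ 0 ↔ Z 3 ≠ 0
    rw [act_3]; simp [h2]
  · show act μ Z 4 ≠ 0 ↔ Z 4 ≠ 0
    rw [act_4]; simp [h1]

lemma Stable.act {μ : Fin 3 → ℂ} (hμ : ∀ i, μ i ≠ 0) {Z : C5} (hZ : Stable Z) :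
    Stable (act μ Z) := by
  unfold Stable at hZ ⊢
  simp only [act_ne hμ]
  exact hZ

lemma hh_act_0 (μ : Fin 3 → ℂ) (Z : C5) : hh (act μ Z) 0 = normSq (μ 0) * normSq (μ 2) * hh Z 0 := by
  unfold hh; rw [act_0]; simp only [map_mul]
lemma hh_act_1 (μ : Fin 3 → ℂ) (Z : C5) : hh (act μ Z) 1 = normSq (μ 1) * normSq (μ 2) * hh Z 1 := by
  unfold hh; rw [act_1]; simp only [map_mul]
lemma hh_act_2 (μ : Fin 3 → ℂ) (Z : C5) : hh (act μ Z) 2 = normSq (μ 0) * hh Z 2 := by
  unfold hh; rw [act_2]; simp only [map_mul]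
lemma hh_act_3 (μ : Fin 3 → ℂ) (Z : C5) : hh (act μ Z) 3 = normSq (μ 2) * hh Z 3 := by
  unfold hh; rw [act_3]; simp only [map_mul]
lemma hh_act_4 (μ : Fin 3 → ℂ) (Z : C5) : hh (act μ Z) 4 = normSq (μ 1) * hh Z 4 := by
  unfold hh; rw [act_4]; simp only [map_mul]

lemma T_act {μ : Fin 3 → ℂ} (hμ : ∀ i, μ i ≠ 0) {Z : C5} (hZ : Stable Z) :
    T (act μ Z) = T Z / normSq (μ 2) := by
  have p2 : 0 < normSq (μ 2) := normSq_pos.2 (hμ 2)
  have n2 := p2.ne'
  apply T_unique (hZ.act hμ) (div_pos (T_pos Z) p2)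
  have h1 := T_root hZ
  have h2 : G (hh (act μ Z)) (T Z / normSq (μ 2)) = normSq (μ 0) * normSq (μ 1) * G (hh Z) (T Z) := by
    unfold G
    rw [hh_act_0, hh_act_1, hh_act_2, hh_act_3, hh_act_4]
    generalize normSq (μ 0) = m0
    generalize normSq (μ 1) = m1
    generalize normSq (μ 2) = m2 at n2
    generalize T Z = t
    have e0 : t / m2 * (m0 * m2 * hh Z 0) = t * m0 * hh Z 0 := by field_simp
    have e1 : t / m2 * (m1 * m2 * hh Z 1) = t * m1 * hh Z 1 := by field_simp
    have e3 : t / m2 * (m2 * hh Z 3) = t * hh Z 3 := by field_simp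
    have e4 : 2 * (t / m2) * (m0 * m2 * hh Z 0) = 2 * (t * m0 * hh Z 0) := by rw [← e0]; ring
    have e5 : 2 * (t / m2) * (m1 * m2 * hh Z 1) = 2 * (t * m1 * hh Z 1) := by rw [← e1]; ring
    rw [e0, e1, e3, e4, e5]
    ring
  rw [h2, h1, mul_zero]

lemma Psi_act {μ : Fin 3 → ℂ} (hμ : ∀ i, μ i ≠ 0) {Z : C5} (hZ : Stable Z) :
    Psi (act μ Z) = Psi Z + (2 * Real.log (normSq (μ 0)) + 2 * Real.log (normSq (μ 1)) +
      3 * Real.log (normSq (μ 2))) := by
  have p0 : 0 < normSq (μ 0) := normSq_pos.2 (hμ 0)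
  have p1 : 0 < normSq (μ 1) := normSq_pos.2 (hμ 1)
  have p2 : 0 < normSq (μ 2) := normSq_pos.2 (hμ 2)
  have hA := A_pos hZ.real (T_pos Z)
  have hB := B_pos hZ.real (T_pos Z)
  have hT := T_pos Z
  unfold Psi
  rw [T_act hμ hZ, hh_act_0, hh_act_1, hh_act_2, hh_act_3, hh_act_4]
  have e1 : normSq (μ 0) * hh Z 2 + T Z / normSq (μ 2) * (normSq (μ 0) * normSq (μ 2) * hh Z 0) =
      normSq (μ 0) * (hh Z 2 + T Z * hh Z 0) := by
    field_simp
  have e2 : normSq (μ 1) * hh Z 4 + T Z / normSq (μ 2) * (normSq (μ 1) * normSq (μ 2) * hh Z 1) =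
      normSq (μ 1) * (hh Z 4 + T Z * hh Z 1) := by
    field_simp
  have e3 : T Z / normSq (μ 2) * (normSq (μ 2) * hh Z 3) = T Z * hh Z 3 := by
    field_simp
  rw [e1, e2, e3, Real.log_mul p0.ne' hA.ne', Real.log_mul p1.ne' hB.ne',
    Real.log_div hT.ne' p2.ne']
  ring

/-! ### The potential is smooth -/

lemma smooth_Psi : ContDiffOn ℝ ω Psi {Z : C5 | Stable Z} := by
  have hT := smooth_T
  have hk : ∀ k, ContDiffOn ℝ ω (fun Z : C5 => hh Z k) {Z : C5 | Stable Z} := fun k =>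
    (contDiff_hh k).contDiffOn
  have h1 : ContDiffOn ℝ ω (fun Z => Real.log (hh Z 2 + T Z * hh Z 0)) {Z : C5 | Stable Z} :=
    ((hk 2).add (hT.mul (hk 0))).log fun Z hZ => (A_pos (Stable.real hZ) (T_pos Z)).ne'
  have h2 : ContDiffOn ℝ ω (fun Z => Real.log (hh Z 4 + T Z * hh Z 1)) {Z : C5 | Stable Z} :=
    ((hk 4).add (hT.mul (hk 1))).log fun Z hZ => (B_pos (Stable.real hZ) (T_pos Z)).ne'
  have h3 : ContDiffOn ℝ ω (fun Z => Real.log (T Z)) {Z : C5 | Stable Z} :=
    hT.log fun Z _ => (T_pos Z).ne'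
  exact (((contDiffOn_const.mul h1).add (contDiffOn_const.mul h2)).add (hT.mul (hk 3))).sub
    (contDiffOn_const.mul h3)

/-! ### Pluriharmonic functions -/

lemma diff_normSq {h : ℂ → ℂ} {s : ℂ} (hh : DifferentiableAt ℝ h s) :
    DifferentiableAt ℝ (fun s => normSq (h s)) s := by
  have h1 : (fun s => normSq (h s)) = fun s => (h s).re * (h s).re + (h s).im * (h s).im := by
    funext s
    rw [normSq_apply]
  rw [h1]
  have h2 : DifferentiableAt ℝ (fun s => (h s).re) s := reCLM.differentiableAt.comp s hh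
  have h3 : DifferentiableAt ℝ (fun s => (h s).im) s := imCLM.differentiableAt.comp s hh
  exact (h2.mul h2).add (h3.mul h3)

/-- `log |h|²` is harmonic -/
lemma LL_log_normSq {U : Set ℂ} (hU : IsOpen U) {h : ℂ → ℂ} (hh : DifferentiableOn ℂ h U)
    (h0 : ∀ s ∈ U, h s ≠ 0) {s : ℂ} (hs : s ∈ U) :
    LL (fun s => ((Real.log (normSq (h s)) : ℝ) : ℂ)) s = 0 := by
  have hsm : Sm U h := smooth_holo hU hh
  have e : EqOn (delb 1 (fun s => ((Real.log (normSq (h s)) : ℝ) : ℂ)))
      (fun s => conj (deriv h s / h s)) U := by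
    intro x hx
    have hx0 := h0 x hx
    have hd := hh.differentiableAt (hU.mem_nhds hx)
    have e1 : (fun x => ((normSq (h x) : ℝ) : ℂ)) = fun x => h x * conj (h x) := by
      funext y
      rw [mul_conj]
    rw [delb_log (diff_normSq (hsm.at hU hx)) (normSq_pos.2 hx0).ne', e1,
      delb_mul 1 (hsm.at hU hx) (smooth_diff hU (smooth_conj hsm) hx), delb_of_holo 1 hd,
      delb_conj_of_holo 1 hd, fderiv_apply_one_eq_deriv, ← mul_conj]
    have hx1 : conj (h x) ≠ 0 := (map_ne_zero _).2 hx0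
    simp only [map_div₀]
    field_simp
    ring
  change del 1 (delb 1 (fun s => ((Real.log (normSq (h s)) : ℝ) : ℂ))) s = 0
  rw [del_eqOn hU 1 e hs]
  exact del_conj_of_holo 1 (((hh.deriv hU).differentiableAt (hU.mem_nhds hs)).div
    (hh.differentiableAt (hU.mem_nhds hs)) (h0 s hs))

/-- adding the logarithms of absolute values of holomorphic functions does not change `∂ ∂̄` -/
lemma LL_add_log {U : Set ℂ} (hU : IsOpen U) {f g : ℂ → ℂ} {μ : ℂ → Fin 3 → ℂ}
    (hμ : ∀ i, DifferentiableOn ℂ (fun s => μ s i) U) (h0 : ∀ s ∈ U, ∀ i, μ s i ≠ 0)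
    (hf : Sm U f) (hg : EqOn g (fun s => f s + ((2 * Real.log (normSq (μ s 0)) +
      2 * Real.log (normSq (μ s 1)) + 3 * Real.log (normSq (μ s 2)) : ℝ) : ℂ)) U) :
    EqOn (LL g) (LL f) U := by
  intro s hs
  have sl : ∀ i, Sm U (fun s => ((Real.log (normSq (μ s i)) : ℝ) : ℂ)) := by
    intro i
    have h1 : ContDiffOn ℝ ∞ (fun s => μ s i) U := smooth_holo hU (hμ i)
    have h2 : ContDiffOn ℝ ∞ (fun s => normSq (μ s i)) U := by
      have h3 : (fun s => normSq (μ s i)) = fun s => (μ s i).re * (μ s i).re +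
          (μ s i).im * (μ s i).im := by
        funext s
        rw [normSq_apply]
      rw [h3]
      have h4 : ContDiffOn ℝ ∞ (fun s => (μ s i).re) U := reCLM.contDiff.comp_contDiffOn h1
      have h5 : ContDiffOn ℝ ∞ (fun s => (μ s i).im) U := imCLM.contDiff.comp_contDiffOn h1
      exact (h4.mul h4).add (h5.mul h5)
    have h6 := h2.log fun s hs => (normSq_pos.2 (h0 s hs i)).ne'
    exact ofRealCLM.contDiff.comp_contDiffOn h6
  have e1 : EqOn g (fun s => f s + (2 * ((Real.log (normSq (μ s 0)) : ℝ) : ℂ) +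
      2 * ((Real.log (normSq (μ s 1)) : ℝ) : ℂ) + 3 * ((Real.log (normSq (μ s 2)) : ℝ) : ℂ))) U := by
    intro x hx
    rw [hg hx]
    push_cast
    rfl
  have c2 : Sm U (fun _ => (2 : ℂ)) := contDiffOn_const
  have c3 : Sm U (fun _ => (3 : ℂ)) := contDiffOn_const
  have z : ∀ (c : ℂ) i, LL (fun s => c * ((Real.log (normSq (μ s i)) : ℝ) : ℂ)) s = 0 := by
    intro c i
    rw [LL_mul hU (contDiffOn_const : Sm U fun _ => c) (sl i) hs, LL_const, del_const, delb_const,
      LL_log_normSq hU (hμ i) (fun s hs => h0 s hs i) hs]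
    ring
  rw [LL_eqOn hU e1 hs, LL_add hU hf (((c2.m (sl 0)).a (c2.m (sl 1))).a (c3.m (sl 2))) hs,
    LL_add hU ((c2.m (sl 0)).a (c2.m (sl 1))) (c3.m (sl 2)) hs,
    LL_add hU (c2.m (sl 0)) (c2.m (sl 1)) hs, z, z, z]
  ring

/-! ### The potential along a line -/

/-- the line through `W` in the direction `X` -/
def line (W X : C5) (s : ℂ) : C5 := fun k => W k + s * X k

lemma line_zero (W X : C5) : line W X 0 = W := by
  funext k; simp [line]

lemma line_cont (W X : C5) : Continuous (line W X) := by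
  refine continuous_pi fun k => ?_
  unfold line
  fun_prop

lemma line_smooth (W X : C5) : ContDiff ℝ ω (line W X) := by
  refine contDiff_pi.2 fun k => ?_
  have : ContDiff ℂ ω (fun s : ℂ => W k + s * X k) := by fun_prop
  exact this.restrict_scalars ℝ

/-- the stable points of the line -/
def lineU (W X : C5) : Set ℂ := {s | Stable (line W X s)}

lemma isOpen_lineU (W X : C5) : IsOpen (lineU W X) := isOpen_stable.preimage (line_cont W X)

lemma zero_mem_lineU {W X : C5} (hW : Stable W) : (0 : ℂ) ∈ lineU W X := by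
  show Stable (line W X 0)
  rwa [line_zero]

lemma hh_line (W X : C5) (s : ℂ) (k : Fin 5) : ((hh (line W X s) k : ℝ) : ℂ) = Hf (W k) (X k) s := by
  unfold hh line Hf
  rw [mul_conj]

/-- the function `T` along the line -/
noncomputable def tauL (W X : C5) (s : ℂ) : ℂ := (T (line W X s) : ℂ)

/-- the function `P` along the line -/
noncomputable def PL (W X : C5) (s : ℂ) : ℂ :=
  ((2 / (hh (line W X s) 2 + T (line W X s) * hh (line W X s) 0) : ℝ) : ℂ)

/-- the function `Q` along the line -/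
noncomputable def QL (W X : C5) (s : ℂ) : ℂ :=
  ((2 / (hh (line W X s) 4 + T (line W X s) * hh (line W X s) 1) : ℝ) : ℂ)

lemma smooth_line_of {f : C5 → ℝ} (hf : ContDiffOn ℝ ω f {Z : C5 | Stable Z}) (W X : C5) :
    ContDiffOn ℝ ∞ (fun s => f (line W X s)) (lineU W X) :=
  ((hf.comp (line_smooth W X).contDiffOn fun _ hs => hs).of_le (by simp))

lemma Sm_line_of {f : C5 → ℝ} (hf : ContDiffOn ℝ ω f {Z : C5 | Stable Z}) (W X : C5) :
    Sm (lineU W X) (fun s => (f (line W X s) : ℂ)) :=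
  ofRealCLM.contDiff.comp_contDiffOn (smooth_line_of hf W X)

lemma moment_line {W X : C5} (hW : Stable W) :
    Moment (lineU W X) W X (PL W X) (QL W X) (tauL W X) where
  hU := isOpen_lineU W X
  h0 := zero_mem_lineU hW
  sP := Sm_line_of (contDiffOn_const.div ((contDiff_hh 2).contDiffOn.add
    (smooth_T.mul (contDiff_hh 0).contDiffOn)) fun Z hZ => (A_pos (Stable.real hZ) (T_pos Z)).ne') W X
  sQ := Sm_line_of (contDiffOn_const.div ((contDiff_hh 4).contDiffOn.add
    (smooth_T.mul (contDiff_hh 1).contDiffOn)) fun Z hZ => (B_pos (Stable.real hZ) (T_pos Z)).ne') W X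
  sτ := Sm_line_of smooth_T W X
  e1 s hs := by
    have hA := (A_pos (Stable.real hs) (T_pos (line W X s))).ne'
    rw [← hh_line, ← hh_line]
    unfold PL tauL
    have := div_mul_cancel₀ (2 : ℝ) hA
    exact_mod_cast this
  e2 s hs := by
    have hB := (B_pos (Stable.real hs) (T_pos (line W X s))).ne'
    rw [← hh_line, ← hh_line]
    unfold QL tauL
    have := div_mul_cancel₀ (2 : ℝ) hB
    exact_mod_cast this
  e3 s hs := by
    have hA := (A_pos (Stable.real hs) (T_pos (line W X s))).ne'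
    have hB := (B_pos (Stable.real hs) (T_pos (line W X s))).ne'
    have hG := T_root hs
    rw [← hh_line, ← hh_line, ← hh_line]
    unfold QL PL tauL
    have : T (line W X s) * (2 / (hh (line W X s) 2 + T (line W X s) * hh (line W X s) 0) *
        hh (line W X s) 0 + 2 / (hh (line W X s) 4 + T (line W X s) * hh (line W X s) 1) *
        hh (line W X s) 1 + hh (line W X s) 3) = 3 := by
      unfold G at hG
      generalize T (line W X s) = t at *
      generalize hh (line W X s) = h at *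
      field_simp
      linear_combination hG
    exact_mod_cast this

/-- the potential along the line -/
noncomputable def psiL (W X : C5) (s : ℂ) : ℂ := (Psi (line W X s) : ℂ)

lemma Sm_psiL (W X : C5) : Sm (lineU W X) (psiL W X) := Sm_line_of smooth_Psi W X

lemma delb_psiL {W X : C5} (hW : Stable W) :
    EqOn (delb 1 (psiL W X)) (AA W X (PL W X) (QL W X) (tauL W X)) (lineU W X) := by
  intro s hs
  have hM := moment_line (X := X) hW
  have hU := hM.hU
  have hA := A_pos (Stable.real hs) (T_pos (line W X s))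
  have hB := B_pos (Stable.real hs) (T_pos (line W X s))
  have hT := T_pos (line W X s)
  have sk : ∀ k, ContDiffOn ℝ ω (fun Z : C5 => hh Z k) {Z : C5 | Stable Z} := fun k =>
    (contDiff_hh k).contDiffOn
  have rA : DifferentiableAt ℝ (fun s => hh (line W X s) 2 + T (line W X s) * hh (line W X s) 0) s :=
    ((smooth_line_of ((sk 2).add (smooth_T.mul (sk 0))) W X).contDiffAt
      (hU.mem_nhds hs)).differentiableAt (by simp)
  have rB : DifferentiableAt ℝ (fun s => hh (line W X s) 4 + T (line W X s) * hh (line W X s) 1) s :=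
    ((smooth_line_of ((sk 4).add (smooth_T.mul (sk 1))) W X).contDiffAt
      (hU.mem_nhds hs)).differentiableAt (by simp)
  have rT : DifferentiableAt ℝ (fun s => T (line W X s)) s :=
    ((smooth_line_of smooth_T W X).contDiffAt (hU.mem_nhds hs)).differentiableAt (by simp)
  have lA : DifferentiableAt ℝ (fun s => ((Real.log (hh (line W X s) 2 +
      T (line W X s) * hh (line W X s) 0) : ℝ) : ℂ)) s :=
    ofRealCLM.differentiableAt.comp s (rA.log hA.ne')
  have lB : DifferentiableAt ℝ (fun s => ((Real.log (hh (line W X s) 4 +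
      T (line W X s) * hh (line W X s) 1) : ℝ) : ℂ)) s :=
    ofRealCLM.differentiableAt.comp s (rB.log hB.ne')
  have lT : DifferentiableAt ℝ (fun s => ((Real.log (T (line W X s)) : ℝ) : ℂ)) s :=
    ofRealCLM.differentiableAt.comp s (rT.log hT.ne')
  have dτ := hM.sτ.at hU hs
  have dH : ∀ k, DifferentiableAt ℝ (Hf (W k) (X k)) s := fun k => (Hf_sm (U := univ) _ _).at
    isOpen_univ (mem_univ s)
  have e : psiL W X = fun s => 2 * ((Real.log (hh (line W X s) 2 +
      T (line W X s) * hh (line W X s) 0) : ℝ) : ℂ) + 2 * ((Real.log (hh (line W X s) 4 +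
      T (line W X s) * hh (line W X s) 1) : ℝ) : ℂ) + tauL W X s * Hf (W 3) (X 3) s -
      3 * ((Real.log (T (line W X s)) : ℝ) : ℂ) := by
    funext s
    unfold psiL Psi tauL
    rw [← hh_line]
    push_cast
    rfl
  have eA : (fun s => ((hh (line W X s) 2 + T (line W X s) * hh (line W X s) 0 : ℝ) : ℂ)) =
      fun s => Hf (W 2) (X 2) s + tauL W X s * Hf (W 0) (X 0) s := by
    funext s
    unfold tauL
    rw [← hh_line, ← hh_line]
    push_cast
    rfl
  have eB : (fun s => ((hh (line W X s) 4 + T (line W X s) * hh (line W X s) 1 : ℝ) : ℂ)) =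
      fun s => Hf (W 4) (X 4) s + tauL W X s * Hf (W 1) (X 1) s := by
    funext s
    unfold tauL
    rw [← hh_line, ← hh_line]
    push_cast
    rfl
  have eT : (fun s => ((T (line W X s) : ℝ) : ℂ)) = tauL W X := rfl
  have hP : PL W X s = 2 / ((hh (line W X s) 2 + T (line W X s) * hh (line W X s) 0 : ℝ) : ℂ) := by
    unfold PL
    push_cast
    rfl
  have hQ : QL W X s = 2 / ((hh (line W X s) 4 + T (line W X s) * hh (line W X s) 1 : ℝ) : ℂ) := by
    unfold QL
    push_cast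
    rfl
  have nA : ((hh (line W X s) 2 + T (line W X s) * hh (line W X s) 0 : ℝ) : ℂ) ≠ 0 := by
    exact_mod_cast hA.ne'
  have nB : ((hh (line W X s) 4 + T (line W X s) * hh (line W X s) 1 : ℝ) : ℂ) ≠ 0 := by
    exact_mod_cast hB.ne'
  have nT : ((T (line W X s) : ℝ) : ℂ) ≠ 0 := by exact_mod_cast hT.ne'
  rw [e, delb_sub 1 (((lA.const_mul 2).fun_add (lB.const_mul 2)).fun_add (dτ.fun_mul (dH 3)))
      (lT.const_mul 3),
    delb_add 1 ((lA.const_mul 2).fun_add (lB.const_mul 2)) (dτ.fun_mul (dH 3)),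
    delb_add 1 (lA.const_mul 2) (lB.const_mul 2), delb_const_mul 1 2 lA, delb_const_mul 1 2 lB,
    delb_const_mul 1 3 lT, delb_log rA hA.ne', delb_log rB hB.ne', delb_log rT hT.ne', eA, eB, eT,
    delb_add 1 (dH 2) (dτ.fun_mul (dH 0)), delb_add 1 (dH 4) (dτ.fun_mul (dH 1)),
    delb_mul 1 dτ (dH 0), delb_mul 1 dτ (dH 1), delb_mul 1 dτ (dH 3), b_Hf, b_Hf, b_Hf, b_Hf, b_Hf]
  have h3 := hM.e3 s hs
  unfold AA
  have hτs : tauL W X s = ((T (line W X s) : ℝ) : ℂ) := rfl
  rw [hP, hQ] at h3 ⊢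
  rw [hτs] at h3 ⊢
  generalize ((T (line W X s) : ℝ) : ℂ) = t at *
  generalize ((hh (line W X s) 2 + T (line W X s) * hh (line W X s) 0 : ℝ) : ℂ) = a at *
  generalize ((hh (line W X s) 4 + T (line W X s) * hh (line W X s) 1 : ℝ) : ℂ) = b at *
  have h4 : 2 / a * Hf (W 0) (X 0) s + 2 / b * Hf (W 1) (X 1) s + Hf (W 3) (X 3) s - 3 / t = 0 := by
    have : t * (2 / a * Hf (W 0) (X 0) s + 2 / b * Hf (W 1) (X 1) s + Hf (W 3) (X 3) s - 3 / t) =
        0 := by
      rw [mul_sub, h3, mul_div_cancel₀ _ nT, sub_self]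
    exact (mul_eq_zero.1 this).resolve_left nT
  linear_combination (delb 1 (tauL W X) s) * h4

/-- **The derivatives of the potential along a horizontal line.** -/
theorem line_main {W X : C5} (hW : Stable W) (hX : X ≠ 0) {p q : ℝ}
    (hp : p = 2 / (hh W 2 + T W * hh W 0)) (hq : q = 2 / (hh W 4 + T W * hh W 1))
    (o1 : X 2 * conj (W 2) + T W * (X 0 * conj (W 0)) = 0)
    (o2 : X 4 * conj (W 4) + T W * (X 1 * conj (W 1)) = 0)
    (o3 : p * (X 0 * conj (W 0)) + q * (X 1 * conj (W 1)) + X 3 * conj (W 3) = 0) :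
    0 < (LL (psiL W X) 0).re ∧ (LL (LL (psiL W X)) 0).re < 0 := by
  have hM := moment_line (X := X) hW
  have hU := hM.hU
  have h0 := hM.h0
  have hA := A_pos hW.real (T_pos W)
  have hB := B_pos hW.real (T_pos W)
  have hp0 : 0 < p := by rw [hp]; positivity
  have hq0 : 0 < q := by rw [hq]; positivity
  have hH : Hor W X p q (T W) := ⟨hp0, hq0, T_pos W, o1, o2, o3⟩
  have eP : PL W X 0 = p := by
    unfold PL
    rw [line_zero, hp]
  have eQ : QL W X 0 = q := by
    unfold QL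
    rw [line_zero, hq]
  have eτ : tauL W X 0 = (T W : ℂ) := by
    unfold tauL
    rw [line_zero]
  have e1 : EqOn (LL (psiL W X)) (del 1 (AA W X (PL W X) (QL W X) (tauL W X))) (lineU W X) :=
    del_eqOn hU 1 (delb_psiL hW)
  refine ⟨?_, ?_⟩
  · rw [e1 h0, AA_one hW hM hH eP eQ eτ, ofReal_re]
    have hT := T_pos W
    have hn : ∀ k, 0 ≤ normSq (X k) := fun k => normSq_nonneg _
    have n0 := hn 0
    have n1 := hn 1
    have n2 := hn 2
    have n3 := hn 3
    have n4 := hn 4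
    obtain ⟨k, hk⟩ : ∃ k, X k ≠ 0 := by
      by_contra hcon
      push Not at hcon
      exact hX (funext hcon)
    have hk' := normSq_pos.2 hk
    have m0 : 0 ≤ p * (T W * normSq (X 0)) := by positivity
    have m1 : 0 ≤ q * (T W * normSq (X 1)) := by positivity
    have m2 : 0 ≤ p * normSq (X 2) := by positivity
    have m3 : 0 ≤ T W * normSq (X 3) := by positivity
    have m4 : 0 ≤ q * normSq (X 4) := by positivity
    have m : p * (normSq (X 2) + T W * normSq (X 0)) + q * (normSq (X 4) + T W * normSq (X 1)) +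
        T W * normSq (X 3) = p * (T W * normSq (X 0)) + q * (T W * normSq (X 1)) +
        p * normSq (X 2) + T W * normSq (X 3) + q * normSq (X 4) := by ring
    rw [m]
    fin_cases k
    · have : 0 < p * (T W * normSq (X 0)) := mul_pos hp0 (mul_pos hT hk')
      linarith
    · have : 0 < q * (T W * normSq (X 1)) := mul_pos hq0 (mul_pos hT hk')
      linarith
    · have : 0 < p * normSq (X 2) := mul_pos hp0 hk'
      linarith
    · have : 0 < T W * normSq (X 3) := mul_pos hT hk'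
      linarith
    · have : 0 < q * normSq (X 4) := mul_pos hq0 hk'
      linarith
  · rw [LL_eqOn hU e1 h0]
    exact AA_three hW hM hH eP eQ eτ hX

end Pool.Agent.N150.HS
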