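import Pool.Agent.N150.HS.ChartM

/-! # The surface -/

set_option autoImplicit false
set_option linter.unusedSectionVars false
set_option linter.deprecated false

open scoped Manifold ContDiff Topology ComplexConjugate
open Complex Set Filter

namespace Pool.Agent.N150.HS

/-- the stable points -/
abbrev St : Type := {Z : C5 // Stable Z}

lemma act_one (Z : C5) : act (fun _ => 1) Z = Z := by
  funext k
  fin_cases k <;> simp [act]

lemma act_mul (μ ν : Fin 3 → ℂ) (Z : C5) : act μ (act ν Z) = act (fun i => μ i * ν i) Z := by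
  funext k
  fin_cases k <;> simp [act] <;> ring

lemma act_inv {μ : Fin 3 → ℂ} (hμ : ∀ i, μ i ≠ 0) (Z : C5) :
    act (fun i => (μ i)⁻¹) (act μ Z) = Z := by
  rw [act_mul]
  have : (fun i => (μ i)⁻¹ * μ i) = fun _ => 1 := funext fun i => inv_mul_cancel₀ (hμ i)
  rw [this, act_one]

/-- the orbits of the torus -/
instance orb : Setoid St where
  r Z Z' := ∃ μ : Fin 3 → ℂ, (∀ i, μ i ≠ 0) ∧ Z'.1 = act μ Z.1
  iseqv := by
    refine ⟨fun Z => ⟨fun _ => 1, fun _ => one_ne_zero, (act_one _).symm⟩, ?_, ?_⟩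
    · rintro Z Z' ⟨μ, hμ, h⟩
      exact ⟨fun i => (μ i)⁻¹, fun i => inv_ne_zero (hμ i), by rw [h, act_inv hμ]⟩
    · rintro Z Z' Z'' ⟨μ, hμ, h⟩ ⟨ν, hν, h'⟩
      exact ⟨fun i => ν i * μ i, fun i => mul_ne_zero (hν i) (hμ i), by rw [h', h, act_mul]⟩

/-- The toric surface, the quotient of the stable points by the torus. -/
def Surf : Type := Quotient orb

instance : TopologicalSpace Surf := inferInstanceAs (TopologicalSpace (Quotient orb))

/-- the projection -/
def proj (Z : St) : Surf := Quotient.mk orb Z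

lemma proj_surj : Function.Surjective proj := Quotient.mk_surjective

lemma proj_eq {Z Z' : St} : proj Z = proj Z' ↔ ∃ μ : Fin 3 → ℂ, (∀ i, μ i ≠ 0) ∧
    Z'.1 = act μ Z.1 := Quotient.eq

lemma proj_cont : Continuous proj := continuous_quotient_mk'

lemma act_cont (μ : Fin 3 → ℂ) : Continuous (act μ) := by
  refine continuous_pi fun k => ?_
  fin_cases k
  · exact continuous_const.mul (continuous_apply 0)
  · exact continuous_const.mul (continuous_apply 1)
  · exact continuous_const.mul (continuous_apply 2)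
  · exact continuous_const.mul (continuous_apply 3)
  · exact continuous_const.mul (continuous_apply 4)

lemma proj_open : IsOpenMap proj := by
  intro O hO
  have h1 : IsOpen (proj ⁻¹' (proj '' O)) := by
    have h2 : proj ⁻¹' (proj '' O) = ⋃ μ : {μ : Fin 3 → ℂ // ∀ i, μ i ≠ 0},
        (fun Z : St => (⟨act μ.1 Z.1, Z.2.act μ.2⟩ : St)) ⁻¹' O := by
      ext Z
      simp only [mem_preimage, mem_image, mem_iUnion]
      constructor
      · rintro ⟨Z', hZ', h⟩
        obtain ⟨μ, hμ, h3⟩ := proj_eq.1 h.symm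
        refine ⟨⟨μ, hμ⟩, ?_⟩
        have : (⟨act μ Z.1, Z.2.act hμ⟩ : St) = Z' := Subtype.ext h3.symm
        rwa [this]
      · rintro ⟨⟨μ, hμ⟩, h⟩
        exact ⟨_, h, (proj_eq.2 ⟨μ, hμ, rfl⟩).symm⟩
    rw [h2]
    refine isOpen_iUnion fun μ => hO.preimage ?_
    exact ((act_cont μ.1).comp continuous_subtype_val).subtype_mk _
  exact h1

lemma proj_oqm : IsOpenQuotientMap proj := ⟨proj_surj, proj_cont, proj_open⟩

/-- the domains of the charts -/
def domS (j : Fin 5) (x : Surf) : Prop :=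
  Quotient.lift (fun Z : St => dom j Z.1) (by
    rintro Z Z' ⟨μ, hμ, h⟩
    show dom j Z.1 = dom j Z'.1
    rw [h, dom_act hμ]) x

/-- the charts -/
noncomputable def quoS (j : Fin 5) (x : Surf) : C2 :=
  Quotient.lift (fun Z : St => quo j Z.1) (by
    rintro Z Z' ⟨μ, hμ, h⟩
    show quo j Z.1 = quo j Z'.1
    rw [h, quo_act hμ]) x

lemma domS_proj (j : Fin 5) (Z : St) : domS j (proj Z) = dom j Z.1 := rfl
lemma quoS_proj (j : Fin 5) (Z : St) : quoS j (proj Z) = quo j Z.1 := rfl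

/-- the inverses of the charts -/
def sec (j : Fin 5) (p : C2) : Surf := proj ⟨sig j p, stable_sig j p⟩

lemma sec_cont (j : Fin 5) : Continuous (sec j) :=
  proj_cont.comp ((sig_smooth j).continuous.subtype_mk _)

lemma domS_sec (j : Fin 5) (p : C2) : domS j (sec j p) := dom_sig j p

lemma quoS_sec (j : Fin 5) (p : C2) : quoS j (sec j p) = p := quo_sig j p

lemma quoS_sec' (i j : Fin 5) (p : C2) : quoS j (sec i p) = quo j (sig i p) := rfl

lemma domS_sec' (i j : Fin 5) (p : C2) : domS j (sec i p) = dom j (sig i p) := rfl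

lemma sec_quoS {j : Fin 5} {x : Surf} (h : domS j x) : sec j (quoS j x) = x := by
  obtain ⟨Z, rfl⟩ := proj_surj x
  rw [quoS_proj]
  symm
  rw [domS_proj] at h
  exact proj_eq.2 ⟨lam j Z.1, lam_ne h, (act_lam h).symm⟩

lemma isOpen_domS (j : Fin 5) : IsOpen {x | domS j x} := by
  have : IsOpen (proj ⁻¹' {x | domS j x}) := (isOpen_dom j).preimage continuous_subtype_val
  exact (proj_oqm.isQuotientMap.isOpen_preimage).1 this

lemma quoS_cont (j : Fin 5) : ContinuousOn (quoS j) {x | domS j x} := by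
  rw [proj_oqm.isQuotientMap.continuousOn_isOpen_iff (isOpen_domS j)]
  exact (quo_smooth j).continuousOn.comp continuous_subtype_val.continuousOn fun Z hZ => hZ

/-- the charts -/
noncomputable def ch (j : Fin 5) : OpenPartialHomeomorph Surf C2 where
  toFun := quoS j
  invFun := sec j
  source := {x | domS j x}
  target := univ
  map_source' _ _ := mem_univ _
  map_target' p _ := domS_sec j p
  left_inv' _ h := sec_quoS h
  right_inv' p _ := quoS_sec j p
  open_source := isOpen_domS j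
  open_target := isOpen_univ
  continuousOn_toFun := quoS_cont j
  continuousOn_invFun := (sec_cont j).continuousOn

lemma ch_apply (j : Fin 5) (x : Surf) : ch j x = quoS j x := rfl
lemma ch_symm (j : Fin 5) (p : C2) : (ch j).symm p = sec j p := rfl
lemma ch_source (j : Fin 5) : (ch j).source = {x | domS j x} := rfl
lemma ch_target (j : Fin 5) : (ch j).target = univ := rfl

lemma exists_domS (x : Surf) : ∃ j, domS j x := by
  obtain ⟨Z, rfl⟩ := proj_surj x
  exact exists_dom Z.2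

noncomputable instance : ChartedSpace C2 Surf where
  atlas := range ch
  chartAt x := ch (exists_domS x).choose
  mem_chart_source x := (exists_domS x).choose_spec
  chart_mem_atlas _ := mem_range_self _

lemma atlas_eq : atlas C2 Surf = range ch := rfl

lemma trans_smooth (i j : Fin 5) : ContDiffOn ℂ ω (trans i j) {p | dom j (sig i p)} :=
  (quo_smooth j).comp (sig_smooth i).contDiffOn fun _ hp => hp

instance : IsManifold 𝓘(ℂ, C2) ω Surf := by
  refine isManifold_of_contDiffOn _ _ _ fun e e' he he' => ?_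
  obtain ⟨i, rfl⟩ := he
  obtain ⟨j, rfl⟩ := he'
  refine (trans_smooth i j).mono ?_
  intro p hp
  have h1 := hp.1
  simp only [mfld_simps] at h1
  exact h1.2

/-! ### Topology -/

/-- the first invariant vector -/
def va (Z : C5) : Fin 2 → ℂ := ![Z 2 * Z 3, Z 0]
/-- the second invariant vector -/
def vb (Z : C5) : Fin 2 → ℂ := ![Z 3 * Z 4, Z 1]
/-- the third invariant vector -/
def vc (Z : C5) : Fin 2 → ℂ := ![Z 0 * Z 4, Z 1 * Z 2]
/-- the remaining component of the third invariant vector -/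
def vd (Z : C5) : ℂ := Z 2 * Z 3 * Z 4

/-- the vectors are proportional -/
def Prop2 (Z Z' : C5) : Prop :=
  va Z 0 * va Z' 1 = va Z 1 * va Z' 0 ∧ vb Z 0 * vb Z' 1 = vb Z 1 * vb Z' 0 ∧
    vc Z 0 * vc Z' 1 = vc Z 1 * vc Z' 0 ∧ vd Z * vc Z' 0 = vc Z 0 * vd Z' ∧
    vd Z * vc Z' 1 = vc Z 1 * vd Z'

lemma prop2_act {μ : Fin 3 → ℂ} (Z : C5) : Prop2 Z (act μ Z) := by
  simp only [Prop2, va, vb, vc, vd, act_0, act_1, act_2, act_3, act_4, Matrix.cons_val_zero,
    Matrix.cons_val_one]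
  refine ⟨?_, ?_, ?_, ?_, ?_⟩ <;> ring

lemma prop2_dom {Z Z' : C5} (h : Prop2 Z Z') (hZ' : Stable Z') {j : Fin 5} (hj : dom j Z) :
    dom j Z' := by
  obtain ⟨h1, h2, h3, h4, h5⟩ := hZ'
  simp only [Prop2, va, vb, vc, vd, Matrix.cons_val_zero, Matrix.cons_val_one] at h
  obtain ⟨e1, e2, e3, e4, e5⟩ := h
  fin_cases j
  · obtain ⟨n2, n3, n4⟩ := hj
    have a : Z' 2 * Z' 3 ≠ 0 := by
      intro h0
      rw [h0, mul_zero] at e1
      have z0 : Z' 0 = 0 := (mul_eq_zero.1 e1).resolve_left (mul_ne_zero n2 n3)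
      rcases mul_eq_zero.1 h0 with h | h <;> tauto
    have b : Z' 3 * Z' 4 ≠ 0 := by
      intro h0
      rw [h0, mul_zero] at e2
      have z1 : Z' 1 = 0 := (mul_eq_zero.1 e2).resolve_left (mul_ne_zero n3 n4)
      rcases mul_eq_zero.1 h0 with h | h <;> tauto
    exact ⟨left_ne_zero_of_mul a, right_ne_zero_of_mul a, right_ne_zero_of_mul b⟩
  · obtain ⟨n3, n4, n0⟩ := hj
    have a : Z' 0 ≠ 0 := by
      intro h0
      rw [h0, mul_zero] at e1
      have z : Z' 2 * Z' 3 = 0 := (mul_eq_zero.1 e1.symm).resolve_left n0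
      rcases mul_eq_zero.1 z with h | h <;> tauto
    have b : Z' 3 * Z' 4 ≠ 0 := by
      intro h0
      rw [h0, mul_zero] at e2
      have z1 : Z' 1 = 0 := (mul_eq_zero.1 e2).resolve_left (mul_ne_zero n3 n4)
      rcases mul_eq_zero.1 h0 with h | h <;> tauto
    exact ⟨left_ne_zero_of_mul b, right_ne_zero_of_mul b, a⟩
  · obtain ⟨n4, n0, n1⟩ := hj
    have b : Z' 1 ≠ 0 := by
      intro h0
      rw [h0, mul_zero] at e2
      have z : Z' 3 * Z' 4 = 0 := (mul_eq_zero.1 e2.symm).resolve_left n1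
      rcases mul_eq_zero.1 z with h | h <;> tauto
    have c : Z' 0 * Z' 4 ≠ 0 := by
      intro h0
      rw [h0, mul_zero] at e3 e4
      have z1 : Z' 1 * Z' 2 = 0 := (mul_eq_zero.1 e3).resolve_left (mul_ne_zero n0 n4)
      have z2 : Z' 2 * Z' 3 * Z' 4 = 0 := (mul_eq_zero.1 e4.symm).resolve_left
        (mul_ne_zero n0 n4)
      have z3 : Z' 2 = 0 := (mul_eq_zero.1 z1).resolve_left b
      rcases mul_eq_zero.1 h0 with h | h <;> tauto
    exact ⟨right_ne_zero_of_mul c, left_ne_zero_of_mul c, b⟩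
  · obtain ⟨n0, n1, n2⟩ := hj
    have a : Z' 0 ≠ 0 := by
      intro h0
      rw [h0, mul_zero] at e1
      have z : Z' 2 * Z' 3 = 0 := (mul_eq_zero.1 e1.symm).resolve_left n0
      rcases mul_eq_zero.1 z with h | h <;> tauto
    have c : Z' 1 * Z' 2 ≠ 0 := by
      intro h0
      rw [h0, mul_zero] at e3 e5
      have z1 : Z' 0 * Z' 4 = 0 := (mul_eq_zero.1 e3.symm).resolve_left (mul_ne_zero n1 n2)
      have z3 : Z' 4 = 0 := (mul_eq_zero.1 z1).resolve_left a
      rcases mul_eq_zero.1 h0 with h | h <;> tauto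
    exact ⟨a, left_ne_zero_of_mul c, right_ne_zero_of_mul c⟩
  · obtain ⟨n1, n2, n3⟩ := hj
    have a : Z' 2 * Z' 3 ≠ 0 := by
      intro h0
      rw [h0, mul_zero] at e1
      have z0 : Z' 0 = 0 := (mul_eq_zero.1 e1).resolve_left (mul_ne_zero n2 n3)
      rcases mul_eq_zero.1 h0 with h | h <;> tauto
    have b : Z' 1 ≠ 0 := by
      intro h0
      rw [h0, mul_zero] at e2
      have z : Z' 3 * Z' 4 = 0 := (mul_eq_zero.1 e2.symm).resolve_left n1
      rcases mul_eq_zero.1 z with h | h <;> tauto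
    exact ⟨b, left_ne_zero_of_mul a, right_ne_zero_of_mul a⟩

lemma prop2_quo {Z Z' : C5} (h : Prop2 Z Z') {j : Fin 5} (hj : dom j Z) (hj' : dom j Z') :
    quo j Z = quo j Z' := by
  simp only [Prop2, va, vb, vc, vd, Matrix.cons_val_zero, Matrix.cons_val_one] at h
  obtain ⟨e1, e2, e3, e4, e5⟩ := h
  funext k
  fin_cases j
  · obtain ⟨n1, n2, n3⟩ := hj
    obtain ⟨m1, m2, m3⟩ := hj'
    fin_cases k
    · show Z 0 / (Z 2 * Z 3) = Z' 0 / (Z' 2 * Z' 3)
      rw [div_eq_div_iff (mul_ne_zero n1 n2) (mul_ne_zero m1 m2)]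
      linear_combination -e1
    · show Z 1 / (Z 3 * Z 4) = Z' 1 / (Z' 3 * Z' 4)
      rw [div_eq_div_iff (mul_ne_zero n2 n3) (mul_ne_zero m2 m3)]
      linear_combination -e2
  · obtain ⟨n1, n2, n3⟩ := hj
    obtain ⟨m1, m2, m3⟩ := hj'
    fin_cases k
    · show Z 1 / (Z 3 * Z 4) = Z' 1 / (Z' 3 * Z' 4)
      rw [div_eq_div_iff (mul_ne_zero n1 n2) (mul_ne_zero m1 m2)]
      linear_combination -e2
    · show Z 2 * Z 3 / Z 0 = Z' 2 * Z' 3 / Z' 0
      rw [div_eq_div_iff n3 m3]
      linear_combination e1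
  · obtain ⟨n1, n2, n3⟩ := hj
    obtain ⟨m1, m2, m3⟩ := hj'
    fin_cases k
    · show Z 1 * Z 2 / (Z 0 * Z 4) = Z' 1 * Z' 2 / (Z' 0 * Z' 4)
      rw [div_eq_div_iff (mul_ne_zero n2 n1) (mul_ne_zero m2 m1)]
      linear_combination -e3
    · show Z 3 * Z 4 / Z 1 = Z' 3 * Z' 4 / Z' 1
      rw [div_eq_div_iff n3 m3]
      linear_combination e2
  · obtain ⟨n1, n2, n3⟩ := hj
    obtain ⟨m1, m2, m3⟩ := hj'
    fin_cases k
    · show Z 2 * Z 3 / Z 0 = Z' 2 * Z' 3 / Z' 0
      rw [div_eq_div_iff n1 m1]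
      linear_combination e1
    · show Z 0 * Z 4 / (Z 1 * Z 2) = Z' 0 * Z' 4 / (Z' 1 * Z' 2)
      rw [div_eq_div_iff (mul_ne_zero n2 n3) (mul_ne_zero m2 m3)]
      linear_combination e3
  · obtain ⟨n1, n2, n3⟩ := hj
    obtain ⟨m1, m2, m3⟩ := hj'
    fin_cases k
    · show Z 3 * Z 4 / Z 1 = Z' 3 * Z' 4 / Z' 1
      rw [div_eq_div_iff n1 m1]
      linear_combination e2
    · show Z 0 / (Z 2 * Z 3) = Z' 0 / (Z' 2 * Z' 3)
      rw [div_eq_div_iff (mul_ne_zero n2 n3) (mul_ne_zero m2 m3)]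
      linear_combination -e1

lemma proj_eq_iff {Z Z' : St} : proj Z = proj Z' ↔ Prop2 Z.1 Z'.1 := by
  constructor
  · intro h
    obtain ⟨μ, -, h1⟩ := proj_eq.1 h
    rw [h1]
    exact prop2_act _
  · intro h
    obtain ⟨j, hj⟩ := exists_dom Z.2
    have hj' := prop2_dom h Z'.2 hj
    have h1 := prop2_quo h hj hj'
    have h2 : sec j (quoS j (proj Z)) = proj Z := sec_quoS (by exact hj)
    have h3 : sec j (quoS j (proj Z')) = proj Z' := sec_quoS (by exact hj')
    rw [← h2, ← h3, quoS_proj, quoS_proj, h1]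

instance : T2Space Surf := by
  rw [t2Space_iff_of_isOpenQuotientMap proj_oqm]
  have h1 : {q : St × St | proj q.1 = proj q.2} = {q : St × St | Prop2 q.1.1 q.2.1} := by
    ext q
    exact proj_eq_iff
  rw [h1]
  have hl : ∀ k, Continuous (fun q : St × St => q.1.1 k) := fun k =>
    (continuous_apply k).comp (continuous_subtype_val.comp continuous_fst)
  have hr : ∀ k, Continuous (fun q : St × St => q.2.1 k) := fun k =>
    (continuous_apply k).comp (continuous_subtype_val.comp continuous_snd)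
  simp only [Prop2, va, vb, vc, vd, Matrix.cons_val_zero, Matrix.cons_val_one]
  have l0 := hl 0
  have l1 := hl 1
  have l2 := hl 2
  have l3 := hl 3
  have l4 := hl 4
  have r0 := hr 0
  have r1 := hr 1
  have r2 := hr 2
  have r3 := hr 3
  have r4 := hr 4
  refine (isClosed_eq (by fun_prop) (by fun_prop)).inter
    ((isClosed_eq (by fun_prop) (by fun_prop)).inter
    ((isClosed_eq (by fun_prop) (by fun_prop)).inter
    ((isClosed_eq (by fun_prop) (by fun_prop)).inter
    (isClosed_eq (by fun_prop) (by fun_prop)))))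

/-- the ratio is small -/
lemma norm_div_le {a b : ℂ} (h : ‖a‖ ≤ ‖b‖) : ‖a / b‖ ≤ 1 := by
  rw [norm_div]
  exact div_le_one_of_le₀ h (norm_nonneg b)

lemma exists_small {Z : C5} (hZ : Stable Z) :
    ∃ j, dom j Z ∧ ∀ k, ‖quo j Z k‖ ≤ 1 := by
  obtain ⟨h1, h2, h3, h4, h5⟩ := hZ
  have az : ¬(Z 2 * Z 3 = 0 ∧ Z 0 = 0) := by
    rintro ⟨h, h'⟩
    rcases mul_eq_zero.1 h with h | h <;> tauto
  have bz : ¬(Z 3 * Z 4 = 0 ∧ Z 1 = 0) := by
    rintro ⟨h, h'⟩
    rcases mul_eq_zero.1 h with h | h <;> tauto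
  have nz : ∀ {a b : ℂ}, ‖a‖ ≤ ‖b‖ → ¬(b = 0 ∧ a = 0) → b ≠ 0 := by
    intro a b h hn hb
    rw [hb, norm_zero] at h
    exact hn ⟨hb, norm_le_zero_iff.1 h⟩
  rcases le_total ‖Z 0‖ ‖Z 2 * Z 3‖ with ha | ha
  · have na := nz ha az
    rcases le_total ‖Z 1‖ ‖Z 3 * Z 4‖ with hb | hb
    · have nb := nz hb bz
      refine ⟨0, ⟨left_ne_zero_of_mul na, right_ne_zero_of_mul na, right_ne_zero_of_mul nb⟩,
        fun k => ?_⟩
      fin_cases k
      · exact norm_div_le ha
      · exact norm_div_le hb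
    · have nb := nz hb (by tauto)
      refine ⟨4, ⟨nb, left_ne_zero_of_mul na, right_ne_zero_of_mul na⟩, fun k => ?_⟩
      fin_cases k
      · exact norm_div_le hb
      · exact norm_div_le ha
  · have na := nz ha (by tauto)
    rcases le_total ‖Z 1‖ ‖Z 3 * Z 4‖ with hb | hb
    · have nb := nz hb bz
      refine ⟨1, ⟨left_ne_zero_of_mul nb, right_ne_zero_of_mul nb, na⟩, fun k => ?_⟩
      fin_cases k
      · exact norm_div_le hb
      · exact norm_div_le ha
    · have nb := nz hb (by tauto)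
      have cz : ¬(Z 0 * Z 4 = 0 ∧ Z 1 * Z 2 = 0) := by
        rintro ⟨h, h'⟩
        rcases mul_eq_zero.1 h with h | h <;> rcases mul_eq_zero.1 h' with h' | h' <;> tauto
      rcases le_total ‖Z 1 * Z 2‖ ‖Z 0 * Z 4‖ with hc | hc
      · have nc := nz hc cz
        refine ⟨2, ⟨right_ne_zero_of_mul nc, na, nb⟩, fun k => ?_⟩
        fin_cases k
        · exact norm_div_le hc
        · exact norm_div_le hb
      · have nc := nz hc (by tauto)
        refine ⟨3, ⟨na, nb, right_ne_zero_of_mul nc⟩, fun k => ?_⟩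
        fin_cases k
        · exact norm_div_le ha
        · exact norm_div_le hc

instance : CompactSpace Surf := by
  constructor
  have h1 : (univ : Set Surf) = ⋃ j : Fin 5, sec j '' Metric.closedBall 0 1 := by
    refine (eq_univ_of_forall fun x => ?_).symm
    obtain ⟨Z, rfl⟩ := proj_surj x
    obtain ⟨j, hj, hs⟩ := exists_small Z.2
    refine mem_iUnion.2 ⟨j, quo j Z.1, ?_, sec_quoS (x := proj Z) hj⟩
    rw [mem_closedBall_zero_iff, pi_norm_le_iff_of_nonneg zero_le_one]
    exact hs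
  rw [h1]
  exact isCompact_iUnion fun j => (isCompact_closedBall 0 1).image (sec_cont j)

lemma sec_one (j : Fin 5) : sec j (fun _ => 1) = sec 0 (fun _ => 1) := by
  unfold sec
  have : (⟨sig j (fun _ => 1), stable_sig j _⟩ : St) = ⟨sig 0 (fun _ => 1), stable_sig 0 _⟩ := by
    apply Subtype.ext
    funext k
    fin_cases j <;> fin_cases k <;> rfl
  rw [this]

instance : ConnectedSpace Surf := by
  have h1 : (univ : Set Surf) = ⋃ j : Fin 5, range (sec j) := by
    refine (eq_univ_of_forall fun x => ?_).symm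
    obtain ⟨j, hj⟩ := exists_domS x
    exact mem_iUnion.2 ⟨j, quoS j x, sec_quoS hj⟩
  have h2 : IsPreconnected (univ : Set Surf) := by
    rw [h1]
    refine isPreconnected_iUnion ⟨sec 0 fun _ => 1, mem_iInter.2 fun j => ⟨fun _ => 1, sec_one j⟩⟩
      fun j => ?_
    exact isPreconnected_range (sec_cont j)
  have : PreconnectedSpace Surf := ⟨h2⟩
  have : Nonempty Surf := ⟨sec 0 fun _ => 1⟩
  exact ⟨‹_›⟩

end Pool.Agent.N150.HS
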