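import Pool.Agent.N150.HS.Psi

/-! # The slices and the quotient coordinates -/

set_option autoImplicit false
set_option linter.unusedSectionVars false
set_option linter.deprecated false

open scoped ContDiff Topology ComplexConjugate
open Complex Set Filter

namespace Pool.Agent.N150.HS

/-- the slices of the torus action -/
def sig (j : Fin 5) (p : C2) : C5 :=
  match j with
  | 0 => ![p 0, p 1, 1, 1, 1]
  | 1 => ![1, p 0, p 1, 1, 1]
  | 2 => ![1, 1, p 0, p 1, 1]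
  | 3 => ![1, 1, 1, p 0, p 1]
  | 4 => ![p 1, 1, 1, 1, p 0]

/-- the domains of the quotient coordinates -/
def dom (j : Fin 5) (Z : C5) : Prop :=
  match j with
  | 0 => Z 2 ≠ 0 ∧ Z 3 ≠ 0 ∧ Z 4 ≠ 0
  | 1 => Z 3 ≠ 0 ∧ Z 4 ≠ 0 ∧ Z 0 ≠ 0
  | 2 => Z 4 ≠ 0 ∧ Z 0 ≠ 0 ∧ Z 1 ≠ 0
  | 3 => Z 0 ≠ 0 ∧ Z 1 ≠ 0 ∧ Z 2 ≠ 0
  | 4 => Z 1 ≠ 0 ∧ Z 2 ≠ 0 ∧ Z 3 ≠ 0

/-- the quotient coordinates -/
noncomputable def quo (j : Fin 5) (Z : C5) : C2 :=
  match j with
  | 0 => ![Z 0 / (Z 2 * Z 3), Z 1 / (Z 3 * Z 4)]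
  | 1 => ![Z 1 / (Z 3 * Z 4), (Z 2 * Z 3) / Z 0]
  | 2 => ![(Z 1 * Z 2) / (Z 0 * Z 4), (Z 3 * Z 4) / Z 1]
  | 3 => ![(Z 2 * Z 3) / Z 0, (Z 0 * Z 4) / (Z 1 * Z 2)]
  | 4 => ![(Z 3 * Z 4) / Z 1, Z 0 / (Z 2 * Z 3)]

/-- the element of the torus which moves `Z` to the slice -/
noncomputable def lam (j : Fin 5) (Z : C5) : Fin 3 → ℂ :=
  match j with
  | 0 => ![1 / Z 2, 1 / Z 4, 1 / Z 3]
  | 1 => ![Z 3 / Z 0, 1 / Z 4, 1 / Z 3]
  | 2 => ![Z 1 / (Z 0 * Z 4), 1 / Z 4, Z 4 / Z 1]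
  | 3 => ![1 / Z 2, Z 0 / (Z 1 * Z 2), Z 2 / Z 0]
  | 4 => ![1 / Z 2, Z 3 / Z 1, 1 / Z 3]

lemma stable_sig (j : Fin 5) (p : C2) : Stable (sig j p) := by
  fin_cases j <;> simp [Stable, sig]

lemma dom_sig (j : Fin 5) (p : C2) : dom j (sig j p) := by
  fin_cases j <;> simp [dom, sig]

lemma dom_stable {j : Fin 5} {Z : C5} (h : dom j Z) : Stable Z := by
  fin_cases j <;> (simp only [dom] at h; obtain ⟨h1, h2, h3⟩ := h; simp [Stable, h1, h2, h3])

lemma exists_dom {Z : C5} (h : Stable Z) : ∃ j, dom j Z := by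
  obtain ⟨h1, h2, h3, h4, h5⟩ := h
  by_cases z0 : Z 0 = 0
  · have z2 : Z 2 ≠ 0 := by tauto
    have z3 : Z 3 ≠ 0 := by tauto
    by_cases z1 : Z 1 = 0
    · exact ⟨0, z2, z3, by tauto⟩
    · exact ⟨4, z1, z2, z3⟩
  · by_cases z1 : Z 1 = 0
    · have z3 : Z 3 ≠ 0 := by tauto
      have z4 : Z 4 ≠ 0 := by tauto
      exact ⟨1, z3, z4, z0⟩
    · by_cases z2 : Z 2 = 0
      · exact ⟨2, by tauto, z0, z1⟩
      · exact ⟨3, z0, z1, z2⟩

lemma lam_ne {j : Fin 5} {Z : C5} (h : dom j Z) (i : Fin 3) : lam j Z i ≠ 0 := by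
  fin_cases j <;> fin_cases i <;>
    (simp only [dom] at h; obtain ⟨h1, h2, h3⟩ := h; simp [lam, h1, h2, h3])

lemma act_lam {j : Fin 5} {Z : C5} (h : dom j Z) : act (lam j Z) Z = sig j (quo j Z) := by
  funext k
  fin_cases j <;> fin_cases k <;>
    (simp only [dom] at h; obtain ⟨h1, h2, h3⟩ := h; simp [act, lam, sig, quo]; try field_simp)

lemma quo_sig (j : Fin 5) (p : C2) : quo j (sig j p) = p := by
  funext k
  fin_cases j <;> fin_cases k <;> simp [sig, quo]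

lemma dom_act {μ : Fin 3 → ℂ} (hμ : ∀ i, μ i ≠ 0) (j : Fin 5) (Z : C5) :
    dom j (act μ Z) ↔ dom j Z := by
  fin_cases j <;> simp only [dom, act_ne hμ]

lemma quo_act {μ : Fin 3 → ℂ} (hμ : ∀ i, μ i ≠ 0) (j : Fin 5) (Z : C5) :
    quo j (act μ Z) = quo j Z := by
  have h0 := hμ 0
  have h1 := hμ 1
  have h2 := hμ 2
  funext k
  fin_cases j <;> fin_cases k <;> (simp [quo, act_0, act_1, act_2, act_3, act_4]; try field_simp)

/-! ### Smoothness -/

lemma sig_smooth (j : Fin 5) : ContDiff ℂ ω (sig j) := by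
  have h0 : ContDiff ℂ ω (fun p : C2 => p 0) := contDiff_apply ℂ ℂ 0
  have h1 : ContDiff ℂ ω (fun p : C2 => p 1) := contDiff_apply ℂ ℂ 1
  have hc : ContDiff ℂ ω (fun _ : C2 => (1 : ℂ)) := contDiff_const
  refine contDiff_pi.2 fun k => ?_
  fin_cases j <;> fin_cases k <;> first | exact h0 | exact h1 | exact hc

lemma isOpen_dom (j : Fin 5) : IsOpen {Z : C5 | dom j Z} := by
  have h1 : ∀ k : Fin 5, IsOpen {Z : C5 | Z k ≠ 0} := fun _ =>
    isOpen_ne_fun (continuous_apply _) continuous_const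
  have h2 : ∀ k l m : Fin 5, IsOpen {Z : C5 | Z k ≠ 0 ∧ Z l ≠ 0 ∧ Z m ≠ 0} := fun k l m =>
    (h1 k).inter ((h1 l).inter (h1 m))
  fin_cases j <;> exact h2 _ _ _

lemma quo_smooth (j : Fin 5) : ContDiffOn ℂ ω (quo j) {Z : C5 | dom j Z} := by
  have h : ∀ k : Fin 5, ContDiffOn ℂ ω (fun Z : C5 => Z k) {Z : C5 | dom j Z} := fun k =>
    (contDiff_apply ℂ ℂ k).contDiffOn
  refine contDiffOn_pi.2 fun k => ?_
  fin_cases j
  · fin_cases k
    · exact (h 0).div ((h 2).mul (h 3)) fun Z hZ => mul_ne_zero hZ.1 hZ.2.1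
    · exact (h 1).div ((h 3).mul (h 4)) fun Z hZ => mul_ne_zero hZ.2.1 hZ.2.2
  · fin_cases k
    · exact (h 1).div ((h 3).mul (h 4)) fun Z hZ => mul_ne_zero hZ.1 hZ.2.1
    · exact ((h 2).mul (h 3)).div (h 0) fun Z hZ => hZ.2.2
  · fin_cases k
    · exact ((h 1).mul (h 2)).div ((h 0).mul (h 4)) fun Z hZ => mul_ne_zero hZ.2.1 hZ.1
    · exact ((h 3).mul (h 4)).div (h 1) fun Z hZ => hZ.2.2
  · fin_cases k
    · exact ((h 2).mul (h 3)).div (h 0) fun Z hZ => hZ.1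
    · exact ((h 0).mul (h 4)).div ((h 1).mul (h 2)) fun Z hZ => mul_ne_zero hZ.2.1 hZ.2.2
  · fin_cases k
    · exact ((h 3).mul (h 4)).div (h 1) fun Z hZ => hZ.1
    · exact (h 0).div ((h 2).mul (h 3)) fun Z hZ => mul_ne_zero hZ.2.1 hZ.2.2

lemma lam_smooth (j : Fin 5) (i : Fin 3) :
    ContDiffOn ℂ ω (fun Z => lam j Z i) {Z : C5 | dom j Z} := by
  have h : ∀ k : Fin 5, ContDiffOn ℂ ω (fun Z : C5 => Z k) {Z : C5 | dom j Z} := fun k =>
    (contDiff_apply ℂ ℂ k).contDiffOn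
  have c : ContDiffOn ℂ ω (fun _ : C5 => (1 : ℂ)) {Z : C5 | dom j Z} := contDiffOn_const
  fin_cases j
  · fin_cases i
    · exact c.div (h 2) fun Z hZ => hZ.1
    · exact c.div (h 4) fun Z hZ => hZ.2.2
    · exact c.div (h 3) fun Z hZ => hZ.2.1
  · fin_cases i
    · exact (h 3).div (h 0) fun Z hZ => hZ.2.2
    · exact c.div (h 4) fun Z hZ => hZ.2.1
    · exact c.div (h 3) fun Z hZ => hZ.1
  · fin_cases i
    · exact (h 1).div ((h 0).mul (h 4)) fun Z hZ => mul_ne_zero hZ.2.1 hZ.1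
    · exact c.div (h 4) fun Z hZ => hZ.1
    · exact (h 4).div (h 1) fun Z hZ => hZ.2.2
  · fin_cases i
    · exact c.div (h 2) fun Z hZ => hZ.2.2
    · exact (h 0).div ((h 1).mul (h 2)) fun Z hZ => mul_ne_zero hZ.2.1 hZ.2.2
    · exact (h 2).div (h 0) fun Z hZ => hZ.1
  · fin_cases i
    · exact c.div (h 2) fun Z hZ => hZ.2.1
    · exact (h 3).div (h 1) fun Z hZ => hZ.1
    · exact c.div (h 3) fun Z hZ => hZ.2.2

/-- the potentials in the charts -/
noncomputable def phi (j : Fin 5) (p : C2) : ℂ := (Psi (sig j p) : ℂ)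

lemma phi_smooth (j : Fin 5) : ContDiff ℝ ∞ (phi j) := by
  have h1 : ContDiff ℝ ω (sig j) := (sig_smooth j).restrict_scalars ℝ
  have h2 : ContDiffOn ℝ ω (fun p => Psi (sig j p)) univ :=
    smooth_Psi.comp h1.contDiffOn fun p _ => stable_sig j p
  exact ofRealCLM.contDiff.comp ((contDiffOn_univ.1 h2).of_le (by simp))

lemma phi_real (j : Fin 5) (z : C2) : conj (phi j z) = phi j z := conj_ofReal _

/-! ### Horizontal vectors -/

/-- the differential of the slice -/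
def dsig (j : Fin 5) (v : C2) : C5 :=
  match j with
  | 0 => ![v 0, v 1, 0, 0, 0]
  | 1 => ![0, v 0, v 1, 0, 0]
  | 2 => ![0, 0, v 0, v 1, 0]
  | 3 => ![0, 0, 0, v 0, v 1]
  | 4 => ![v 1, 0, 0, 0, v 0]

/-- the infinitesimal action of the torus, added to the vector `V` -/
def vert (V W : C5) (l0 l1 l2 : ℂ) : C5 :=
  ![V 0 + (l0 + l2) * W 0, V 1 + (l1 + l2) * W 1, V 2 + l0 * W 2, V 3 + l2 * W 3, V 4 + l1 * W 4]

lemma solve_hor {p q t h0 h1 h2 h3 h4 : ℂ} (e1 : p * (h2 + t * h0) = 2)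
    (e2 : q * (h4 + t * h1) = 2) (hδ : (p ^ 2 * h0 * h2 + q ^ 2 * h1 * h4) / 2 + h3 ≠ 0)
    (c1 c2 c3 : ℂ) : ∃ l0 l1 l2 : ℂ, l0 * (h2 + t * h0) + t * l2 * h0 + c1 = 0 ∧
      l1 * (h4 + t * h1) + t * l2 * h1 + c2 = 0 ∧
      (l0 + l2) * (p * h0) + (l1 + l2) * (q * h1) + l2 * h3 + c3 = 0 := by
  obtain ⟨l2, hl⟩ : ∃ l2, ((p ^ 2 * h0 * h2 + q ^ 2 * h1 * h4) / 2 + h3) * l2 =
      -c3 + c1 * p ^ 2 * h0 / 2 + c2 * q ^ 2 * h1 / 2 := by
    refine ⟨(-c3 + c1 * p ^ 2 * h0 / 2 + c2 * q ^ 2 * h1 / 2) /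
      ((p ^ 2 * h0 * h2 + q ^ 2 * h1 * h4) / 2 + h3), ?_⟩
    exact mul_div_cancel₀ _ hδ
  refine ⟨-(t * l2 * h0 + c1) * p / 2, -(t * l2 * h1 + c2) * q / 2, l2, ?_, ?_, ?_⟩
  · linear_combination (-(t * l2 * h0 + c1) / 2) * e1
  · linear_combination (-(t * l2 * h1 + c2) / 2) * e2
  · linear_combination hl - (l2 * p * h0 / 2) * e1 - (l2 * q * h1 / 2) * e2

lemma exists_hor {W : C5} (hW : Stable W) (V : C5) {p q : ℝ}
    (hp : p = 2 / (hh W 2 + T W * hh W 0)) (hq : q = 2 / (hh W 4 + T W * hh W 1)) :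
    ∃ l0 l1 l2 : ℂ, ∀ X, X = vert V W l0 l1 l2 →
      X 2 * conj (W 2) + T W * (X 0 * conj (W 0)) = 0 ∧
      X 4 * conj (W 4) + T W * (X 1 * conj (W 1)) = 0 ∧
      p * (X 0 * conj (W 0)) + q * (X 1 * conj (W 1)) + X 3 * conj (W 3) = 0 := by
  have hA := A_pos hW.real (T_pos W)
  have hB := B_pos hW.real (T_pos W)
  have hp0 : 0 < p := by rw [hp]; positivity
  have hq0 : 0 < q := by rw [hq]; positivity
  have e1 : (p : ℂ) * ((hh W 2 : ℂ) + T W * (hh W 0 : ℂ)) = 2 := by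
    have : p * (hh W 2 + T W * hh W 0) = 2 := by rw [hp]; exact div_mul_cancel₀ _ hA.ne'
    exact_mod_cast this
  have e2 : (q : ℂ) * ((hh W 4 : ℂ) + T W * (hh W 1 : ℂ)) = 2 := by
    have : q * (hh W 4 + T W * hh W 1) = 2 := by rw [hq]; exact div_mul_cancel₀ _ hB.ne'
    exact_mod_cast this
  have hδ : ((p : ℂ) ^ 2 * (hh W 0 : ℂ) * (hh W 2 : ℂ) +
      (q : ℂ) ^ 2 * (hh W 1 : ℂ) * (hh W 4 : ℂ)) / 2 + (hh W 3 : ℂ) ≠ 0 := by
    have := (delta_pos hW hp0 hq0).ne'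
    exact_mod_cast this
  obtain ⟨l0, l1, l2, k1, k2, k3⟩ := solve_hor e1 e2 hδ
    (V 2 * conj (W 2) + T W * (V 0 * conj (W 0))) (V 4 * conj (W 4) + T W * (V 1 * conj (W 1)))
    (p * (V 0 * conj (W 0)) + q * (V 1 * conj (W 1)) + V 3 * conj (W 3))
  have hn : ∀ k, (hh W k : ℂ) = W k * conj (W k) := fun k => (mul_conj _).symm
  simp only [hn] at k1 k2 k3
  refine ⟨l0, l1, l2, fun X hX => ?_⟩
  have x0 : X 0 = V 0 + (l0 + l2) * W 0 := by rw [hX]; rfl
  have x1 : X 1 = V 1 + (l1 + l2) * W 1 := by rw [hX]; rfl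
  have x2 : X 2 = V 2 + l0 * W 2 := by rw [hX]; rfl
  have x3 : X 3 = V 3 + l2 * W 3 := by rw [hX]; rfl
  have x4 : X 4 = V 4 + l1 * W 4 := by rw [hX]; rfl
  rw [x0, x1, x2, x3, x4]
  refine ⟨?_, ?_, ?_⟩
  · linear_combination k1
  · linear_combination k2
  · linear_combination k3

lemma deriv_frac {a a' b b' c c' d d' : ℂ} (hc : c ≠ 0) (hd : d ≠ 0) :
    HasDerivAt (fun s : ℂ => ((a + s * a') * (b + s * b')) / ((c + s * c') * (d + s * d')))
      (((a' * b + a * b') * (c * d) - (a * b) * (c' * d + c * d')) / (c * d) ^ 2) 0 := by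
  have l : ∀ w x : ℂ, HasDerivAt (fun s : ℂ => w + s * x) x 0 := fun w x => by
    simpa using ((hasDerivAt_id (0 : ℂ)).mul_const x).const_add w
  have h := ((l a a').mul (l b b')).div ((l c c').mul (l d d')) (by simp [hc, hd])
  exact (h.congr_deriv (by simp)).congr_of_eventuallyEq (Eventually.of_forall fun s => rfl)

lemma deriv_quo (j : Fin 5) (p v : C2) (l0 l1 l2 : ℂ) (k : Fin 2) :
    HasDerivAt (fun s : ℂ => quo j (line (sig j p) (vert (dsig j v) (sig j p) l0 l1 l2) s) k)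
      (v k) 0 := by
  fin_cases j
  · fin_cases k
    · have h := deriv_frac (a := p 0) (a' := v 0 + (l0 + l2) * p 0) (b := 1) (b' := 0) (c := 1)
        (c' := l0) (d := 1) (d' := l2) one_ne_zero one_ne_zero
      refine (h.congr_deriv (by simp; ring)).congr_of_eventuallyEq (Eventually.of_forall fun s => ?_)
      simp [quo, line, sig, dsig, vert]
    · have h := deriv_frac (a := p 1) (a' := v 1 + (l1 + l2) * p 1) (b := 1) (b' := 0) (c := 1)
        (c' := l2) (d := 1) (d' := l1) one_ne_zero one_ne_zero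
      refine (h.congr_deriv (by simp; ring)).congr_of_eventuallyEq (Eventually.of_forall fun s => ?_)
      simp [quo, line, sig, dsig, vert]
  · fin_cases k
    · have h := deriv_frac (a := p 0) (a' := v 0 + (l1 + l2) * p 0) (b := 1) (b' := 0) (c := 1)
        (c' := l2) (d := 1) (d' := l1) one_ne_zero one_ne_zero
      refine (h.congr_deriv (by simp; ring)).congr_of_eventuallyEq (Eventually.of_forall fun s => ?_)
      simp [quo, line, sig, dsig, vert]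
    · have h := deriv_frac (a := p 1) (a' := v 1 + l0 * p 1) (b := 1) (b' := l2) (c := 1)
        (c' := l0 + l2) (d := 1) (d' := 0) one_ne_zero one_ne_zero
      refine (h.congr_deriv (by simp; ring)).congr_of_eventuallyEq (Eventually.of_forall fun s => ?_)
      simp [quo, line, sig, dsig, vert]
  · fin_cases k
    · have h := deriv_frac (a := 1) (a' := l1 + l2) (b := p 0) (b' := v 0 + l0 * p 0) (c := 1)
        (c' := l0 + l2) (d := 1) (d' := l1) one_ne_zero one_ne_zero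
      refine (h.congr_deriv (by simp; ring)).congr_of_eventuallyEq (Eventually.of_forall fun s => ?_)
      simp [quo, line, sig, dsig, vert]
    · have h := deriv_frac (a := p 1) (a' := v 1 + l2 * p 1) (b := 1) (b' := l1) (c := 1)
        (c' := l1 + l2) (d := 1) (d' := 0) one_ne_zero one_ne_zero
      refine (h.congr_deriv (by simp; ring)).congr_of_eventuallyEq (Eventually.of_forall fun s => ?_)
      simp [quo, line, sig, dsig, vert]
  · fin_cases k
    · have h := deriv_frac (a := 1) (a' := l0) (b := p 0) (b' := v 0 + l2 * p 0) (c := 1)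
        (c' := l0 + l2) (d := 1) (d' := 0) one_ne_zero one_ne_zero
      refine (h.congr_deriv (by simp; ring)).congr_of_eventuallyEq (Eventually.of_forall fun s => ?_)
      simp [quo, line, sig, dsig, vert]
    · have h := deriv_frac (a := 1) (a' := l0 + l2) (b := p 1) (b' := v 1 + l1 * p 1) (c := 1)
        (c' := l1 + l2) (d := 1) (d' := l0) one_ne_zero one_ne_zero
      refine (h.congr_deriv (by simp; ring)).congr_of_eventuallyEq (Eventually.of_forall fun s => ?_)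
      simp [quo, line, sig, dsig, vert]
  · fin_cases k
    · have h := deriv_frac (a := 1) (a' := l2) (b := p 0) (b' := v 0 + l1 * p 0) (c := 1)
        (c' := l1 + l2) (d := 1) (d' := 0) one_ne_zero one_ne_zero
      refine (h.congr_deriv (by simp; ring)).congr_of_eventuallyEq (Eventually.of_forall fun s => ?_)
      simp [quo, line, sig, dsig, vert]
    · have h := deriv_frac (a := p 1) (a' := v 1 + (l0 + l2) * p 1) (b := 1) (b' := 0) (c := 1)
        (c' := l0) (d := 1) (d' := l2) one_ne_zero one_ne_zero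
      refine (h.congr_deriv (by simp; ring)).congr_of_eventuallyEq (Eventually.of_forall fun s => ?_)
      simp [quo, line, sig, dsig, vert]

end Pool.Agent.N150.HS
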